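import Pool.Agent.MP_ca0a54_nt.SC.SpecT

/-! Collisions in residue classes and the removed mass. -/

open Filter Finset

namespace Pool.Agent.MP_ca0a54_nt.SC.CT

namespace Col

theorem w_le {a : ℝ} (ha : 0 ≤ a) {T F : Finset ℕ} (hF : F ⊆ T) {t : ℕ}
    (ht : t ≤ (T \ F).card) : w a T F ≤ 1 / (1 + a) ^ t := by
  have h1 : (1 : ℝ) ≤ 1 + a := by linarith
  have e : T.card = F.card + (T \ F).card := by
    rw [card_sdiff_of_subset hF, Nat.add_sub_cancel' (card_le_card hF)]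
  unfold w
  rw [div_le_div_iff₀ (by positivity) (by positivity), one_mul, e, pow_add]
  exact mul_le_mul (pow_le_pow_left₀ ha (by linarith) _) (pow_le_pow_right₀ h1 ht)
    (by positivity) (by positivity)

/-- The part of `two` with a given first set. -/
noncomputable def twoE (a : ℝ) (p : ℕ) (T E : Finset ℕ) : ℝ :=
  ∑ F ∈ T.powerset, if E ≠ F ∧ pd E ≡ pd F [MOD p] then w a T E * w a T F else 0

/-- The part of `three` with a given first set. -/
noncomputable def threeE (a : ℝ) (p : ℕ) (T E : Finset ℕ) : ℝ :=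
  ∑ F ∈ T.powerset, ∑ G ∈ T.powerset,
    if (E ≠ F ∧ E ≠ G ∧ F ≠ G) ∧ pd E ≡ pd F [MOD p] ∧ pd E ≡ pd G [MOD p] then
      w a T E * w a T F * w a T G else 0

theorem twoE_nonneg {a : ℝ} (ha : 0 ≤ a) (p : ℕ) (T E : Finset ℕ) : 0 ≤ twoE a p T E := by
  refine sum_nonneg fun F _ => ?_
  split_ifs
  · exact mul_nonneg (w_nonneg ha _ _) (w_nonneg ha _ _)
  · exact le_rfl

theorem threeE_nonneg {a : ℝ} (ha : 0 ≤ a) (p : ℕ) (T E : Finset ℕ) : 0 ≤ threeE a p T E := by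
  refine sum_nonneg fun F _ => sum_nonneg fun G _ => ?_
  split_ifs
  · exact mul_nonneg (mul_nonneg (w_nonneg ha _ _) (w_nonneg ha _ _)) (w_nonneg ha _ _)
  · exact le_rfl

/-- One heavy residue class. -/
theorem one (d : Dat) (T E : Finset ℕ) (p : ℕ) (ha : 0 ≤ d.a) (hk : 0 < d.κ')
    (h2 : 2 ≤ d.κ' * (1 + d.a) ^ d.t0) (hE : E ⊆ T) (hc : d.κ' < Cl d p T E) :
    w d.a T E ≤ 4 / d.κ' ^ 2 * (twoE d.a p T E / (1 + d.a) ^ d.t0 + threeE d.a p T E) := by
  have hp : (0 : ℝ) < (1 + d.a) ^ d.t0 := by positivity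
  obtain ⟨u, hu⟩ : ∃ u : Finset ℕ → ℝ, ∀ F, u F =
      if E ≠ F ∧ d.t0 ≤ (T \ F).card ∧ pd F ≡ pd E [MOD p] then w d.a T F else 0 :=
    ⟨_, fun _ => rfl⟩
  have heta : 1 / (1 + d.a) ^ d.t0 ≤ d.κ' / 2 := by
    rw [div_le_div_iff₀ hp two_pos]
    linarith
  have h1 : Cl d p T E ≤ d.κ' / 2 + ∑ F ∈ T.powerset, u F := by
    have e : d.κ' / 2 = ∑ F ∈ T.powerset, if E = F then d.κ' / 2 else 0 := by
      rw [sum_ite_eq, if_pos (mem_powerset.2 hE)]
    rw [e, ← sum_add_distrib]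
    refine sum_le_sum fun F hF => ?_
    rw [hu]
    by_cases hEF : E = F
    · have hn : ¬ (E ≠ F ∧ d.t0 ≤ (T \ F).card ∧ pd F ≡ pd E [MOD p]) := fun h => h.1 hEF
      rw [if_pos hEF, if_neg hn, add_zero]
      split_ifs with h
      · exact (w_le ha (mem_powerset.1 hF) h.1).trans heta
      · positivity
    · rw [if_neg hEF, zero_add]
      by_cases h : d.t0 ≤ (T \ F).card ∧ pd F ≡ pd E [MOD p]
      · rw [if_pos h, if_pos ⟨hEF, h⟩]
      · rw [if_neg h, if_neg (fun h' => h h'.2)]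
  have h3 : d.κ' / 2 ≤ ∑ F ∈ T.powerset, u F := by linarith
  have h4 : (d.κ' / 2) ^ 2 ≤ (∑ F ∈ T.powerset, u F) ^ 2 :=
    pow_le_pow_left₀ (by positivity) h3 2
  have hw := w_nonneg ha T
  have h5 : w d.a T E * (∑ F ∈ T.powerset, u F) ^ 2 ≤
      twoE d.a p T E / (1 + d.a) ^ d.t0 + threeE d.a p T E := by
    rw [sq, sum_mul_sum, mul_sum, twoE, threeE, sum_div, ← sum_add_distrib]
    refine sum_le_sum fun F hF => ?_
    have e : (if E ≠ F ∧ pd E ≡ pd F [MOD p] then w d.a T E * w d.a T F else 0) /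
        (1 + d.a) ^ d.t0 = ∑ G ∈ T.powerset, if F = G then
          (if E ≠ F ∧ pd E ≡ pd F [MOD p] then w d.a T E * w d.a T F else 0) /
            (1 + d.a) ^ d.t0 else 0 := by
      rw [sum_ite_eq, if_pos hF]
    rw [e, mul_sum, ← sum_add_distrib]
    refine sum_le_sum fun G hG => ?_
    have n1 : 0 ≤ if F = G then
        (if E ≠ F ∧ pd E ≡ pd F [MOD p] then w d.a T E * w d.a T F else 0) /
          (1 + d.a) ^ d.t0 else 0 := by
      split_ifs
      · exact div_nonneg (mul_nonneg (hw _) (hw _)) hp.le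
      · exact div_nonneg le_rfl hp.le
      · exact le_rfl
    have n2 : 0 ≤ if (E ≠ F ∧ E ≠ G ∧ F ≠ G) ∧ pd E ≡ pd F [MOD p] ∧ pd E ≡ pd G [MOD p] then
        w d.a T E * w d.a T F * w d.a T G else 0 := by
      split_ifs
      · exact mul_nonneg (mul_nonneg (hw _) (hw _)) (hw _)
      · exact le_rfl
    rw [hu, hu]
    by_cases hF' : E ≠ F ∧ d.t0 ≤ (T \ F).card ∧ pd F ≡ pd E [MOD p]
    swap
    · rw [if_neg hF', zero_mul, mul_zero]
      exact add_nonneg n1 n2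
    by_cases hG' : E ≠ G ∧ d.t0 ≤ (T \ G).card ∧ pd G ≡ pd E [MOD p]
    swap
    · rw [if_neg hG', mul_zero, mul_zero]
      exact add_nonneg n1 n2
    rw [if_pos hF', if_pos hG']
    by_cases hFG : F = G
    · refine le_add_of_le_of_nonneg ?_ n2
      rw [if_pos hFG, if_pos ⟨hF'.1, hF'.2.2.symm⟩, ← mul_assoc, div_eq_mul_one_div]
      exact mul_le_mul_of_nonneg_left (w_le ha (mem_powerset.1 hG) hG'.2.1)
        (mul_nonneg (hw _) (hw _))
    · refine le_add_of_nonneg_of_le n1 ?_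
      rw [if_pos ⟨⟨hF'.1, hG'.1, hFG⟩, hF'.2.2.symm, hG'.2.2.symm⟩, mul_assoc]
  calc w d.a T E = 4 / d.κ' ^ 2 * (w d.a T E * (d.κ' / 2) ^ 2) := by
        field_simp
        norm_num
    _ ≤ 4 / d.κ' ^ 2 * (w d.a T E * (∑ F ∈ T.powerset, u F) ^ 2) :=
        mul_le_mul_of_nonneg_left (mul_le_mul_of_nonneg_left h4 (hw _)) (by positivity)
    _ ≤ _ := mul_le_mul_of_nonneg_left h5 (by positivity)

end Col

theorem col : ColStmt := by
  intro d T ha hk h2
  have hp : (0 : ℝ) < (1 + d.a) ^ d.t0 := by positivity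
  have e : 4 / d.κ' ^ 2 * ∑ p ∈ d.B, (two d.a p T / (1 + d.a) ^ d.t0 + three d.a p T) =
      ∑ E ∈ T.powerset, ∑ p ∈ d.B, 4 / d.κ' ^ 2 *
        (Col.twoE d.a p T E / (1 + d.a) ^ d.t0 + Col.threeE d.a p T E) := by
    rw [sum_comm, mul_sum]
    refine sum_congr rfl fun p _ => ?_
    rw [← mul_sum, sum_add_distrib, ← sum_div]
    rfl
  rw [e]
  refine sum_le_sum fun E hE => ?_
  have hn : ∀ p ∈ d.B, 0 ≤ 4 / d.κ' ^ 2 *
      (Col.twoE d.a p T E / (1 + d.a) ^ d.t0 + Col.threeE d.a p T E) := fun p _ =>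
    mul_nonneg (by positivity) (add_nonneg (div_nonneg (Col.twoE_nonneg ha _ _ _) hp.le)
      (Col.threeE_nonneg ha _ _ _))
  split_ifs with h
  · obtain ⟨-, p, hp', hc⟩ := h
    exact (Col.one d T E p ha hk h2 (mem_powerset.1 hE) hc).trans (single_le_sum hn hp')
  · exact sum_nonneg hn

namespace Col

/-- Exchange of the sum over the edges and the mean. -/
theorem exch (d : Dat) (ha : 0 ≤ d.a) (hP : ∀ E, d.Pe E ⊆ d.B)
    (X : Finset ℕ → ℕ → Finset ℕ → ℝ) :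
    ∑ E ∈ d.A.powerset, ∑ p ∈ d.Pe E,
      d.a ^ E.card / p * Ex d.A (fun T => if E ⊆ T then X E p T else 0) =
    ∑ p ∈ d.B, 1 / (p : ℝ) * Ex d.A fun T => (1 + d.a) ^ T.card *
      ∑ E ∈ T.powerset, if p ∈ d.Pe E then w d.a T E * X E p T else 0 := by
  have h1 : ∀ E ∈ d.A.powerset, ∑ p ∈ d.Pe E,
      d.a ^ E.card / p * Ex d.A (fun T => if E ⊆ T then X E p T else 0) =
      ∑ p ∈ d.B, 1 / (p : ℝ) * Ex d.A (fun T => if E ⊆ T then
        (if p ∈ d.Pe E then d.a ^ E.card * X E p T else 0) else 0) := by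
    intro E _
    rw [← sum_subset (hP E)]
    · refine sum_congr rfl fun p hp => ?_
      rw [div_eq_mul_one_div, mul_comm (d.a ^ E.card), mul_assoc, ← Ex_mul]
      congr 2
      funext T
      rw [if_pos hp]
      split_ifs
      · rfl
      · exact mul_zero _
    · intro p _ hp
      simp [hp, Ex]
  rw [sum_congr rfl h1, sum_comm]
  refine sum_congr rfl fun p _ => ?_
  rw [← mul_sum, ← Ex_sum]
  congr 1
  refine sum_congr rfl fun T hT => ?_
  congr 1
  show ∑ E ∈ d.A.powerset, _ = _ * _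
  rw [← sum_filter, mul_sum]
  refine sum_congr ?_ fun E _ => ?_
  · ext E
    simp only [mem_filter, mem_powerset]
    exact ⟨fun h => h.2, fun h => ⟨h.trans (mem_powerset.1 hT), h⟩⟩
  · split_ifs
    · have : (1 + d.a) ^ T.card ≠ 0 := by positivity
      unfold w
      field_simp
    · exact (mul_zero _).symm

theorem R_nonneg (d : Dat) (ha : 0 ≤ d.a) (p : ℕ) (T : Finset ℕ) : 0 ≤ R d p T := by
  refine sum_nonneg fun E _ => ?_
  split_ifs
  · exact w_nonneg ha _ _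
  · exact le_rfl

theorem term1 (d : Dat) (ha : 0 ≤ d.a) (hP : ∀ E, d.Pe E ⊆ d.B) (hk : 0 < d.κ) :
    ∑ E ∈ d.A.powerset, ∑ p ∈ d.Pe E,
      d.a ^ E.card / p * Ex d.A (fun T => if E ⊆ T then R d p T / d.κ else 0) =
    (∑ p ∈ d.B, 1 / (p : ℝ) * Ex d.A fun T => (1 + d.a) ^ T.card * R d p T ^ 2) / d.κ := by
  rw [exch d ha hP fun _ p T => R d p T / d.κ, sum_div]
  refine sum_congr rfl fun p _ => ?_
  rw [mul_div_assoc, div_eq_inv_mul (Ex _ _), ← Ex_mul _ d.κ⁻¹]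
  congr 2
  funext T
  have e : (∑ E ∈ T.powerset, if p ∈ d.Pe E then w d.a T E * (R d p T / d.κ) else 0) =
      R d p T * (R d p T / d.κ) := by
    conv_rhs => rw [R, sum_mul]
    refine sum_congr rfl fun E _ => ?_
    split_ifs
    · rfl
    · exact (zero_mul _).symm
  rw [e]
  field_simp

theorem small (hc : CondStmt) (A E : Finset ℕ) (hE : E ⊆ A) (hr : rc E ≤ 1) :
    Ex A (fun T => if E ⊆ T then (2 : ℝ) ^ E.card * (1 / 2) ^ T.card else 0) ≤
      Real.exp (-(rc A - 1) / 2) / pd E := by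
  have e : (fun T : Finset ℕ => if E ⊆ T then (2 : ℝ) ^ E.card * (1 / 2) ^ T.card else 0) =
      fun T => (2 : ℝ) ^ E.card * if E ⊆ T then (1 / 2 : ℝ) ^ T.card else 0 := by
    funext T
    split_ifs
    · rfl
    · exact (mul_zero _).symm
  have e1 : (2 : ℝ) ^ E.card * ∏ q ∈ E, (1 / 2 : ℝ) / (q : ℝ) = 1 / pd E := by
    rw [prod_div_distrib, prod_const, pd, Nat.cast_prod, ← mul_div_assoc, ← mul_pow]
    norm_num
  have e2 : ∏ q ∈ A \ E, (1 - (1 - 1 / 2 : ℝ) / (q : ℝ)) ≤ Real.exp (-(rc A - 1) / 2) := by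
    have h1 : ∏ q ∈ A \ E, (1 - (1 - 1 / 2 : ℝ) / (q : ℝ)) ≤
        ∏ q ∈ A \ E, Real.exp (-(1 / (q : ℝ)) / 2) := by
      refine prod_le_prod (fun q _ => ?_) fun q _ => ?_
      · have := Nat.cast_inv_le_one (α := ℝ) q
        rw [div_eq_mul_inv]
        linarith
      · have := Real.add_one_le_exp (-(1 / (q : ℝ)) / 2)
        have e3 : (1 - 1 / 2 : ℝ) / (q : ℝ) = 1 / (q : ℝ) / 2 := by ring
        rw [e3]
        linarith
    refine h1.trans ?_
    rw [← Real.exp_sum, Real.exp_le_exp, ← sum_div, sum_neg_distrib]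
    have h2 : rc (A \ E) + rc E = rc A := sum_sdiff hE
    have h3 : rc (A \ E) = ∑ q ∈ A \ E, 1 / (q : ℝ) := rfl
    linarith
  rw [e, Ex_mul, hc A E _ hE, ← mul_assoc, e1, one_div_mul_eq_div]
  exact div_le_div_of_nonneg_right e2 (Nat.cast_nonneg _)

theorem term2 (hc : CondStmt) (d : Dat) (ha : 0 ≤ d.a)
    (hr : ∀ E ⊆ d.A, ∀ p ∈ d.Pe E, rc E ≤ 1) :
    ∑ E ∈ d.A.powerset, ∑ p ∈ d.Pe E, d.a ^ E.card / p * Ex d.A (fun T =>
      if E ⊆ T then (2 : ℝ) ^ d.t0 * (2 ^ E.card * (1 / 2) ^ T.card) else 0) ≤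
    2 ^ d.t0 * Real.exp (-(rc d.A - 1) / 2) * massS d := by
  rw [massS, mul_sum]
  refine sum_le_sum fun E hE => ?_
  rw [mul_sum]
  refine sum_le_sum fun p hp => ?_
  have e : (fun T : Finset ℕ =>
      if E ⊆ T then (2 : ℝ) ^ d.t0 * (2 ^ E.card * (1 / 2) ^ T.card) else 0) =
      fun T => (2 : ℝ) ^ d.t0 * if E ⊆ T then (2 : ℝ) ^ E.card * (1 / 2) ^ T.card else 0 := by
    funext T
    split_ifs
    · rfl
    · exact (mul_zero _).symm
  have h1 := small hc d.A E (mem_powerset.1 hE) (hr E (mem_powerset.1 hE) p hp)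
  rw [e, Ex_mul]
  calc _ ≤ d.a ^ E.card / p * (2 ^ d.t0 * (Real.exp (-(rc d.A - 1) / 2) / pd E)) :=
        mul_le_mul_of_nonneg_left (mul_le_mul_of_nonneg_left h1 (by positivity)) (by positivity)
    _ = _ := by
        rw [← div_div]
        ring

open Classical in
/-- The indicator of a heavy residue class. -/
noncomputable def hv (d : Dat) (T E : Finset ℕ) : ℝ :=
  if d.t0 ≤ (T \ E).card ∧ ∃ p ∈ d.B, d.κ' < Cl d p T E then 1 else 0

theorem hv_nonneg (d : Dat) (T E : Finset ℕ) : 0 ≤ hv d T E := by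
  unfold hv
  split_ifs <;> norm_num

theorem term3 (hcol : ColStmt) (d : Dat) (ha : 0 ≤ d.a) (hP : ∀ E, d.Pe E ⊆ d.B)
    (hk : 0 < d.κ') (h2 : 2 ≤ d.κ' * (1 + d.a) ^ d.t0) :
    ∑ E ∈ d.A.powerset, ∑ p ∈ d.Pe E,
      d.a ^ E.card / p * Ex d.A (fun T => if E ⊆ T then hv d T E else 0) ≤
    rc d.B * (4 / d.κ' ^ 2) * ∑ p ∈ d.B,
      ((Ex d.A fun T => (1 + d.a) ^ T.card * two d.a p T) / (1 + d.a) ^ d.t0 +
        Ex d.A fun T => (1 + d.a) ^ T.card * three d.a p T) := by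
  rw [exch d ha hP fun E _ T => hv d T E, mul_assoc, rc, sum_mul]
  refine sum_le_sum fun p _ => mul_le_mul_of_nonneg_left ?_ (by positivity)
  have e : (4 / d.κ' ^ 2) * ∑ p ∈ d.B,
      ((Ex d.A fun T => (1 + d.a) ^ T.card * two d.a p T) / (1 + d.a) ^ d.t0 +
        Ex d.A fun T => (1 + d.a) ^ T.card * three d.a p T) =
      Ex d.A fun T => (4 / d.κ' ^ 2) * ∑ p ∈ d.B,
        (((1 + d.a) ^ d.t0)⁻¹ * ((1 + d.a) ^ T.card * two d.a p T) +
          (1 + d.a) ^ T.card * three d.a p T) := by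
    rw [Ex_mul, Ex_sum]
    congr 1
    refine sum_congr rfl fun p _ => ?_
    rw [Ex_add, Ex_mul, div_eq_inv_mul]
  rw [e]
  refine Ex_mono fun T _ => ?_
  have h1 := hcol d T ha hk h2
  have h3 : (∑ E ∈ T.powerset, if p ∈ d.Pe E then w d.a T E * hv d T E else 0) ≤
      4 / d.κ' ^ 2 * ∑ p ∈ d.B, (two d.a p T / (1 + d.a) ^ d.t0 + three d.a p T) := by
    refine le_trans (sum_le_sum fun E _ => ?_) h1
    have hw := w_nonneg ha T E
    unfold hv
    by_cases h : d.t0 ≤ (T \ E).card ∧ ∃ p ∈ d.B, d.κ' < Cl d p T E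
    · rw [if_pos h, if_pos h, mul_one]
      split_ifs
      · exact le_rfl
      · exact hw
    · rw [if_neg h, if_neg h, mul_zero, ite_self]
  refine (mul_le_mul_of_nonneg_left h3 (by positivity)).trans (le_of_eq ?_)
  rw [mul_left_comm, mul_sum]
  congr 1
  refine sum_congr rfl fun p _ => ?_
  ring

theorem one_sub_oi (d : Dat) (ha : 0 ≤ d.a) (hk : 0 < d.κ) {T E : Finset ℕ} (hE : E ⊆ T)
    (p : ℕ) : 1 - oi d T E p ≤ R d p T / d.κ +
      (2 : ℝ) ^ d.t0 * (2 ^ E.card * (1 / 2) ^ T.card) + hv d T E := by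
  have n1 : 0 ≤ R d p T / d.κ := div_nonneg (R_nonneg d ha p T) hk.le
  have n2 : 0 ≤ (2 : ℝ) ^ d.t0 * (2 ^ E.card * (1 / 2) ^ T.card) := by positivity
  have n3 := hv_nonneg d T E
  have n4 := oi_nonneg d T E p
  by_cases h1 : R d p T ≤ d.κ
  swap
  · have : 1 ≤ R d p T / d.κ := by
      rw [le_div_iff₀ hk]
      linarith [not_le.1 h1]
    linarith
  by_cases h2 : d.t0 ≤ (T \ E).card
  swap
  · have e : T.card ≤ d.t0 + E.card := by
      have := card_sdiff_add_card_eq_card hE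
      omega
    have : 1 ≤ (2 : ℝ) ^ d.t0 * (2 ^ E.card * (1 / 2) ^ T.card) := by
      rw [← mul_assoc, ← pow_add, one_div, inv_pow, ← div_eq_mul_inv,
        le_div_iff₀ (by positivity), one_mul]
      exact pow_le_pow_right₀ one_le_two e
    linarith
  by_cases h3 : ∀ p' ∈ d.B, Cl d p' T E ≤ d.κ'
  · have : oi d T E p = 1 := if_pos ⟨h1, h2, h3⟩
    linarith
  · have : hv d T E = 1 := by
      refine if_pos ⟨h2, ?_⟩
      by_contra h4
      exact h3 fun p' hp' => not_lt.1 fun h5 => h4 ⟨p', hp', h5⟩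
    linarith

end Col

theorem bad : CondStmt → ColStmt → BadStmt := by
  intro hc hcol r d hB h2 hr
  obtain ⟨-, -, ha, hP, -, hk, hk'⟩ := hB
  refine le_trans ?_ (add_le_add (add_le_add (Col.term1 d ha hP hk).le (Col.term2 hc d ha hr))
    (Col.term3 hcol d ha hP hk' h2))
  rw [Bad, ← sum_add_distrib, ← sum_add_distrib]
  refine sum_le_sum fun E _ => ?_
  rw [← sum_add_distrib, ← sum_add_distrib]
  refine sum_le_sum fun p _ => ?_
  rw [← mul_add, ← mul_add, ← Ex_add, ← Ex_add]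
  refine mul_le_mul_of_nonneg_left (Ex_mono fun T _ => ?_) (by positivity)
  by_cases hE : E ⊆ T
  · simp only [if_pos hE]
    exact Col.one_sub_oi d ha hk hE p
  · simp only [if_neg hE]
    norm_num

end Pool.Agent.MP_ca0a54_nt.SC.CT
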