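import Pool.Agent.MP_ca0a54_nt.SC.SpecT

/-! The choice of the constants in the expansion estimate. -/

open Filter Finset

namespace Pool.Agent.MP_ca0a54_nt.SC.CT

namespace Core

theorem tk_tendsto : Tendsto tk atTop atTop :=
  tendsto_pow_atTop_atTop_of_one_lt (by norm_num : (1 : ℝ) < 2)

theorem ZV_pos (k : ℕ) : 0 < ZV k := by
  unfold ZV tk
  positivity

theorem ev_le (y : ℝ) : ∀ᶠ k : ℕ in atTop, y ≤ Real.exp (40 * Real.log (tk k)) :=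
  (Real.tendsto_exp_atTop.comp ((Real.tendsto_log_atTop.comp tk_tendsto).const_mul_atTop
    (by norm_num : (0 : ℝ) < 40))).eventually_ge_atTop y

/-- The arithmetic of the constants. -/
theorem arith {c ε C C1 s δ Z m : ℝ} (hc : 0 < c) (hε : 0 < ε) (hZ : 0 < Z) (h1 : 1 ≤ C1)
    (hC : 8 * C / (c * ε) ≤ C1) (hs : 2 ≤ s) (hs' : 256 * C1 / (c * ε) ≤ s) (hδ : δ ≤ ε / 4)
    (hδ' : δ ≤ c * ε / 4) (hm : c * (s ^ 2 - 1 - 1) * Z ≤ m) :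
    0 < m ∧ (32 * C1 * s + C * s ^ 2 / C1 + δ) * Z + δ * m ≤ ε * m := by
  have hce : 0 < c * ε := mul_pos hc hε
  have hcZ : 0 < c * Z := mul_pos hc hZ
  have h4 : 4 ≤ s ^ 2 := by nlinarith
  have hK : c * Z * s ^ 2 ≤ 2 * m := by nlinarith
  have hK' : c * Z * 4 ≤ c * Z * s ^ 2 := mul_le_mul_of_nonneg_left h4 hcZ.le
  have hm0 : 0 < m := by linarith
  rw [div_le_iff₀ hce] at hC hs'
  have hεK : ε * (c * Z * s ^ 2) ≤ ε * (2 * m) := mul_le_mul_of_nonneg_left hK hε.le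
  have e1 : 256 * C1 * (s * Z) ≤ s * (c * ε) * (s * Z) :=
    mul_le_mul_of_nonneg_right hs' (by positivity)
  have e2 : C / C1 ≤ c * ε / 8 := by
    rw [div_le_iff₀ (by linarith)]
    linarith
  have e3 : C / C1 * (s ^ 2 * Z) ≤ c * ε / 8 * (s ^ 2 * Z) :=
    mul_le_mul_of_nonneg_right e2 (by positivity)
  have e4 : δ * Z ≤ c * ε / 4 * Z := mul_le_mul_of_nonneg_right hδ' hZ.le
  have e5 : δ * m ≤ ε / 4 * m := mul_le_mul_of_nonneg_right hδ hm0.le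
  have e6 : ε * (c * Z * 4) ≤ ε * (c * Z * s ^ 2) := mul_le_mul_of_nonneg_left hK' hε.le
  have e7 : 0 < ε * m := mul_pos hε hm0
  refine ⟨hm0, ?_⟩
  have e : (32 * C1 * s + C * s ^ 2 / C1 + δ) * Z =
      256 * C1 * (s * Z) / 8 + C / C1 * (s ^ 2 * Z) + δ * Z := by ring
  rw [e]
  nlinarith

end Core

theorem coreOf (hE : EstStmt) (hM : MassStmt) (hG : GoodStmt) (hH : HypStmt) : SC.CoreStmt := by
  intro r η hr hη hη1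
  obtain ⟨C, -, hE⟩ := hE
  obtain ⟨c, hc, hG⟩ := hG η hη hη1
  obtain ⟨c', hc', hM⟩ := hM η hη hη1
  refine ⟨c, hc, fun ε z hε => ?_⟩
  obtain ⟨y0, hG⟩ := hG z
  obtain ⟨C1, h1, h2⟩ : ∃ C1 : ℝ, 1 ≤ C1 ∧ 8 * C / (c' * ε) ≤ C1 :=
    ⟨_, le_max_left _ _, le_max_right _ _⟩
  obtain ⟨s, h3, h4⟩ : ∃ s : ℝ, 2 ≤ s ∧ 256 * C1 / (c' * ε) ≤ s :=
    ⟨_, le_max_left _ _, le_max_right _ _⟩
  obtain ⟨δ, h5, h6, h7⟩ : ∃ δ : ℝ, 0 < δ ∧ δ ≤ ε / 4 ∧ δ ≤ c' * ε / 4 :=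
    ⟨_, lt_min (by positivity) (by positivity), min_le_left _ _, min_le_right _ _⟩
  obtain ⟨Λ, hΛ, hl⟩ : ∃ Λ : ℝ, 2 ≤ Λ ∧ Real.log Λ = s ^ 2 - 1 := by
    refine ⟨Real.exp (s ^ 2 - 1), ?_, Real.log_exp _⟩
    have := Real.add_one_le_exp (s ^ 2 - 1)
    nlinarith
  obtain ⟨k, ⟨hk1, hk2⟩, hk3, hk4⟩ := (((hE r η C1 Λ δ hr hη hη1 h1 hΛ h5).and
    (hM C1 Λ hΛ)).and ((hH r η C1 Λ hr hη hη1 h1 hΛ).and (Core.ev_le y0))).exists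
  obtain ⟨hB, -, -, hA, -, -⟩ := hk3
  obtain ⟨E, Pe, wt, g1, g2, g3⟩ := hG (dat η C1 Λ k) _ _ _ rfl hk4 hB.2.2.1
    fun q hq => ⟨hB.1 q hq, hA q hq⟩
  rw [hl] at hk1 hk2
  rw [sub_add_cancel, Real.sqrt_sq (by linarith)] at hk1
  obtain ⟨a1, a2⟩ := Core.arith hc' hε (Core.ZV_pos k) h1 h2 h3 h4 h6 h7 hk2
  refine ⟨E, Pe, wt, _, Real.one_le_exp (by unfold tk; positivity), g1, g2 ▸ a1, ?_⟩
  filter_upwards [hk1] with N hN f hf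
  rw [g2, g3, mul_comm]
  exact (hN f hf).trans (mul_le_mul_of_nonneg_left a2 (Nat.cast_nonneg N))

end Pool.Agent.MP_ca0a54_nt.SC.CT
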