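import Pool.Agent.MP_ca0a54_nt.SC.SpecT

/-! The second moment of the weight of a window: expansion and bound. -/

open Filter Finset

namespace Pool.Agent.MP_ca0a54_nt.SC.CT

namespace Exp

/-- One term of the triple sum. -/
noncomputable def tm (α θ y : ℝ) (z : Finset ℕ × Finset ℕ × Finset ℕ) : ℝ :=
  if (y ≤ ll z.1 + ll z.2.1 ∧ ll z.1 + ll z.2.1 ≤ y + 1) ∧ y ≤ ll z.1 + ll z.2.2 ∧
      ll z.1 + ll z.2.2 ≤ y + 1 then
    α ^ z.1.card / pd z.1 * (θ ^ z.2.1.card / pd z.2.1) * (θ ^ z.2.2.card / pd z.2.2) else 0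

theorem tm_nonneg {α θ : ℝ} (hα : 0 ≤ α) (hθ : 0 ≤ θ) (y : ℝ)
    (z : Finset ℕ × Finset ℕ × Finset ℕ) : 0 ≤ tm α θ y z := by
  unfold tm
  split_ifs
  · positivity
  · exact le_rfl

theorem tri_eq (A : Finset ℕ) (α θ y : ℝ) :
    Tri A α θ y = ∑ z ∈ A.powerset ×ˢ A.powerset ×ˢ A.powerset, tm α θ y z := by
  simp only [Tri, sum_product, tm]

/-- The three pieces of a pair of sets. -/
def sp (z : Finset ℕ × Finset ℕ) : Finset ℕ × Finset ℕ × Finset ℕ :=
  (z.1 ∩ z.2, z.1 \ z.2, z.2 \ z.1)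

theorem sp_inj : Function.Injective sp := by
  rintro ⟨E, F⟩ ⟨E', F'⟩ h
  simp only [sp, Prod.mk.injEq] at h
  obtain ⟨h1, h2, h3⟩ := h
  have e1 : E = E' := by
    rw [← sdiff_union_inter E F, ← sdiff_union_inter E' F', h1, h2]
  have e2 : F = F' := by
    rw [← sdiff_union_inter F E, ← sdiff_union_inter F' E', inter_comm F, inter_comm F', h1, h3]
  rw [e1, e2]

theorem pair_le (A : Finset ℕ) {α θ : ℝ} (hα : 0 ≤ α) (hθ : 0 ≤ θ) (y : ℝ) :
    ∑ z ∈ A.powerset ×ˢ A.powerset, tm α θ y (sp z) ≤ Tri A α θ y := by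
  rw [tri_eq, ← sum_image (f := tm α θ y) (g := sp) (fun _ _ _ _ h => sp_inj h)]
  refine sum_le_sum_of_subset_of_nonneg ?_ fun z _ _ => tm_nonneg hα hθ y z
  intro z hz
  obtain ⟨⟨E, F⟩, hEF, rfl⟩ := mem_image.1 hz
  simp only [mem_product, mem_powerset] at hEF
  simp only [sp, mem_product, mem_powerset]
  exact ⟨inter_subset_left.trans hEF.1, sdiff_subset.trans hEF.1, sdiff_subset.trans hEF.2⟩

theorem ll_split (E F : Finset ℕ) : ll (E ∩ F) + ll (E \ F) = ll E := by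
  unfold ll
  exact sum_inter_add_sum_sdiff E F _

theorem ll_split' (E F : Finset ℕ) : ll (E ∩ F) + ll (F \ E) = ll F := by
  rw [inter_comm]
  exact ll_split F E

theorem ll_union_le (E F : Finset ℕ) : ll (E ∪ F) ≤ ll E + ll F := by
  have h : ll (E ∪ F) + ll (E ∩ F) = ll E + ll F := by
    unfold ll
    exact sum_union_inter
  have := ll_nonneg (E ∩ F)
  linarith

theorem prod_div (c : ℝ) (U : Finset ℕ) : ∏ q ∈ U, c / (q : ℝ) = c ^ U.card / pd U := by
  rw [prod_div_distrib, prod_const, pd, Nat.cast_prod]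

theorem prod_union3 (c : ℝ) (E F : Finset ℕ) : ∏ q ∈ E ∪ F, c / (q : ℝ) =
    c ^ (E ∩ F).card / pd (E ∩ F) * (c ^ (E \ F).card / pd (E \ F)) *
      (c ^ (F \ E).card / pd (F \ E)) := by
  rw [← prod_div, ← prod_div, ← prod_div, prod_inter_mul_prod_sdiff, ← prod_union disjoint_sdiff,
    union_sdiff_self_eq_union]

theorem term_eq (a c : ℝ) (E F : Finset ℕ) :
    a ^ E.card * a ^ F.card * ∏ q ∈ E ∪ F, c / (q : ℝ) =
      (a ^ 2 * c) ^ (E ∩ F).card / pd (E ∩ F) * ((a * c) ^ (E \ F).card / pd (E \ F)) *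
        ((a * c) ^ (F \ E).card / pd (F \ E)) := by
  have h1 : E.card = (E ∩ F).card + (E \ F).card := (card_inter_add_card_sdiff E F).symm
  have h2 : F.card = (E ∩ F).card + (F \ E).card := by
    rw [inter_comm]
    exact (card_inter_add_card_sdiff F E).symm
  rw [prod_union3]
  generalize (E ∩ F).card = g at *
  generalize (E \ F).card = x at *
  generalize (F \ E).card = u at *
  rw [h1, h2]
  ring

theorem prod_le_exp {A U : Finset ℕ} (hA : ∀ q ∈ A, q.Prime) (hU : U ⊆ A) {θ : ℝ}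
    (h1 : θ ≤ 1) (hr : rc U ≤ 1) :
    ∏ q ∈ A \ U, (1 - θ / (q : ℝ)) ≤ Real.exp (1 - θ * rc A) := by
  have hs : rc (A \ U) + rc U = rc A := by
    unfold rc
    exact sum_sdiff hU
  calc ∏ q ∈ A \ U, (1 - θ / (q : ℝ)) ≤ ∏ q ∈ A \ U, Real.exp (-(θ * (1 / (q : ℝ)))) := by
        refine prod_le_prod (fun q hq => ?_) fun q _ => ?_
        · have : (1 : ℝ) ≤ q := by exact_mod_cast (hA q (sdiff_subset hq)).one_le
          rw [sub_nonneg, div_le_one (by linarith)]
          linarith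
        · have := Real.add_one_le_exp (-(θ * (1 / (q : ℝ))))
          rw [div_eq_mul_one_div]
          linarith
    _ = Real.exp (-(θ * rc (A \ U))) := by
        rw [← Real.exp_sum, rc, mul_sum, sum_neg_distrib]
    _ ≤ Real.exp (1 - θ * rc A) := by
        apply Real.exp_le_exp.2
        have := mul_le_one₀ h1 (rc_nonneg U) hr
        rw [← hs]
        nlinarith

theorem rw_eq {A T : Finset ℕ} (hT : T ⊆ A) (a y : ℝ) :
    Rw a y T = ∑ E ∈ A.powerset,
      if E ⊆ T then (if y ≤ ll E ∧ ll E ≤ y + 1 then w a T E else 0) else 0 := by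
  rw [← sum_filter, Rw]
  refine sum_congr ?_ fun _ _ => rfl
  ext E
  simp only [mem_powerset, mem_filter]
  exact ⟨fun h => ⟨h.trans hT, h⟩, fun h => h.2⟩

theorem sq_eq {A T : Finset ℕ} (hT : T ⊆ A) {a : ℝ} (ha : 0 ≤ a) (y : ℝ) :
    (1 + a) ^ T.card * Rw a y T ^ 2 = ∑ z ∈ A.powerset ×ˢ A.powerset,
      (if (y ≤ ll z.1 ∧ ll z.1 ≤ y + 1) ∧ y ≤ ll z.2 ∧ ll z.2 ≤ y + 1 then
        a ^ z.1.card * a ^ z.2.card else 0) *
        if z.1 ∪ z.2 ⊆ T then (1 / (1 + a)) ^ T.card else 0 := by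
  rw [rw_eq hT, sq, sum_mul_sum, sum_product, mul_sum]
  refine sum_congr rfl fun E _ => ?_
  rw [mul_sum]
  refine sum_congr rfl fun F _ => ?_
  have hp : (1 + a) ^ T.card ≠ 0 := by positivity
  simp only [union_subset_iff]
  by_cases h1 : E ⊆ T <;> by_cases h2 : F ⊆ T <;> by_cases h3 : (y ≤ ll E ∧ ll E ≤ y + 1) <;>
    by_cases h4 : (y ≤ ll F ∧ ll F ≤ y + 1) <;> simp [h1, h2, h3, h4, w]
  field_simp

end Exp

open Exp in
theorem expd : CondStmt → ExpStmt := by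
  intro hc A a y hA ha hU
  have hp : (0 : ℝ) < 1 + a := by linarith
  have hθ : 1 - 1 / (1 + a) = a / (1 + a) := by field_simp; ring
  have hθ0 : 0 ≤ a / (1 + a) := by positivity
  have hθ1 : a / (1 + a) ≤ 1 := by rw [div_le_one hp]; linarith
  have hα0 : 0 ≤ a ^ 2 / (1 + a) := by positivity
  refine le_trans (Ex_mono fun T hT => (sq_eq hT ha y).le) ?_
  rw [Ex_sum]
  refine le_trans ?_ (mul_le_mul_of_nonneg_left (pair_le A hα0 hθ0 y) (Real.exp_pos _).le)
  rw [mul_sum]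
  refine sum_le_sum ?_
  rintro ⟨E, F⟩ hEF
  simp only [mem_product, mem_powerset] at hEF
  have hsub : E ∪ F ⊆ A := union_subset hEF.1 hEF.2
  rw [Ex_mul, hc A _ _ hsub]
  simp only [tm, sp, ll_split, ll_split']
  split_ifs with h
  · have hr : rc (E ∪ F) ≤ 1 := by
      refine hU _ hsub ((ll_union_le E F).trans ?_)
      linarith [h.1.2, h.2.2]
    have h1 := prod_le_exp hA hsub hθ1 hr
    have h2 := term_eq a (1 / (1 + a)) E F
    rw [← div_eq_mul_one_div, ← div_eq_mul_one_div] at h2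
    rw [← mul_assoc, h2, hθ, mul_comm]
    exact mul_le_mul_of_nonneg_right h1 (by positivity)
  · simp

theorem sec : ExpStmt → TriStmt → SecStmt := by
  intro he ht a D ha
  have hp : (0 : ℝ) < 1 + a := by linarith
  obtain ⟨C, hC, hev⟩ := ht (a ^ 2 / (1 + a)) D (by rw [le_div_iff₀ hp]; nlinarith)
  refine ⟨Real.exp 1 * C, by positivity, ?_⟩
  filter_upwards [hev, eventually_ge_atTop (480 : ℝ)] with t h ht A y hN hy
  have hθ0 : 3 / 4 ≤ a / (1 + a) := by rw [le_div_iff₀ hp]; linarith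
  have hθ1 : a / (1 + a) ≤ 1 := by rw [div_le_one hp]; linarith
  have hA : ∀ q ∈ A, q.Prime := fun q hq => ((hN.1 q).1 hq).1
  have hexp : 2 * (t ^ 4 + 1) ≤ Real.exp t := by
    have h1 := Real.pow_div_factorial_le_exp t (by linarith) 5
    have h2 : ((Nat.factorial 5 : ℕ) : ℝ) = 120 := by norm_num [Nat.factorial]
    rw [h2] at h1
    have h3 : 1 ≤ t ^ 4 := one_le_pow₀ (by linarith)
    have h4 : t ^ 5 = t * t ^ 4 := by ring
    nlinarith
  have hU : ∀ U ⊆ A, ll U ≤ 2 * (y + 1) → rc U ≤ 1 := by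
    intro U hUA hl
    have h1 : rc U ≤ ll U / Real.exp t := by
      rw [rc, ll, sum_div]
      refine sum_le_sum fun q hq => ?_
      obtain ⟨hq1, hq2, -⟩ := (hN.1 q).1 (hUA hq)
      have hq0 : (0 : ℝ) < q := by exact_mod_cast hq1.pos
      have h2 : Real.exp t ≤ q := ((Real.lt_log_iff_exp_lt hq0).1 hq2).le
      rw [div_le_div_iff₀ hq0 (Real.exp_pos t)]
      nlinarith
    refine h1.trans ?_
    rw [div_le_one (Real.exp_pos t)]
    linarith
  refine (he A a y hA (by linarith) hU).trans ?_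
  refine (mul_le_mul_of_nonneg_left (h A _ y hN hθ0 hθ1 hy) (Real.exp_pos _).le).trans_eq ?_
  have h5 : Real.exp (1 - a / (1 + a) * rc A) *
      Real.exp ((a ^ 2 / (1 + a) + 2 * (a / (1 + a))) * rc A) =
      Real.exp 1 * Real.exp (a * rc A) := by
    rw [← Real.exp_add, ← Real.exp_add]
    congr 1
    field_simp
    ring
  calc _ = Real.exp (1 - a / (1 + a) * rc A) *
        Real.exp ((a ^ 2 / (1 + a) + 2 * (a / (1 + a))) * rc A) * C / t ^ 8 := by ring
    _ = _ := by rw [h5]; ring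

end Pool.Agent.MP_ca0a54_nt.SC.CT
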