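import Pool.Agent.MP_ca0a54_nt.SC.SpecT

/-! The expansion estimate: the shifts are admissible, and the total mass is large. -/

open Filter Finset

namespace Pool.Agent.MP_ca0a54_nt.SC.CT

namespace GoodA

open Classical in
theorem reindex {A : Finset ℕ} (hA : ∀ q ∈ A, q.Prime) (η Q P0 top : ℝ) (G : ℕ → ℕ → ℕ → ℝ) :
    ∑ e ∈ (A.powerset.filter fun E => P0 < Q / pd E ∧ 2 * (Q / pd E) ≤ top).image pd,
      ∑ p ∈ win η (Q / e), G e.primeFactors.card e p =
    ∑ E ∈ A.powerset, ∑ p ∈ PeC η Q P0 top E, G E.card (pd E) p := by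
  have h : ∀ E ∈ A.powerset, (pd E).primeFactors = E := fun E hE =>
    Nat.primeFactors_prod fun q hq => hA q (mem_powerset.1 hE hq)
  rw [sum_image fun E hE F hF e => by
    rw [← h E (mem_filter.1 hE).1, e, h F (mem_filter.1 hF).1], sum_filter]
  refine sum_congr rfl fun E hE => ?_
  rw [PeC, h E hE]
  split_ifs
  · rfl
  · rfl

theorem rich {η y : ℝ} (hη : 0 < η) (hy : 3 ≤ y) :
    η / 4 * ⌊y⌋₊ / Real.log ⌊y⌋₊ ≤ η * y / (2 * Real.log (2 * y)) := by
  have h1 : (⌊y⌋₊ : ℝ) ≤ y := Nat.floor_le (by linarith)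
  have h2 : y < ⌊y⌋₊ + 1 := Nat.lt_floor_add_one y
  have h3 : (3 : ℝ) ≤ ⌊y⌋₊ := by exact_mod_cast Nat.le_floor (n := 3) (by simpa using hy)
  generalize (⌊y⌋₊ : ℝ) = x at h1 h2 h3
  have h4 : 0 < Real.log (2 * y) := Real.log_pos (by linarith)
  have h5 : Real.log (2 * y) ≤ 2 * Real.log x := by
    have := Real.log_le_log (by linarith) (show 2 * y ≤ x ^ 2 by nlinarith)
    rwa [Real.log_pow, Nat.cast_ofNat] at this
  calc η / 4 * x / Real.log x = η * x / (2 * (2 * Real.log x)) := by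
        rw [div_mul_eq_mul_div, div_div]
        congr 1
        ring
    _ ≤ η * y / (2 * Real.log (2 * y)) := by gcongr

theorem mem_PeC {η u v Q : ℝ} (h0 : 0 < η) (h1 : η ≤ 1) {p : ℕ}
    (hp : p ∈ H78M.pr (u + 1) (v - 1)) {E : Finset ℕ} (hE : 0 < pd E) (h2 : Q / p < pd E)
    (h3 : (pd E : ℝ) ≤ (1 + η) * (Q / p)) : p ∈ PeC η Q (Real.exp u) (Real.exp v) E := by
  obtain ⟨p1, p2, p3⟩ := H78M.mem_pr.1 hp
  have e0 : (0 : ℝ) < pd E := by exact_mod_cast hE
  have p0 : (0 : ℝ) < p := by exact_mod_cast p1.pos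
  have k1 : Q / pd E < p := by
    rw [div_lt_iff₀ e0]
    rw [div_lt_iff₀ p0] at h2
    linarith
  have k2 : (p : ℝ) ≤ (1 + η) * (Q / pd E) := by
    rw [← mul_div_assoc, le_div_iff₀ e0]
    rw [← mul_div_assoc, le_div_iff₀ p0] at h3
    linarith
  have k3 : 0 < Q / pd E := (pos_iff_pos_of_mul_pos (p0.trans_le k2)).1 (by linarith)
  have k4 : (2 : ℝ) ≤ Real.exp 1 := by linarith [Real.add_one_le_exp (1 : ℝ)]
  have k5 : Real.exp u * Real.exp 1 < p := by
    rw [← Real.exp_add]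
    exact (Real.lt_log_iff_exp_lt p0).1 p2
  have k6 : p * Real.exp 1 ≤ Real.exp v := by
    have := (Real.log_le_iff_le_exp p0).1 p3
    rwa [Real.exp_sub, le_div_iff₀ (Real.exp_pos 1)] at this
  have k7 := Real.exp_pos u
  rw [PeC, if_pos ⟨by nlinarith, by nlinarith⟩]
  exact mem_win.2 ⟨p1, k1, k2⟩

end GoodA

theorem good : WinStmt → GoodStmt := by
  classical
  intro hW η h0 h1
  obtain ⟨y1, hy1⟩ := eventually_atTop.1 (hW η h0 h1)
  refine ⟨η / 4, by positivity, fun z => ⟨max y1 (max z 3), ?_⟩⟩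
  intro d Q P0 top hPe hP ha hA
  have hA' : ∀ q ∈ d.A, q.Prime := fun q hq => (hA q hq).1
  refine ⟨(d.A.powerset.filter fun E => P0 < Q / pd E ∧ 2 * (Q / pd E) ≤ top).image pd,
    fun e => win η (Q / e), fun e => d.a ^ e.primeFactors.card, ?_, ?_, fun r N f => ?_⟩
  · intro e he
    obtain ⟨E, hE, rfl⟩ := mem_image.1 he
    obtain ⟨hE, k1, k2⟩ := mem_filter.1 hE
    rw [mem_powerset] at hE
    have e1 : 0 < pd E := pd_pos fun q hq => (hA' q (hE hq)).one_le
    have e0 : (0 : ℝ) < pd E := by exact_mod_cast e1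
    have k3 := hP.trans k1.le
    simp only [max_le_iff] at k3
    obtain ⟨k3, k4, k5⟩ := k3
    have k6 : ∀ p ∈ win η (Q / pd E), (p : ℝ) ≤ 2 * (Q / pd E) := fun p hp =>
      (mem_win.1 hp).2.2.trans (by gcongr; linarith)
    refine ⟨by positivity, e1, ⟨⌊Q / pd E⌋₊, Nat.le_floor k4, fun p hp => ?_,
      (GoodA.rich h0 k5).trans (hy1 _ k3)⟩, fun p hp => ?_⟩
    · obtain ⟨p1, p2, -⟩ := mem_win.1 hp
      have a1 := Nat.lt_floor_add_one (Q / pd E)
      have a2 : 3 ≤ ⌊Q / pd E⌋₊ := Nat.le_floor (by simpa using k5)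
      have a3 : (p : ℝ) < 2 * (⌊Q / pd E⌋₊ + 1) := by linarith [k6 p hp]
      have a4 : p < 2 * (⌊Q / pd E⌋₊ + 1) := by exact_mod_cast a3
      exact ⟨p1, (Nat.floor_lt (by linarith)).2 p2, by omega⟩
    · obtain ⟨p1, p2, p3⟩ := mem_win.1 hp
      refine ⟨fun hd => ?_, ?_, ?_⟩
      · obtain ⟨q, hq, hpq⟩ := (Prime.dvd_finsetProd_iff p1.prime _).1 hd
        obtain rfl := (Nat.prime_dvd_prime_iff_eq p1 (hA' q (hE hq))).1 hpq
        linarith [(hA p (hE hq)).2, k6 p hp]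
      · rw [div_lt_iff₀ e0] at p2
        linarith
      · rw [← mul_div_assoc, le_div_iff₀ e0] at p3
        linarith
  · rw [massS, hPe]
    exact GoodA.reindex hA' η Q P0 top fun m e p => d.a ^ m / ((e : ℝ) * p)
  · rw [cenS, hPe]
    exact GoodA.reindex hA' η Q P0 top fun m e p => d.a ^ m * ∑ n ∈ range N,
      if e ∣ n then f n * f (n + r * e * p) * cp p n else 0

theorem massl : LowStmt → NiceStmt → BmStmt → MassStmt := by
  classical
  rintro hL ⟨D, -, hN⟩ hB η h0 h1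
  obtain ⟨c, hc, hL⟩ := hL (2 ^ 40 - 1) η D (by norm_num) h0 h1
  refine ⟨c, hc, fun C1 Λ hΛ => ?_⟩
  have ht : Tendsto tk atTop atTop := tendsto_pow_atTop_atTop_of_one_lt one_lt_two
  have hu : Tendsto (fun k => 40 * Real.log (tk k)) atTop atTop :=
    (Real.tendsto_log_atTop.comp ht).const_mul_atTop (by norm_num)
  filter_upwards [ht.eventually hL, ht.eventually hN, hu.eventually (hB Λ hΛ),
    ht.eventually_ge_atTop (80 * Λ)] with k k1 k2 k3 k4
  have hZ : 0 ≤ c * ZV k := by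
    unfold ZV
    positivity
  have k5 : Λ * (40 * Real.log (tk k)) ≤ tk k ^ 4 / 2 := by
    have a0 : 1 ≤ tk k := by linarith
    have a1 : Real.log (tk k) ≤ tk k := Real.log_le_self (by linarith)
    have a2 : tk k ^ 2 ≤ tk k ^ 4 := pow_le_pow_right₀ a0 (by norm_num)
    nlinarith
  calc c * (Real.log Λ - 1) * ZV k = (Real.log Λ - 1) * (c * ZV k) := by ring
    _ ≤ rc (H78M.pr (40 * Real.log (tk k) + 1) (Λ * (40 * Real.log (tk k)) - 1)) * (c * ZV k) :=
        mul_le_mul_of_nonneg_right k3.2 hZ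
    _ ≤ ∑ p ∈ H78M.pr (40 * Real.log (tk k) + 1) (Λ * (40 * Real.log (tk k)) - 1),
          ∑ E ∈ (H78M.pr (tk k) (tk k ^ 4 + 1)).powerset,
            if Real.exp (tk k ^ 4) / p < pd E ∧ (pd E : ℝ) ≤ (1 + η) * (Real.exp (tk k ^ 4) / p)
            then (2 ^ 40 - 1 : ℝ) ^ E.card / ((pd E : ℝ) * p) else 0 := by
        rw [rc, sum_mul]
        refine sum_le_sum fun p hp => ?_
        obtain ⟨p1, -, p3⟩ := H78M.mem_pr.1 hp
        have p0 : (1 : ℝ) ≤ p := by exact_mod_cast p1.one_le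
        have a1 : (p : ℝ) ≤ Real.exp (tk k ^ 4 / 2) :=
          (Real.log_le_iff_le_exp (by linarith)).1 (by linarith)
        have a2 := k1 _ (Real.exp (tk k ^ 4) / p) k2 (by
          rw [le_div_iff₀ (by linarith)]
          refine (mul_le_mul_of_nonneg_left a1 (Real.exp_pos _).le).trans_eq ?_
          rw [← Real.exp_add, add_halves])
          (div_le_self (Real.exp_pos _).le p0)
        rw [mul_div_assoc] at a2
        refine (mul_le_mul_of_nonneg_left a2 (by positivity)).trans_eq ?_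
        rw [mul_sum]
        refine sum_congr rfl fun E _ => ?_
        split_ifs
        · rw [mul_comm, mul_one_div, div_div]
        · exact mul_zero _
    _ ≤ massS (dat η C1 Λ k) := by
        rw [sum_comm]
        refine sum_le_sum fun E hE => ?_
        rw [← sum_filter]
        refine sum_le_sum_of_subset_of_nonneg (fun p hp => ?_) fun p _ _ => by positivity
        obtain ⟨hp, a1, a2⟩ := mem_filter.1 hp
        exact GoodA.mem_PeC h0 h1 hp
          (pd_pos fun q hq => (H78M.mem_pr.1 (mem_powerset.1 hE hq)).1.one_le) a1 a2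

end Pool.Agent.MP_ca0a54_nt.SC.CT
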