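import Pool.Agent.MP_ca0a54_nt.SC.SpecT

/-! The hypotheses on the chosen data, and the combined estimate. -/

open Filter Finset Topology

namespace Pool.Agent.MP_ca0a54_nt.SC.CT

namespace Hyp

theorem tk_top : Tendsto tk atTop atTop := tendsto_pow_atTop_atTop_of_one_lt one_lt_two

theorem ev_log (c : ℝ) (hc : 0 < c) : ∀ᶠ t : ℝ in atTop, c * Real.log t < t := by
  filter_upwards [Real.isLittleO_log_id_atTop.bound (c := 1 / (2 * c)) (by positivity),
    eventually_gt_atTop 0] with t h h0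
  rw [Real.norm_eq_abs, id, Real.norm_of_nonneg h0.le] at h
  have h1 := mul_le_mul_of_nonneg_left ((le_abs_self _).trans h) hc.le
  rw [show c * (1 / (2 * c) * t) = t / 2 by field_simp] at h1
  linarith

theorem ev_exp : ∀ᶠ t : ℝ in atTop, t ^ 4 ≤ Real.exp t := by
  filter_upwards [(Real.tendsto_exp_div_pow_atTop 4).eventually_ge_atTop 1,
    eventually_gt_atTop 0] with t h h0
  rwa [one_le_div (by positivity)] at h

theorem mem_PeC {η Q P0 top : ℝ} (hη : η ≤ 1) (h0 : 0 ≤ P0) {E : Finset ℕ} {p : ℕ}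
    (h : p ∈ PeC η Q P0 top E) :
    p.Prime ∧ P0 < Q / pd E ∧ Q / pd E < p ∧ (p : ℝ) ≤ 2 * (Q / pd E) ∧ 2 * (Q / pd E) ≤ top := by
  unfold PeC at h
  split_ifs at h with h1
  · obtain ⟨a1, a2, a3⟩ := mem_win.1 h
    exact ⟨a1, h1.1, a2, a3.trans (mul_le_mul_of_nonneg_right (by linarith) (by linarith [h1.1])),
      h1.2⟩
  · simp at h

theorem rc_le {E : Finset ℕ} {t : ℝ} (ht : 1 ≤ t) (h : ∀ q ∈ E, q.Prime ∧ t < Real.log q)
    (h1 : ll E ≤ Real.exp t) : rc E ≤ 1 := by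
  have a1 : (E.card : ℝ) ≤ ll E := by
    rw [card_eq_sum_ones, Nat.cast_sum]
    exact sum_le_sum fun q hq => by push_cast; linarith [(h q hq).2]
  have a2 : rc E ≤ E.card * (1 / Real.exp t) := by
    rw [← nsmul_eq_mul]
    refine sum_le_card_nsmul _ _ _ fun q hq => one_div_le_one_div_of_le (Real.exp_pos _) ?_
    exact ((Real.lt_log_iff_exp_lt (by exact_mod_cast (h q hq).1.pos)).1 (h q hq).2).le
  refine a2.trans ?_
  rw [mul_one_div, div_le_one (Real.exp_pos _)]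
  linarith

theorem zm_le (hc : CondStmt) (A : Finset ℕ) {a : ℝ} (ha : 0 ≤ a) :
    Zm A a ≤ Real.exp (a * rc A) := by
  have h := hc A ∅ (1 + a) (empty_subset _)
  simp only [empty_subset, if_true, prod_empty, one_mul, sdiff_empty] at h
  rw [Zm, h, rc, mul_sum, Real.exp_sum]
  refine prod_le_prod (fun q _ => ?_) fun q _ => ?_
  · have : 0 ≤ a / q := by positivity
    rw [show 1 - (1 + a) = -a by ring, neg_div]
    linarith
  · rw [show 1 - (1 + a) = -a by ring, neg_div, mul_one_div]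
    linarith [Real.add_one_le_exp (a / q)]

theorem two_pow (k : ℕ) : (2 : ℝ) ^ (4 * k + 1) = 2 * tk k ^ 4 := by
  rw [tk, ← pow_mul, pow_succ, mul_comm k 4, mul_comm]

theorem massS_nonneg (d : Dat) (ha : 0 ≤ d.a) : 0 ≤ massS d :=
  sum_nonneg fun _ _ => sum_nonneg fun _ _ => by positivity

theorem ev_len (r : ℕ) {δ : ℝ} (hδ : 0 < δ) : ∀ᶠ k : ℕ in atTop,
    2 * (r * (2 * Real.exp (tk k ^ 4))) / ((2 ^ 2 ^ (4 * k + 1) : ℕ) : ℝ) ≤ δ := by
  have h1 : Tendsto (fun k : ℕ => 2 ^ (4 * k)) atTop atTop :=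
    (tendsto_pow_atTop_atTop_of_one_lt one_lt_two).comp (tendsto_id.const_mul_atTop' (by norm_num))
  have h2 := ((tendsto_pow_atTop_nhds_zero_of_lt_one (r := (3 / 4 : ℝ)) (by norm_num)
    (by norm_num)).comp h1).const_mul (4 * r : ℝ)
  rw [mul_zero] at h2
  filter_upwards [h2.eventually_le_const hδ] with k hk
  refine le_trans ?_ hk
  have e1 : tk k ^ 4 = ((2 ^ (4 * k) : ℕ) : ℝ) * 1 := by
    rw [tk, ← pow_mul, mul_comm k 4, mul_one]
    push_cast
    rfl
  have e2 : ((2 ^ 2 ^ (4 * k + 1) : ℕ) : ℝ) = 4 ^ 2 ^ (4 * k) := by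
    rw [pow_succ', pow_mul]
    push_cast
    norm_num
  have e3 : Real.exp 1 ^ 2 ^ (4 * k) ≤ 3 ^ 2 ^ (4 * k) :=
    pow_le_pow_left₀ (Real.exp_pos _).le (by linarith [Real.exp_one_lt_d9]) _
  rw [e1, e2, Real.exp_nat_mul, Function.comp_apply, div_pow, ← mul_div_assoc]
  refine div_le_div_of_nonneg_right ?_ (by positivity)
  have : (0 : ℝ) ≤ r := by positivity
  nlinarith

end Hyp

open Hyp

theorem hyp : CondStmt → BmStmt → HypStmt := by
  intro hc hb r η C1 Λ hr hη hη1 hC hΛ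
  have hu : Tendsto (fun k => 40 * Real.log (tk k)) atTop atTop :=
    (Real.tendsto_log_atTop.comp tk_top).const_mul_atTop (by norm_num)
  filter_upwards [tk_top.eventually (ev_log (Λ * 40) (by positivity)), tk_top.eventually ev_exp,
    tk_top.eventually_ge_atTop 2, tk_top.eventually_ge_atTop r, hu.eventually (hb Λ hΛ)]
    with k h1 h2 h3 h4 h5
  rw [mul_assoc] at h1
  have t0 : 0 < tk k := by linarith
  have e40 : Real.exp (40 * Real.log (tk k)) = tk k ^ 40 := by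
    rw [show (40 : ℝ) = (40 : ℕ) by norm_num, Real.exp_nat_mul, Real.exp_log t0]
  have hA : ∀ q ∈ (dat η C1 Λ k).A, q.Prime ∧ tk k < Real.log q := fun q hq =>
    ⟨(H78M.mem_pr.1 hq).1, (H78M.mem_pr.1 hq).2.1⟩
  have hB : ∀ p ∈ (dat η C1 Λ k).B, p.Prime ∧ tk k ^ 40 < p ∧ Real.log p < tk k := fun p hp => by
    obtain ⟨a1, a2, a3⟩ := H78M.mem_pr.1 hp
    exact ⟨a1, e40 ▸ (Real.lt_log_iff_exp_lt (by exact_mod_cast a1.pos)).1 a2, a3.trans_lt h1⟩
  have p1 : tk k ^ 5 ≤ tk k ^ 40 := pow_le_pow_right₀ (by linarith) (by norm_num)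
  have p2 : tk k ≤ tk k ^ 40 := le_self_pow₀ (by linarith) (by norm_num)
  have p3 : 2 * tk k ^ 4 ≤ tk k ^ 5 := by
    rw [pow_succ' _ 4]
    exact mul_le_mul_of_nonneg_right h3 (by positivity)
  have ha : 0 ≤ (dat η C1 Λ k).a := by norm_num [dat]
  refine ⟨⟨fun q hq => (hA q hq).1, fun p hp => ⟨(hB p hp).1, ?_, fun h => ?_⟩, ha,
    fun E p hp => ?_, hr, ?_, ?_⟩, ⟨fun p hp => ?_, by omega, by positivity, le_rfl, ?_, ?_, h5.1⟩,
    fun p hp => ⟨(hB p hp).2.1, fun q hq => ?_⟩, fun q hq => ?_, fun E hE p hp => ?_, ?_⟩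
  · have : (r : ℝ) < p := by linarith [(hB p hp).2.1]
    exact_mod_cast this
  · linarith [(hA p h).2, (hB p hp).2.2]
  · obtain ⟨a1, a2, a3, a4, a5⟩ := mem_PeC hη1 (Real.exp_pos _).le hp
    have a6 : (0 : ℝ) < p := by exact_mod_cast a1.pos
    exact H78M.mem_pr.2 ⟨a1, (Real.lt_log_iff_exp_lt a6).2 (a2.trans a3),
      (Real.log_le_iff_le_exp a6).2 (a4.trans a5)⟩
  · show 0 < C1 / tk k ^ 4
    positivity
  · show 0 < C1 / (2 * tk k ^ 8)
    positivity
  · have : (2 : ℝ) ^ (4 * k + 1) ≤ p := by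
      rw [two_pow]
      linarith [(hB p hp).2.1]
    exact_mod_cast this
  · show 2 ^ (4 * k + 1) * (C1 / (2 * tk k ^ 8)) ≤ C1 / tk k ^ 4
    rw [two_pow]
    exact le_of_eq (by field_simp)
  · linarith [Real.log_nonneg (show 1 ≤ Λ by linarith)]
  · have := (Real.log_lt_log_iff (by exact_mod_cast (hB p hp).1.pos)
      (by exact_mod_cast (hA q hq).1.pos)).1 ((hB p hp).2.2.trans (hA q hq).2)
    exact_mod_cast this.le
  · exact (Real.lt_log_iff_exp_lt (by exact_mod_cast (hA q hq).1.pos)).1 (h1.trans (hA q hq).2)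
  · obtain ⟨-, a2, a3, a4, -⟩ := mem_PeC hη1 (Real.exp_pos _).le hp
    have b1 : ∀ q ∈ E, 1 ≤ q := fun q hq => (hA q (hE hq)).1.pos
    have b2 : (0 : ℝ) < pd E := by exact_mod_cast pd_pos b1
    rw [div_lt_iff₀' b2] at a3
    rw [← mul_div_assoc, le_div_iff₀' b2] at a4
    refine ⟨a3.le, a4, rc_le (by linarith) (fun q hq => hA q (hE hq)) (le_trans ?_ h2)⟩
    rw [← log_pd b1, Real.log_le_iff_le_exp b2, ← one_le_div b2]
    rw [e40] at a2
    linarith
  · rw [ZV, mul_div_cancel₀ _ (by positivity)]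
    exact zm_le hc _ ha

theorem est : SldStmt → RemStmt → HypStmt → BadEstStmt → EstStmt := by
  rintro hs hr hh ⟨C, hC, hb⟩
  refine ⟨4 * C, by positivity, fun r η C1 Λ δ h1 hη hη1 hC1 hΛ hδ => ?_⟩
  filter_upwards [hh r η C1 Λ h1 hη hη1 hC1 hΛ, hb η C1 Λ (δ / 8) hη hη1 hC1 hΛ (by positivity),
    ev_len r (half_pos hδ)] with k ⟨a1, a2, _, _, a5, a6⟩ a7 a8
  have t0 : 0 < tk k := by unfold tk; positivity
  have z0 : 0 < ZV k := by unfold ZV; positivity
  have m0 := massS_nonneg _ a1.2.2.1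
  filter_upwards [hs r _ _ _ _ (r * (2 * Real.exp (tk k ^ 4))) a1 a2 (fun E hE p hp => by
      rw [mul_assoc]
      exact mul_le_mul_of_nonneg_left (a5 E hE p hp).2.1 (by positivity)) (by positivity)
      (δ * ZV k / 4) (by positivity), hr r _ a1 (δ * ZV k / 4) (by positivity)] with N b1 b2 f hf
  have c1 := b1 f hf
  have c2 := b2 f hf
  have c3 : 32 * (dat η C1 Λ k).κ * √(Real.log Λ + 1) * Zm (dat η C1 Λ k).A (dat η C1 Λ k).a ≤
      32 * C1 * √(Real.log Λ + 1) * ZV k := by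
    refine (mul_le_mul_of_nonneg_left a6 (by have := a1.2.2.2.2.2.1; positivity)).trans
      (le_of_eq ?_)
    show 32 * (C1 / tk k ^ 4) * _ * _ = _
    field_simp
  have c4 := mul_le_mul_of_nonneg_right a8 m0
  have c5 := abs_add_le (cenS r (dat η C1 Λ k) N f - cenK r (dat η C1 Λ k) N f)
    (cenK r (dat η C1 Λ k) N f)
  rw [sub_add_cancel] at c5
  refine (c5.trans (add_le_add c2 c1)).trans ?_
  rw [← mul_add]
  refine mul_le_mul_of_nonneg_left ?_ (Nat.cast_nonneg N)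
  rw [mul_assoc 4 C, mul_div_assoc 4]
  linarith

end Pool.Agent.MP_ca0a54_nt.SC.CT
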