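import Pool.Agent.MP_ca0a54_nt.SC.SpecT

/-! Independence of residues, and the random model for the set of prime divisors. -/

open Finset

namespace Pool.Agent.MP_ca0a54_nt.SC.CT

namespace Ind

theorem shift {M : ℕ} {F : ℕ → ℝ} (hF : Function.Periodic F M) (k : ℕ) :
    ∑ n ∈ range M, F (n + k) = ∑ n ∈ range M, F n := by
  induction k with
  | zero => simp
  | succ k ih =>
    have h1 := sum_range_succ (fun n => F (n + k)) M
    have h2 := sum_range_succ' (fun n => F (n + k)) M
    have h3 : F (M + k) = F (0 + k) := by rw [zero_add, add_comm, hF]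
    have h4 : ∑ n ∈ range M, F (n + (k + 1)) = ∑ n ∈ range M, F (n + 1 + k) :=
      sum_congr rfl fun n _ => by rw [add_right_comm, add_assoc]
    rw [h4, ← ih]
    linarith

theorem count {D p : ℕ} (hc : p.Coprime D) (hp : 0 < p) (x : ℕ) :
    ∑ i ∈ range p, (if p ∣ x + i * D then (1 : ℝ) else 0) = 1 := by
  have inj : ∀ i < p, ∀ i' < p, (x + i * D) % p = (x + i' * D) % p → i = i' := by
    intro i hi i' hi' e
    have h1 : i * D ≡ i' * D [MOD p] := Nat.ModEq.add_left_cancel' x e
    exact Nat.ModEq.eq_of_lt_of_lt (Nat.ModEq.cancel_right_of_coprime hc h1) hi hi'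
  let φ : Fin p → Fin p := fun i => ⟨(x + i * D) % p, Nat.mod_lt _ hp⟩
  have hφ : Function.Injective φ := fun i i' e =>
    Fin.ext (inj i i.2 i' i'.2 (congrArg Fin.val e))
  obtain ⟨i, hi⟩ := Finite.surjective_of_injective hφ ⟨0, hp⟩
  have hi' : (x + i * D) % p = 0 := congrArg Fin.val hi
  rw [sum_eq_single_of_mem (i : ℕ) (mem_range.2 i.2)]
  · rw [if_pos (Nat.dvd_of_mod_eq_zero hi')]
  · intro b hb hne
    rw [if_neg]
    intro hd
    exact hne (inj b (mem_range.1 hb) i i.2 ((Nat.mod_eq_zero_of_dvd hd).trans hi'.symm))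

theorem Ex_insert {A : Finset ℕ} {q : ℕ} (hq : q ∉ A) (G : Finset ℕ → ℝ) :
    Ex (insert q A) G =
      1 / (q : ℝ) * Ex A (fun T => G (insert q T)) + (1 - 1 / (q : ℝ)) * Ex A G := by
  simp only [Ex]
  rw [sum_powerset_insert hq, add_comm, mul_sum, mul_sum]
  congr 1
  · refine sum_congr rfl fun T hT => ?_
    have hT' : q ∉ T := fun h => hq (mem_powerset.1 hT h)
    have e : insert q A \ insert q T = A \ T := by
      ext x
      simp only [mem_sdiff, mem_insert, not_or]
      constructor
      · rintro ⟨h | h, h1, h2⟩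
        · exact (h1 h).elim
        · exact ⟨h, h2⟩
      · rintro ⟨h1, h2⟩
        exact ⟨Or.inr h1, fun h => hq (h ▸ h1), h2⟩
    simp only [pb]
    rw [e, prod_insert hT']
    ring
  · refine sum_congr rfl fun T hT => ?_
    have hT' : q ∉ T := fun h => hq (mem_powerset.1 hT h)
    simp only [pb]
    rw [insert_sdiff_of_notMem _ hT', prod_insert fun h => hq (mem_sdiff.1 h).1]
    ring

theorem dv_insert {A : Finset ℕ} (q x : ℕ) :
    dv (insert q A) x = if q ∣ x then insert q (dv A x) else dv A x := by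
  simp only [dv, filter_insert]

end Ind

open Ind

theorem ind : IndStmt := by
  intro D p M j h hh hc hp hM
  have hD : Function.Periodic h M := by
    obtain ⟨c, rfl⟩ := (dvd_mul_right D p).trans hM
    simpa [mul_comm] using hh.nat_mul c
  have hpM : p ∣ M := (dvd_mul_left p D).trans hM
  have key : ∀ i : ℕ, ∑ n ∈ range M, h n * (if p ∣ n + j + i * D then 1 else 0) =
      ∑ n ∈ range M, h n * (if p ∣ n + j then 1 else 0) := by
    intro i
    have hF : Function.Periodic (fun n => h n * (if p ∣ n + j then (1 : ℝ) else 0)) M := by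
      intro n
      have : p ∣ n + M + j ↔ p ∣ n + j := by
        rw [add_right_comm]
        exact (Nat.dvd_add_left hpM)
      simp only [hD n, this]
    rw [← shift hF (i * D)]
    refine sum_congr rfl fun n _ => ?_
    have : h (n + i * D) = h n := by simpa using hh.nat_mul i n
    rw [this, add_right_comm]
  have h1 : ∑ i ∈ range p, ∑ n ∈ range M, h n * (if p ∣ n + j + i * D then 1 else 0) =
      ∑ n ∈ range M, h n := by
    rw [sum_comm]
    refine sum_congr rfl fun n _ => ?_
    rw [← mul_sum, count hc hp, mul_one]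
  simp only [key, sum_const, card_range, nsmul_eq_mul] at h1
  have hp' : (p : ℝ) ≠ 0 := by positivity
  rw [← h1]
  field_simp

theorem modl : IndStmt → ModStmt := by
  intro hI A G M j
  induction A using Finset.induction_on generalizing G with
  | empty => intro _ _; simp [dv, Ex, pb]
  | insert q A hq ih =>
    intro hA hM
    have hq' := hA q (mem_insert_self _ _)
    have hA' : ∀ r ∈ A, r.Prime := fun r hr => hA r (mem_insert_of_mem hr)
    have hM' : pd A * q ∣ M := by rwa [pd, prod_insert hq, mul_comm] at hM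
    have hc : q.Coprime (pd A) := Nat.Coprime.prod_right fun r hr =>
      (Nat.coprime_primes hq' (hA' r hr)).2 fun e => hq (e ▸ hr)
    have h0 := ih G hA' ((dvd_mul_right _ _).trans hM')
    have h1 := ih (fun T => G (insert q T)) hA' ((dvd_mul_right _ _).trans hM')
    have h2 := hI (pd A) q M j (fun n => G (insert q (dv A (n + j))) - G (dv A (n + j)))
      (fun n => by simp only [add_right_comm n (pd A) j, dv_add_pd]) hc hq'.pos hM'
    have h3 : ∑ n ∈ range M, G (dv (insert q A) (n + j)) =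
        ∑ n ∈ range M, (G (insert q (dv A (n + j))) - G (dv A (n + j))) *
          (if q ∣ n + j then 1 else 0) + ∑ n ∈ range M, G (dv A (n + j)) := by
      rw [← sum_add_distrib]
      refine sum_congr rfl fun n _ => ?_
      rw [dv_insert]
      split_ifs <;> ring
    rw [h3, h2, sum_sub_distrib, h0, h1, Ex_insert hq]
    ring

theorem cond : CondStmt := by
  intro A U c hU
  have h := Finset.prod_add (fun q : ℕ => c / (q : ℝ))
    (fun q : ℕ => if q ∈ U then (0 : ℝ) else 1 - 1 / (q : ℝ)) A
  have h1 : ∏ q ∈ A, (c / (q : ℝ) + if q ∈ U then (0 : ℝ) else 1 - 1 / (q : ℝ)) =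
      (∏ q ∈ U, c / (q : ℝ)) * ∏ q ∈ A \ U, (1 - (1 - c) / (q : ℝ)) := by
    rw [← prod_sdiff hU, mul_comm]
    congr 1
    · exact prod_congr rfl fun q hq => by rw [if_pos hq, add_zero]
    · exact prod_congr rfl fun q hq => by rw [if_neg (mem_sdiff.1 hq).2]; ring
  rw [← h1, h, Ex]
  refine sum_congr rfl fun T _ => ?_
  by_cases hT : U ⊆ T
  · have e1 : ∏ q ∈ T, c / (q : ℝ) = (∏ q ∈ T, 1 / (q : ℝ)) * c ^ T.card := by
      rw [← prod_const, ← prod_mul_distrib]
      exact prod_congr rfl fun q _ => by ring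
    have e2 : ∏ q ∈ A \ T, (if q ∈ U then (0 : ℝ) else 1 - 1 / (q : ℝ)) =
        ∏ q ∈ A \ T, (1 - 1 / (q : ℝ)) :=
      prod_congr rfl fun q hq => if_neg fun h => (mem_sdiff.1 hq).2 (hT h)
    rw [if_pos hT, e1, e2, pb]
    ring
  · obtain ⟨q, hq, hqT⟩ := not_subset.1 hT
    have e : ∏ q ∈ A \ T, (if q ∈ U then (0 : ℝ) else 1 - 1 / (q : ℝ)) = 0 :=
      prod_eq_zero (mem_sdiff.2 ⟨hU hq, hqT⟩) (if_pos hq)
    rw [if_neg hT, e, mul_zero, mul_zero]

end Pool.Agent.MP_ca0a54_nt.SC.CT
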