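import Pool.Agent.MP_ca0a54_nt.SC.SpecT

/-! The kernel of the graph: the trace estimate applied to the cut off edges. -/

open Filter Finset

namespace Pool.Agent.MP_ca0a54_nt.SC.CT

namespace KER

theorem one {J : Type*} [Fintype J] (g : J → ℝ) {c : ℝ} (hc : 0 ≤ c) (h1 : ∀ j, g j ≤ c)
    (h2 : ∀ j k, g j ≠ 0 → g k ≠ 0 → j = k) : ∑ j, g j ≤ c := by
  by_cases h : ∃ j, g j ≠ 0
  · obtain ⟨j, hj⟩ := h
    rw [sum_eq_single j (fun k _ hk => by_contra fun h0 => hk (h2 k j h0 hj)) (by simp)]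
    exact h1 j
  · push Not at h
    simp only [h, sum_const_zero, hc]

theorem bnd {J : Type*} [Fintype J] {A T : Finset ℕ} (hT : T ⊆ A) {a c : ℝ} (ha : 0 ≤ a)
    (hc : 0 ≤ c) (P : Finset ℕ → Prop) [DecidablePred P] (g : Finset ℕ → J → ℝ)
    (h1 : ∀ E ⊆ A, ∀ j, g E j ≤ c * w a T E)
    (h2 : ∀ E ⊆ A, ∀ j k, g E j ≠ 0 → g E k ≠ 0 → j = k)
    (h3 : ∀ E ⊆ A, ∀ j, g E j ≠ 0 → E ⊆ T ∧ P E) :
    ∑ j, ∑ E ∈ A.powerset, g E j ≤ c * ∑ E ∈ T.powerset, if P E then w a T E else 0 := by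
  rw [sum_comm, mul_sum]
  have hs : T.powerset ⊆ A.powerset := powerset_mono.2 hT
  rw [← sum_subset hs]
  · refine sum_le_sum fun E hE => ?_
    have hE' : E ⊆ A := mem_powerset.1 (hs hE)
    split_ifs with hP
    · exact one _ (mul_nonneg hc (w_nonneg ha _ _)) (h1 E hE') (h2 E hE')
    · rw [mul_zero]
      exact (sum_eq_zero fun j _ => by_contra fun h0 => hP (h3 E hE' j h0).2).le
  · intro E hE hE'
    exact sum_eq_zero fun j _ => by_contra fun h0 =>
      hE' (mem_powerset.2 (h3 E (mem_powerset.1 hE) j h0).1)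

/-- The two row estimates for an abstract family of edges. -/
theorem rows {J : Type*} [Fintype J] {d : Dat} {T : Finset ℕ} (hT : T ⊆ d.A) {c : ℝ}
    (ha : 0 ≤ d.a) (hκ : 0 < d.κ) (hκ' : 0 < d.κ') (hc : 0 ≤ c) {p : ℕ}
    (g : Finset ℕ → J → ℝ)
    (h1 : ∀ E ⊆ d.A, ∀ j, g E j ≤ c * w d.a T E)
    (h2 : ∀ E ⊆ d.A, ∀ j k, g E j ≠ 0 → g E k ≠ 0 → j = k)
    (h3 : ∀ E ⊆ d.A, ∀ j, g E j ≠ 0 → E ⊆ T ∧ p ∈ d.Pe E ∧ ok d T E p) :
    ∑ j, ∑ E ∈ d.A.powerset, g E j ≤ d.κ * c ∧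
      ∀ p' ∈ d.B, ∀ (Q : J → Prop) [DecidablePred Q],
        (∀ E F j k, g E j ≠ 0 → g F k ≠ 0 → Q j → Q k → pd E ≡ pd F [MOD p']) →
        ∑ j, (if Q j then ∑ E ∈ d.A.powerset, g E j else 0) ≤ d.κ' * c := by
  constructor
  · by_cases h : ∃ E ⊆ d.A, ∃ j, g E j ≠ 0
    · obtain ⟨E0, hE0, j0, h0⟩ := h
      refine (bnd hT ha hc (fun E => p ∈ d.Pe E) g h1 h2
        fun E hE j hj => ⟨(h3 E hE j hj).1, (h3 E hE j hj).2.1⟩).trans ?_
      rw [mul_comm]
      exact mul_le_mul_of_nonneg_right (h3 E0 hE0 j0 h0).2.2.1 hc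
    · push Not at h
      rw [sum_eq_zero fun j _ => sum_eq_zero fun E hE => h E (mem_powerset.1 hE) j]
      positivity
  · intro p' hp' Q _ hQ
    have e : ∀ j, (if Q j then ∑ E ∈ d.A.powerset, g E j else 0) =
        ∑ E ∈ d.A.powerset, if Q j then g E j else 0 := by
      intro j
      split_ifs <;> simp
    simp only [e]
    have nz : ∀ E j, (if Q j then g E j else 0) ≠ 0 → Q j ∧ g E j ≠ 0 := by
      intro E j h
      split_ifs at h with hq
      · exact ⟨hq, h⟩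
      · exact absurd rfl h
    by_cases h : ∃ E ⊆ d.A, ∃ j, (if Q j then g E j else 0) ≠ 0
    · obtain ⟨E0, hE0, j0, h0⟩ := h
      obtain ⟨hq0, h0⟩ := nz _ _ h0
      refine (bnd hT ha hc (fun F => d.t0 ≤ (T \ F).card ∧ pd F ≡ pd E0 [MOD p'])
        (fun E j => if Q j then g E j else 0) (fun E hE j => ?_)
        (fun E hE j k hj hk => h2 E hE j k (nz _ _ hj).2 (nz _ _ hk).2)
        fun E hE j hj => ?_).trans ?_
      · split_ifs
        · exact h1 E hE j
        · exact mul_nonneg hc (w_nonneg ha _ _)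
      · obtain ⟨hq, hj⟩ := nz _ _ hj
        exact ⟨(h3 E hE j hj).1, (h3 E hE j hj).2.2.2.1, hQ E E0 j j0 hj h0 hq hq0⟩
      · rw [mul_comm]
        exact mul_le_mul_of_nonneg_right ((h3 E0 hE0 j0 h0).2.2.2.2 p' hp') hc
    · push Not at h
      rw [sum_eq_zero fun j _ => sum_eq_zero fun E hE => h E (mem_powerset.1 hE) j]
      positivity

/-- The weight function of the Schur test. -/
noncomputable def ph (d : Dat) (x : ℕ) : ℝ := √(1 + d.a) ^ (dv d.A x).card

/-- One normalised edge from `x` to `y`. -/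
noncomputable def eg (r : ℕ) (d : Dat) (p : ℕ) (E : Finset ℕ) (x y : ℕ) : ℝ :=
  if p ∈ d.Pe E ∧ y = x + r * pd E * p ∧ pd E ∣ x then
    oi d (dv d.A x) E p * oi d (dv d.A y) E p * (d.a ^ E.card / (ph d x * ph d y)) else 0

/-- All the edges from `x` to `y`. -/
noncomputable def U (r : ℕ) (d : Dat) (p x y : ℕ) : ℝ := ∑ E ∈ d.A.powerset, eg r d p E x y

theorem ph_pos {d : Dat} (ha : 0 ≤ d.a) (x : ℕ) : 0 < ph d x := by
  unfold ph
  positivity

theorem ph_sq {d : Dat} (ha : 0 ≤ d.a) (x : ℕ) :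
    ph d x ^ 2 = (1 + d.a) ^ (dv d.A x).card := by
  rw [ph, ← pow_mul, mul_comm, pow_mul, Real.sq_sqrt (by positivity)]

theorem eg_nonneg {r : ℕ} {d : Dat} (ha : 0 ≤ d.a) (p : ℕ) (E : Finset ℕ) (x y : ℕ) :
    0 ≤ eg r d p E x y := by
  have h1 := oi_nonneg d (dv d.A x) E p
  have h2 := oi_nonneg d (dv d.A y) E p
  have h3 := ph_pos ha x
  have h4 := ph_pos ha y
  unfold eg
  split_ifs
  · positivity
  · exact le_rfl

theorem eg_le {r : ℕ} {d : Dat} (ha : 0 ≤ d.a) (p : ℕ) (E : Finset ℕ) (x y : ℕ) :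
    eg r d p E x y ≤ d.a ^ E.card / (ph d x * ph d y) := by
  have h1 := oi_nonneg d (dv d.A y) E p
  have h3 := ph_pos ha x
  have h4 := ph_pos ha y
  unfold eg
  split_ifs
  · exact mul_le_of_le_one_left (by positivity)
      (mul_le_one₀ (oi_le_one _ _ _ _) h1 (oi_le_one _ _ _ _))
  · positivity

theorem wt_eq {d : Dat} (ha : 0 ≤ d.a) (E : Finset ℕ) (x y : ℕ) :
    d.a ^ E.card / (ph d x * ph d y) * ph d y = ph d x * w d.a (dv d.A x) E := by
  have h3 := ph_pos ha x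
  have h4 := ph_pos ha y
  rw [w, ← ph_sq ha]
  field_simp

theorem ok_of {d : Dat} {T E : Finset ℕ} {p : ℕ} (h : oi d T E p ≠ 0) : ok d T E p := by
  unfold oi at h
  split_ifs at h with h1
  · exact h1
  · exact absurd rfl h

theorem eg_ne {r : ℕ} {d : Dat} {p : ℕ} {E : Finset ℕ} {x y : ℕ} (h : eg r d p E x y ≠ 0) :
    p ∈ d.Pe E ∧ y = x + r * pd E * p ∧ pd E ∣ x ∧ pd E ∣ y ∧ ok d (dv d.A x) E p ∧
      ok d (dv d.A y) E p := by
  unfold eg at h
  split_ifs at h with h1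
  · obtain ⟨h2, h3, h4⟩ := h1
    refine ⟨h2, h3, h4, ?_, ok_of (left_ne_zero_of_mul (left_ne_zero_of_mul h)),
      ok_of (right_ne_zero_of_mul (left_ne_zero_of_mul h))⟩
    rw [h3]
    exact dvd_add h4 ((dvd_mul_left _ _).mul_right _)
  · exact absurd rfl h

theorem U_dvd {r : ℕ} {d : Dat} {p x y : ℕ} (h : U r d p x y ≠ 0) : p ∣ x ↔ p ∣ y := by
  obtain ⟨E, -, hE⟩ := exists_ne_zero_of_sum_ne_zero h
  rw [(eg_ne hE).2.1]
  exact (Nat.dvd_add_left (dvd_mul_left _ _)).symm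

theorem ph_per (d : Dat) (x : ℕ) : ph d (x + pd d.A) = ph d x := by
  rw [ph, dv_add_pd, ph]

theorem U_per (r : ℕ) (d : Dat) (p x y : ℕ) :
    U r d p (x + pd d.A) (y + pd d.A) = U r d p x y := by
  refine sum_congr rfl fun E hE => ?_
  have h : pd E ∣ pd d.A := prod_dvd_prod_of_subset _ _ _ (mem_powerset.1 hE)
  simp only [eg, dv_add_pd, ph_per, Nat.dvd_add_left h]
  refine if_congr (and_congr_right fun _ => and_congr_left fun _ => ?_) rfl rfl
  omega

theorem cancel {r p p' e f : ℕ} (hr : 1 ≤ r) (hp : p.Prime) (hp' : p'.Prime) (hr' : r < p')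
    (hne : p' ≠ p) (h : r * e * p ≡ r * f * p [MOD p']) : e ≡ f [MOD p'] := by
  have h1 : p'.Coprime p := (Nat.coprime_primes hp' hp).2 hne
  have h2 : p'.Coprime r :=
    (Nat.Prime.coprime_iff_not_dvd hp').2 (Nat.not_dvd_of_pos_of_lt hr hr')
  exact (h.cancel_right_of_coprime h1).cancel_left_of_coprime h2

theorem fwd {r : ℕ} {d : Dat} (hb : d.Base r) {ℓ : ℕ} (n x : ℕ) {p : ℕ} (hp : p ∈ d.B) :
    ∑ j : Fin ℓ, U r d p x (n + j) * ph d (n + j) ≤ d.κ * ph d x ∧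
      ∀ p' ∈ d.B, p' ≠ p → ∑ j : Fin ℓ,
        (if p' ∣ n + j then U r d p x (n + j) * ph d (n + j) else 0) ≤ d.κ' * ph d x := by
  obtain ⟨hA, hB, ha, -, hr, hκ, hκ'⟩ := hb
  simp only [U, sum_mul]
  have H := rows (dv_subset d.A x) ha hκ hκ' (ph_pos ha x).le (p := p)
    (fun E (j : Fin ℓ) => eg r d p E x (n + j) * ph d (n + j))
    (fun E _ j => by
      rw [← wt_eq ha E x (n + j)]
      exact mul_le_mul_of_nonneg_right (eg_le ha _ _ _ _) (ph_pos ha _).le)
    (fun E _ j k hj hk => by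
      have h1 := (eg_ne (left_ne_zero_of_mul hj)).2.1
      have h2 := (eg_ne (left_ne_zero_of_mul hk)).2.1
      exact Fin.ext (by omega))
    (fun E hE j hj => by
      obtain ⟨h1, -, h2, -, h3, -⟩ := eg_ne (left_ne_zero_of_mul hj)
      exact ⟨(pd_dvd_iff hA hE x).1 h2, h1, h3⟩)
  refine ⟨H.1, fun p' hp' hne => H.2 p' hp' _ fun E F j k hj hk qj qk => ?_⟩
  rw [(eg_ne (left_ne_zero_of_mul hj)).2.1] at qj
  rw [(eg_ne (left_ne_zero_of_mul hk)).2.1] at qk
  refine cancel hr (hB p hp).1 (hB p' hp').1 (hB p' hp').2.1 hne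
    (Nat.ModEq.add_left_cancel' x ?_)
  exact ((Nat.modEq_zero_iff_dvd).2 qj).trans ((Nat.modEq_zero_iff_dvd).2 qk).symm

theorem bwd {r : ℕ} {d : Dat} (hb : d.Base r) {ℓ : ℕ} (n x : ℕ) {p : ℕ} (hp : p ∈ d.B) :
    ∑ j : Fin ℓ, U r d p (n + j) x * ph d (n + j) ≤ d.κ * ph d x ∧
      ∀ p' ∈ d.B, p' ≠ p → ∑ j : Fin ℓ,
        (if p' ∣ n + j then U r d p (n + j) x * ph d (n + j) else 0) ≤ d.κ' * ph d x := by
  obtain ⟨hA, hB, ha, -, hr, hκ, hκ'⟩ := hb
  simp only [U, sum_mul]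
  have H := rows (dv_subset d.A x) ha hκ hκ' (ph_pos ha x).le (p := p)
    (fun E (j : Fin ℓ) => eg r d p E (n + j) x * ph d (n + j))
    (fun E _ j => by
      rw [← wt_eq ha E x (n + j), mul_comm (ph d x)]
      exact mul_le_mul_of_nonneg_right (eg_le ha _ _ _ _) (ph_pos ha _).le)
    (fun E _ j k hj hk => by
      have h1 := (eg_ne (left_ne_zero_of_mul hj)).2.1
      have h2 := (eg_ne (left_ne_zero_of_mul hk)).2.1
      exact Fin.ext (by omega))
    (fun E hE j hj => by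
      obtain ⟨h1, -, -, h2, -, h3⟩ := eg_ne (left_ne_zero_of_mul hj)
      exact ⟨(pd_dvd_iff hA hE x).1 h2, h1, h3⟩)
  refine ⟨H.1, fun p' hp' hne => H.2 p' hp' _ fun E F j k hj hk qj qk => ?_⟩
  have h1 := (eg_ne (left_ne_zero_of_mul hj)).2.1
  have h2 := (eg_ne (left_ne_zero_of_mul hk)).2.1
  refine cancel hr (hB p hp).1 (hB p' hp').1 (hB p' hp').2.1 hne
    (Nat.ModEq.add_left_cancel (a := n + j) (b := n + k) ?_ ?_)
  · exact ((Nat.modEq_zero_iff_dvd).2 qj).trans ((Nat.modEq_zero_iff_dvd).2 qk).symm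
  · rw [← h1, ← h2]

theorem pick {r : ℕ} {d : Dat} (ha : 0 ≤ d.a) {ℓ : ℕ} (f : ℕ → ℝ) (E : Finset ℕ) (p n i : ℕ) :
    ∑ j : Fin ℓ, f (n + i) * ph d (n + i) * (f (n + j) * ph d (n + j)) *
        (eg r d p E (n + i) (n + j) * cp p (n + i)) =
      if p ∈ d.Pe E then (if i + r * pd E * p < ℓ then Gk r d f E p (n + i) else 0) else 0 := by
  have z : ∀ j : Fin ℓ, eg r d p E (n + i) (n + j) = 0 →
      f (n + i) * ph d (n + i) * (f (n + j) * ph d (n + j)) *
        (eg r d p E (n + i) (n + j) * cp p (n + i)) = 0 := fun j h => by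
    rw [h, zero_mul, mul_zero]
  split_ifs with h1 h2
  · rw [sum_eq_single (⟨i + r * pd E * p, h2⟩ : Fin ℓ)]
    · have h3 := (ph_pos ha (n + i)).ne'
      have h4 := (ph_pos ha (n + i + r * pd E * p)).ne'
      simp only [← add_assoc, eg, Gk, h1, true_and]
      split_ifs
      · field_simp
      · rw [zero_mul, mul_zero]
    · intro j _ hj
      refine z j (by_contra fun h0 => hj (Fin.ext ?_))
      have := (eg_ne h0).2.1
      simp only
      omega
    · simp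
  · refine sum_eq_zero fun j _ => z j (by_contra fun h0 => h2 ?_)
    have := (eg_ne h0).2.1
    have := j.2
    omega
  · exact sum_eq_zero fun j _ => z j (by_contra fun h0 => h1 (eg_ne h0).1)

theorem form {r : ℕ} {d : Dat} (hb : d.Base r) {ℓ : ℕ} (f : ℕ → ℝ) (n : ℕ) :
    ∑ i : Fin ℓ, ∑ j : Fin ℓ, f (n + i) * ph d (n + i) * (f (n + j) * ph d (n + j)) *
        ∑ p ∈ d.B, (U r d p (n + i) (n + j) + U r d p (n + j) (n + i)) * cp p (n + i) =
      2 * ∑ E ∈ d.A.powerset, ∑ p ∈ d.Pe E, ∑ i ∈ range ℓ,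
        if i + r * pd E * p < ℓ then Gk r d f E p (n + i) else 0 := by
  obtain ⟨-, -, ha, hP, -⟩ := hb
  have sw : ∀ p x y, U r d p y x * cp p x = U r d p y x * cp p y := by
    intro p x y
    by_cases h : U r d p y x = 0
    · rw [h, zero_mul, zero_mul]
    · simp only [cp, U_dvd h]
  have main : ∑ i : Fin ℓ, ∑ j : Fin ℓ, f (n + i) * ph d (n + i) * (f (n + j) * ph d (n + j)) *
      ∑ p ∈ d.B, U r d p (n + i) (n + j) * cp p (n + i) =
      ∑ E ∈ d.A.powerset, ∑ p ∈ d.Pe E, ∑ i ∈ range ℓ,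
        if i + r * pd E * p < ℓ then Gk r d f E p (n + i) else 0 := by
    calc _ = ∑ i : Fin ℓ, ∑ E ∈ d.A.powerset, ∑ p ∈ d.B, ∑ j : Fin ℓ,
          f (n + i) * ph d (n + i) * (f (n + j) * ph d (n + j)) *
            (eg r d p E (n + i) (n + j) * cp p (n + i)) := by
          refine sum_congr rfl fun i _ => ?_
          simp only [U, sum_mul, mul_sum]
          rw [sum_comm, sum_comm (s := d.A.powerset)]
          exact sum_congr rfl fun p _ => sum_comm
      _ = ∑ E ∈ d.A.powerset, ∑ i : Fin ℓ, ∑ p ∈ d.Pe E,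
          if i + r * pd E * p < ℓ then Gk r d f E p (n + i) else 0 := by
          rw [sum_comm]
          refine sum_congr rfl fun E _ => sum_congr rfl fun i _ => ?_
          simp only [pick ha]
          rw [sum_ite_mem, inter_eq_right.2 (hP E)]
      _ = _ := by
          refine sum_congr rfl fun E _ => ?_
          rw [sum_comm]
          refine sum_congr rfl fun p _ => ?_
          exact Fin.sum_univ_eq_sum_range
            (fun i => if i + r * pd E * p < ℓ then Gk r d f E p (n + i) else 0) ℓ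
  rw [two_mul]
  simp only [add_mul, sum_add_distrib, mul_add]
  rw [main]
  congr 1
  rw [← main, sum_comm]
  refine sum_congr rfl fun i _ => sum_congr rfl fun j _ => ?_
  rw [mul_comm (f (n + j) * ph d (n + j))]
  congr 1
  exact sum_congr rfl fun p _ => sw p _ _

end KER

open KER in
theorem ker (tr : TrStmt) : KerStmt := by
  intro r d ℓ s L hb hl
  obtain ⟨l1, l2, -, l3, l4, l5, l6⟩ := hl
  have hb' := hb
  obtain ⟨hA, hB, ha, -, -, hκ, hκ'⟩ := hb'
  have hU : ∀ p x y, 0 ≤ U r d p x y := fun p x y =>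
    sum_nonneg fun E _ => eg_nonneg ha p E x y
  obtain ⟨Ψ, h1, h2, h3⟩ := tr ℓ s (pd d.A) d.B
    (fun n p i j => U r d p (n + i) (n + j) + U r d p (n + j) (n + i))
    (fun n i => ph d (n + i)) (2 * d.κ) (2 * d.κ') L
    (fun p hp => ⟨(hB p hp).1, Nat.Coprime.prod_right fun q hq =>
      (Nat.coprime_primes (hB p hp).1 (hA q hq)).2 fun h => (hB p hp).2.2 (h ▸ hq), l1 p hp⟩)
    l2 l3 (by positivity) (by positivity) (by linarith) l5 l6 (fun n i => ph_pos ha _)
    (fun n => by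
      funext i
      simp only [add_right_comm n (pd d.A), ph_per])
    (fun n => by
      funext p i j
      simp only [add_right_comm n (pd d.A), U_per])
    (fun n p i j => add_nonneg (hU _ _ _) (hU _ _ _)) (fun n p i j => add_comm _ _)
    (fun n p i j h => by
      by_cases h0 : U r d p (n + i) (n + j) = 0
      · rw [h0, zero_add] at h
        exact (U_dvd h).symm
      · exact U_dvd h0)
    (fun n p hp i => by
      have h1 := (fwd hb (ℓ := ℓ) n (n + i) hp).1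
      have h2 := (bwd hb (ℓ := ℓ) n (n + i) hp).1
      simp only [add_mul, sum_add_distrib]
      linarith)
    (fun n p hp p' hp' hne i => by
      have h1 := (fwd hb (ℓ := ℓ) n (n + i) hp).2 p' hp' hne
      have h2 := (bwd hb (ℓ := ℓ) n (n + i) hp).2 p' hp' hne
      simp only [add_mul, ite_add_zero, sum_add_distrib]
      linarith)
  refine ⟨Ψ, h1, h2.trans_eq ?_, fun n f hf => ?_⟩
  · congr 1
    · ring
    · refine sum_congr rfl fun n _ => ?_
      simp only [ph_sq ha]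
      exact Fin.sum_univ_eq_sum_range (fun i => (1 + d.a) ^ (dv d.A (n + i)).card) ℓ
  · rw [← form hb f n]
    refine h3 n (fun i => f (n + i) * ph d (n + i)) fun i => ?_
    rw [abs_mul, abs_of_pos (ph_pos ha _)]
    exact mul_le_of_le_one_left (ph_pos ha _).le (hf _)

end Pool.Agent.MP_ca0a54_nt.SC.CT
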