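import Pool.Agent.MP_ca0a54_nt.SC.SpecT

/-! The local bound for windows of products, and thin residue classes. -/

open Filter Finset

namespace Pool.Agent.MP_ca0a54_nt.SC.CT

namespace Loc

theorem log_le_ll {E : Finset ℕ} {q : ℕ} (h : q ∈ E) : Real.log q ≤ ll E :=
  single_le_sum (f := fun q : ℕ => Real.log q) (fun q _ => Real.log_natCast_nonneg q) h

theorem sum_pow (A : Finset ℕ) {β : ℝ} (hβ : 0 ≤ β) :
    ∑ E ∈ A.powerset, β ^ E.card / pd E ≤ Real.exp (β * rc A) := by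
  have h := Finset.prod_one_add (s := A) (f := fun q : ℕ => β / (q : ℝ))
  have e : ∀ E : Finset ℕ, ∏ q ∈ E, β / (q : ℝ) = β ^ E.card / pd E := fun E => by
    rw [prod_div_distrib, prod_const, pd, Nat.cast_prod]
  simp only [e] at h
  rw [← h, rc, mul_sum, Real.exp_sum]
  refine prod_le_prod (fun q _ => by positivity) fun q _ => ?_
  rw [mul_one_div, add_comm]
  exact Real.add_one_le_exp _

/-- Removing one element of a subset. -/
theorem remove (A : Finset ℕ) (Φ : Finset ℕ → ℕ → ℝ) (h : ∀ E q, 0 ≤ Φ E q) :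
    ∑ E ∈ A.powerset, ∑ q ∈ E, Φ (E.erase q) q ≤ ∑ E ∈ A.powerset, ∑ q ∈ A, Φ E q := by
  rw [sum_sigma', sum_sigma',
    ← sum_image (s := A.powerset.sigma fun E => E)
      (g := fun x : (_ : Finset ℕ) × ℕ => (⟨x.1.erase x.2, x.2⟩ : (_ : Finset ℕ) × ℕ))
      (f := fun x : (_ : Finset ℕ) × ℕ => Φ x.1 x.2)]
  · refine sum_le_sum_of_subset_of_nonneg (fun x hx => ?_) fun x _ _ => h _ _
    obtain ⟨y, hy, rfl⟩ := mem_image.1 hx
    rw [mem_sigma, mem_powerset] at hy ⊢
    exact ⟨(erase_subset _ _).trans hy.1, hy.1 hy.2⟩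
  · rintro ⟨E, q⟩ hx ⟨F, r⟩ hy e
    simp only [coe_sigma, Set.mem_sigma_iff, mem_coe] at hx hy
    simp only [Sigma.mk.injEq, heq_eq_eq] at e ⊢
    obtain ⟨e, rfl⟩ := e
    exact ⟨by rw [← insert_erase hx.2, e, insert_erase hy.2], rfl⟩

end Loc

open Loc

theorem loc : LocStmt := by
  intro A β D y z hA hβ hyz hC
  obtain ⟨A', hA'⟩ : ∃ A', A' = A.filter fun q : ℕ => Real.log q ≤ z := ⟨_, rfl⟩
  have hs : A' ⊆ A := hA' ▸ filter_subset _ _
  have hD : 0 ≤ D := by
    have := hC 0 0 le_rfl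
    have h0 := sum_nonneg (s := A.filter fun q : ℕ => 0 ≤ Real.log q ∧ Real.log q ≤ 0)
      (f := fun q : ℕ => Real.log q / q) fun q _ =>
        div_nonneg (Real.log_natCast_nonneg q) (Nat.cast_nonneg q)
    linarith
  obtain ⟨Φ, hΦ⟩ : ∃ Φ : Finset ℕ → ℕ → ℝ, ∀ E q, Φ E q = β * (β ^ E.card / pd E) *
      if y - ll E ≤ Real.log q ∧ Real.log q ≤ z - ll E then Real.log q / q else 0 :=
    ⟨fun E q => _, fun _ _ => rfl⟩
  have h0 : ∀ E q, 0 ≤ Φ E q := fun E q => by
    have := Real.log_natCast_nonneg q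
    rw [hΦ]
    split_ifs <;> positivity
  have h1 : Fw A β y z = Fw A' β y z := by
    refine (sum_subset (powerset_mono.2 hs) fun E hE hE' => if_neg fun h => hE' ?_).symm
    rw [mem_powerset] at hE ⊢
    exact fun q hq => hA' ▸ mem_filter.2 ⟨hE hq, (log_le_ll hq).trans h.2⟩
  have h2 : y * Fw A' β y z ≤ ∑ E ∈ A'.powerset, ∑ q ∈ E, Φ (E.erase q) q := by
    rw [Fw, mul_sum]
    refine sum_le_sum fun E hE => ?_
    split_ifs with h
    · refine (mul_le_mul_of_nonneg_right h.1 (by positivity)).trans (le_of_eq ?_)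
      rw [ll, sum_mul]
      refine sum_congr rfl fun q hq => ?_
      have e1 : ll E = Real.log q + ll (E.erase q) := (add_sum_erase E _ hq).symm
      have e2 : pd E = q * pd (E.erase q) := (mul_prod_erase E (fun q => q) hq).symm
      rw [hΦ, if_pos ⟨by linarith [h.1], by linarith [h.2]⟩, e2, ← card_erase_add_one hq]
      push_cast
      ring
    · rw [mul_zero]
      exact sum_nonneg fun q _ => h0 _ _
  rw [h1, ← hA']
  refine h2.trans ((remove A' Φ h0).trans ?_)
  refine le_trans ?_ (mul_le_mul_of_nonneg_left (sum_pow A' hβ)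
    (mul_nonneg hβ (by linarith : 0 ≤ z - y + D)))
  rw [mul_sum]
  refine sum_le_sum fun E _ => ?_
  refine (sum_le_sum_of_subset_of_nonneg hs fun q _ _ => h0 E q).trans ?_
  have h3 := hC (y - ll E) (z - ll E) (by linarith)
  rw [sum_filter] at h3
  simp only [hΦ, ← mul_sum]
  rw [mul_right_comm]
  refine mul_le_mul_of_nonneg_right (mul_le_mul_of_nonneg_left (by linarith) hβ) (by positivity)

theorem del : DelStmt := by
  intro A p z hp hz hA u v hu
  obtain ⟨S, hS⟩ : ∃ S, S = A.filter fun q => u * q ≡ v [MOD p] := ⟨_, rfl⟩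
  have hp0 : (0 : ℝ) < p := by exact_mod_cast hp.pos
  have hinj : Set.InjOn (fun q => q / p) S := by
    intro q hq r hr e
    rw [hS, mem_coe, mem_filter] at hq hr
    have h1 : q ≡ r [MOD p] := Nat.ModEq.cancel_left_of_coprime
      ((Nat.Prime.coprime_iff_not_dvd hp).2 hu) (hq.2.trans hr.2.symm)
    rw [← Nat.div_add_mod q p, ← Nat.div_add_mod r p, show q / p = r / p from e, h1]
  have hN : 1 ≤ ⌊Real.exp z⌋₊ := Nat.le_floor (by simpa using hz)
  have hsub : S.image (fun q => q / p) ⊆ Icc 1 ⌊Real.exp z⌋₊ := by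
    intro j hj
    obtain ⟨q, hq, rfl⟩ := mem_image.1 hj
    rw [hS, mem_filter] at hq
    obtain ⟨h1, h2⟩ := hA q hq.1
    refine mem_Icc.2 ⟨Nat.div_pos h1 hp.pos, (Nat.div_le_self _ _).trans (Nat.le_floor ?_)⟩
    exact (Real.log_le_iff_le_exp (by exact_mod_cast hp.pos.trans_le h1)).1 h2
  have h1 : rc S ≤ (∑ j ∈ S.image fun q => q / p, ((j : ℕ) : ℝ)⁻¹) / p := by
    rw [sum_image hinj, rc, sum_div]
    refine sum_le_sum fun q hq => ?_
    rw [hS, mem_filter] at hq
    have h2 : (0 : ℝ) < (q / p : ℕ) := by exact_mod_cast Nat.div_pos (hA q hq.1).1 hp.pos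
    rw [inv_eq_one_div, div_div]
    exact one_div_le_one_div_of_le (by positivity) (by exact_mod_cast Nat.div_mul_le_self q p)
  have h2 : ∑ j ∈ Icc 1 ⌊Real.exp z⌋₊, ((j : ℕ) : ℝ)⁻¹ ≤ 1 + z := by
    have h3 := harmonic_le_one_add_log ⌊Real.exp z⌋₊
    rw [harmonic_eq_sum_Icc] at h3
    push_cast at h3
    refine h3.trans (add_le_add le_rfl ?_)
    exact (Real.log_le_iff_le_exp (by exact_mod_cast hN)).2 (Nat.floor_le (Real.exp_pos z).le)
  rw [← hS]
  exact h1.trans (div_le_div_of_nonneg_right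
    ((sum_le_sum_of_subset_of_nonneg hsub fun _ _ _ => by positivity).trans h2) hp0.le)

end Pool.Agent.MP_ca0a54_nt.SC.CT
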