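import Pool.Agent.MP_ca0a54_nt.SC.SpecT

/-! Row LOW: a lower bound for the weight of the products in a short window. -/

open Filter Finset

namespace Pool.Agent.MP_ca0a54_nt.SC.CT

namespace Low

theorem markov (S : Finset ℕ) (x l : ℕ → ℝ) (hx : ∀ q, 0 ≤ x q) (hl : ∀ q, 0 ≤ l q) :
    ∑ F ∈ S.powerset, (∑ q ∈ F, l q) * ∏ q ∈ F, x q ≤
      (∑ q ∈ S, l q * x q) * ∏ q ∈ S, (1 + x q) := by
  induction S using Finset.induction_on with
  | empty => simp
  | insert q S hq ih =>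
    rw [sum_powerset_insert hq, sum_insert hq, prod_insert hq]
    have e : ∑ F ∈ S.powerset, (∑ p ∈ insert q F, l p) * ∏ p ∈ insert q F, x p =
        l q * x q * ∏ p ∈ S, (1 + x p) +
          x q * ∑ F ∈ S.powerset, (∑ p ∈ F, l p) * ∏ p ∈ F, x p := by
      rw [prod_one_add, mul_sum, mul_sum, ← sum_add_distrib]
      refine sum_congr rfl fun F hF => ?_
      have : q ∉ F := fun h => hq (mem_powerset.1 hF h)
      rw [sum_insert this, prod_insert this]
      ring
    have hP : 0 ≤ ∏ p ∈ S, (1 + x p) := prod_nonneg fun p _ => by linarith [hx p]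
    have h1 := mul_le_mul_of_nonneg_left ih (hx q)
    have h2 := mul_nonneg (mul_nonneg (mul_nonneg (hl q) (hx q)) (hx q)) hP
    rw [e]
    nlinarith

theorem wt_eq (a : ℝ) (F : Finset ℕ) : a ^ F.card / pd F = ∏ q ∈ F, a / (q : ℝ) := by
  simp [pd, prod_div_distrib]

theorem half (S : Finset ℕ) {a W : ℝ} (ha : 0 ≤ a) (hW : 0 < W)
    (h : a * ∑ q ∈ S, Real.log q / q ≤ W / 2) :
    (∏ q ∈ S, (1 + a / (q : ℝ))) / 2 ≤
      ∑ F ∈ S.powerset.filter (fun F => ll F ≤ W), a ^ F.card / pd F := by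
  have hx : ∀ q : ℕ, 0 ≤ a / (q : ℝ) := fun q => by positivity
  have h1 := markov S (fun q => a / (q : ℝ)) (fun q => Real.log q) hx Real.log_natCast_nonneg
  have hP : 0 ≤ ∏ q ∈ S, (1 + a / (q : ℝ)) := prod_nonneg fun p _ => by linarith [hx p]
  have h2 : ∑ q ∈ S, Real.log q * (a / (q : ℝ)) ≤ W / 2 := by
    refine le_of_eq_of_le ?_ h
    rw [mul_sum]
    exact sum_congr rfl fun q _ => by ring
  have h3 : W * ∑ F ∈ S.powerset.filter (fun F => ¬ ll F ≤ W), ∏ q ∈ F, a / (q : ℝ) ≤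
      ∑ F ∈ S.powerset, (∑ q ∈ F, Real.log q) * ∏ q ∈ F, a / (q : ℝ) := by
    rw [mul_sum]
    refine (sum_le_sum fun F hF => ?_).trans (sum_le_sum_of_subset_of_nonneg
      (filter_subset (fun F => ¬ ll F ≤ W) _) fun F _ _ =>
        mul_nonneg (ll_nonneg F) (prod_nonneg fun q _ => hx q))
    exact mul_le_mul_of_nonneg_right (not_le.1 (mem_filter.1 hF).2).le
      (prod_nonneg fun q _ => hx q)
  have h4 := sum_filter_add_sum_filter_not S.powerset (fun F => ll F ≤ W)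
    fun F => ∏ q ∈ F, a / (q : ℝ)
  rw [← prod_one_add] at h4
  have h5 := (h3.trans h1).trans (mul_le_mul_of_nonneg_right h2 hP)
  simp only [wt_eq]
  have h6 : ∑ F ∈ S.powerset.filter (fun F => ¬ ll F ≤ W), ∏ q ∈ F, a / (q : ℝ) ≤
      (∏ q ∈ S, (1 + a / (q : ℝ))) / 2 := le_of_mul_le_mul_left (by linarith) hW
  linarith

theorem exp_le {x : ℝ} (hx : 0 ≤ x) : Real.exp (x - x ^ 2) ≤ 1 + x := by
  have h1 := Real.add_one_le_exp (-(x - x ^ 2))
  have h2 : Real.exp (x - x ^ 2) * Real.exp (-(x - x ^ 2)) = 1 := by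
    rw [← Real.exp_add]; simp
  have h3 : 0 < -(x - x ^ 2) + 1 := by nlinarith
  have h4 := mul_le_mul_of_nonneg_left h1 (Real.exp_pos (x - x ^ 2)).le
  refine le_of_mul_le_mul_right ?_ h3
  nlinarith [pow_nonneg hx 3]

theorem prod_low (S : Finset ℕ) {a ε : ℝ} (ha : 0 ≤ a) (h : ∀ q ∈ S, 1 / (q : ℝ) ≤ ε) :
    Real.exp (a * rc S - a ^ 2 * (ε * rc S)) ≤ ∏ q ∈ S, (1 + a / (q : ℝ)) := by
  have e : a * rc S - a ^ 2 * (ε * rc S) =
      ∑ q ∈ S, (a * (1 / (q : ℝ)) - a ^ 2 * (ε * (1 / (q : ℝ)))) := by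
    simp only [rc, mul_sum, sum_sub_distrib]
  rw [e, Real.exp_sum]
  refine prod_le_prod (fun q _ => (Real.exp_pos _).le) fun q hq => ?_
  refine le_trans (Real.exp_le_exp.2 ?_) (exp_le (by positivity))
  have h0 : (0 : ℝ) ≤ 1 / (q : ℝ) := by positivity
  have h1 := mul_le_mul_of_nonneg_left (mul_le_mul_of_nonneg_right (h q hq) h0) (sq_nonneg a)
  rw [div_eq_mul_one_div a]
  nlinarith

theorem winsum {η y V : ℝ} (h0 : 0 < η) (h1 : η ≤ 1) (hy : 1 ≤ y) (hV : 1 ≤ V)
    (hyV : y ≤ Real.exp V) (h : η * y / (2 * Real.log (2 * y)) ≤ (win η y).card) :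
    η / (8 * V) ≤ ∑ q ∈ win η y, 1 / (q : ℝ) := by
  have hy0 : 0 < y := by linarith
  have l1 : 0 < Real.log (2 * y) := Real.log_pos (by linarith)
  have l2 : Real.log (2 * y) ≤ 2 * V := by
    rw [Real.log_mul two_ne_zero hy0.ne']
    have := (Real.log_le_iff_le_exp hy0).2 hyV
    have := Real.log_le_sub_one_of_pos two_pos
    linarith
  have h2 : ((win η y).card : ℝ) * (1 / (2 * y)) ≤ ∑ q ∈ win η y, 1 / (q : ℝ) := by
    rw [← nsmul_eq_mul]
    refine card_nsmul_le_sum _ _ _ fun q hq => ?_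
    obtain ⟨-, a, b⟩ := mem_win.1 hq
    exact one_div_le_one_div_of_le (by linarith) (by nlinarith)
  refine le_trans ?_ ((mul_le_mul_of_nonneg_right h (by positivity)).trans h2)
  have e : η * y / (2 * Real.log (2 * y)) * (1 / (2 * y)) = η / (4 * Real.log (2 * y)) := by
    field_simp
    ring
  rw [e]
  exact div_le_div_of_nonneg_left h0.le (by positivity) (by linarith)

theorem pairs (A : Finset ℕ) {a η Y z : ℝ} (ha : 0 ≤ a) (hA : ∀ q ∈ A, 1 ≤ q)
    (P : Finset (Finset ℕ)) (hP : ∀ F ∈ P, F ⊆ A ∧ ∀ q ∈ F, Real.log q ≤ z)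
    (hq : ∀ F ∈ P, ∀ q ∈ win η (Y / pd F), q ∈ A ∧ z < Real.log q) :
    ∑ F ∈ P, a ^ F.card / pd F * (a * ∑ q ∈ win η (Y / pd F), 1 / (q : ℝ)) ≤
      ∑ E ∈ A.powerset,
        if Y < pd E ∧ (pd E : ℝ) ≤ (1 + η) * Y then a ^ E.card / pd E else 0 := by
  have hn : ∀ F ∈ P, ∀ F' ∈ P, ∀ q ∈ win η (Y / pd F), q ∉ F' := fun F hF F' hF' q h c =>
    absurd ((hP F' hF').2 q c) (not_le.2 (hq F hF q h).2)
  have hi : Set.InjOn (fun x : Σ _ : Finset ℕ, ℕ => insert x.2 x.1)
      (P.sigma fun F => win η (Y / pd F) : Finset _) := by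
    rintro ⟨F, q⟩ h ⟨F', q'⟩ h' e
    obtain ⟨h1, h2⟩ := mem_sigma.1 (mem_coe.1 h)
    obtain ⟨h1', h2'⟩ := mem_sigma.1 (mem_coe.1 h')
    simp only at e h1 h2 h1' h2'
    have : q ∈ insert q' F' := e ▸ mem_insert_self q F
    obtain rfl : q = q' := (mem_insert.1 this).resolve_right (hn F h1 F' h1' q h2)
    obtain rfl : F = F' := by
      rw [← erase_insert (hn F h1 F h1 q h2), e, erase_insert (hn F h1 F' h1' q h2)]
    rfl
  refine le_trans (le_of_eq ?_) (sum_le_sum_of_subset_of_nonneg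
    (s := (P.sigma fun F => win η (Y / pd F)).image fun x => insert x.2 x.1) ?_ fun E _ _ => ?_)
  · rw [sum_image hi, sum_sigma]
    refine sum_congr rfl fun F hF => ?_
    rw [mul_sum, mul_sum]
    refine sum_congr rfl fun q h => ?_
    have hF0 : (0 : ℝ) < pd F := Nat.cast_pos.2 (pd_pos fun p hp => hA p ((hP F hF).1 hp))
    have e : (pd (insert q F) : ℝ) = q * pd F := by
      rw [pd, prod_insert (hn F hF F hF q h), Nat.cast_mul, pd]
    obtain ⟨-, h1, h2⟩ := mem_win.1 h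
    rw [div_lt_iff₀ hF0] at h1
    rw [← mul_div_assoc, le_div_iff₀ hF0] at h2
    simp only [e]
    rw [if_pos ⟨h1, h2⟩, card_insert_of_notMem (hn F hF F hF q h)]
    ring
  · intro E hE
    obtain ⟨⟨F, q⟩, h, rfl⟩ := mem_image.1 hE
    obtain ⟨h1, h2⟩ := mem_sigma.1 h
    exact mem_powerset.2 (insert_subset (hq F h1 q h2).1 (hP F h1).1)
  · split_ifs
    · positivity
    · exact le_rfl

end Low

open Low in
theorem low : WinStmt → LowStmt := by
  intro hW a η D ha h0 h1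
  obtain ⟨y0, hy0⟩ := eventually_atTop.1 (hW η h0 h1)
  refine ⟨η / 16 * Real.exp (-(96 * a ^ 2 + 1)), by positivity, ?_⟩
  have a0 : 0 < a := by linarith
  have T4 : Tendsto (fun t : ℝ => t ^ 4) atTop atTop := tendsto_pow_atTop (by norm_num)
  have E3 : ∀ᶠ t : ℝ in atTop, t ^ 4 * Real.exp (-t) ≤ 1 / a ^ 2 :=
    (Real.tendsto_pow_mul_exp_neg_atTop_nhds_zero 4).eventually (ge_mem_nhds (by positivity))
  filter_upwards [eventually_ge_atTop 2, eventually_ge_atTop y0, T4.eventually_ge_atTop D,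
    T4.eventually_ge_atTop (32 * a * D), E3] with t t2 ty tD tD' t3 A Y hN hY1 hY2
  obtain ⟨hA, hC, -⟩ := hN
  have tV : 8 * t ≤ t ^ 4 := by
    have : 2 ^ 3 ≤ t ^ 3 := pow_le_pow_left₀ (by norm_num) t2 3
    nlinarith
  generalize t ^ 4 = V at *
  have V0 : 0 < V := by linarith
  have A1 : ∀ q ∈ A, 1 ≤ q := fun q hq => ((hA q).1 hq).1.one_le
  set z : ℝ := V / (32 * a) with hz
  have z0 : 0 < z := by positivity
  have az : a * z = V / 32 := by rw [hz]; field_simp
  have zV : z ≤ V / 32 := by nlinarith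
  set A' := A.filter fun q : ℕ => Real.log q ≤ z with hA'
  have c1 : ∑ q ∈ A', Real.log q / q ≤ z + D := by
    have := hC 0 z z0.le
    simpa only [Real.log_natCast_nonneg, true_and, sub_zero] using this
  have c2 : ∑ q ∈ A, Real.log q / q ≤ V + 1 + D := by
    have := hC 0 (V + 1) (by linarith)
    rwa [filter_true_of_mem fun q hq => ⟨Real.log_natCast_nonneg q, ((hA q).1 hq).2.2⟩,
      sub_zero] at this
  have r1 : rc A' ≤ V := by
    refine le_trans (sum_le_sum fun q hq => ?_) (c1.trans (by nlinarith))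
    have := ((hA q).1 (mem_filter.1 hq).1).2.1
    exact div_le_div_of_nonneg_right (by linarith) (Nat.cast_nonneg q)
  have r2 : rc A ≤ rc A' + 96 * a := by
    have e := sum_filter_add_sum_filter_not A (fun q : ℕ => Real.log q ≤ z)
      fun q : ℕ => 1 / (q : ℝ)
    have : z * ∑ q ∈ A.filter (fun q : ℕ => ¬ Real.log q ≤ z), 1 / (q : ℝ) ≤ z * (96 * a) := by
      rw [mul_sum]
      refine (sum_le_sum fun q hq => ?_).trans ((sum_le_sum_of_subset_of_nonneg
        (filter_subset (fun q : ℕ => ¬ Real.log q ≤ z) _) fun q _ _ =>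
          div_nonneg (Real.log_natCast_nonneg q) (Nat.cast_nonneg q)).trans
            (c2.trans (by nlinarith)))
      rw [mul_one_div]
      exact div_le_div_of_nonneg_right (not_le.1 (mem_filter.1 hq).2).le (Nat.cast_nonneg q)
    have := le_of_mul_le_mul_left this z0
    simp only [rc]
    linarith
  have p1 : Real.exp (-(96 * a ^ 2 + 1)) * Real.exp (a * rc A) ≤
      ∏ q ∈ A', (1 + a / (q : ℝ)) := by
    refine le_trans ?_ (prod_low A' (ε := Real.exp (-t)) a0.le fun q hq => ?_)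
    · rw [← Real.exp_add, Real.exp_le_exp]
      have h2 := mul_le_mul_of_nonneg_left r1 (Real.exp_pos (-t)).le
      rw [le_div_iff₀ (by positivity)] at t3
      nlinarith [mul_le_mul_of_nonneg_left h2 (sq_nonneg a), mul_le_mul_of_nonneg_left r2 a0.le]
    · have hq' := (hA q).1 (mem_filter.1 hq).1
      have q0 : (0 : ℝ) < q := Nat.cast_pos.2 hq'.1.pos
      rw [Real.exp_neg, one_div]
      exact inv_anti₀ (Real.exp_pos t) ((Real.lt_log_iff_exp_lt q0).1 hq'.2.1).le
  have p2 := half A' (W := V / 8) a0.le (by positivity)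
    ((mul_le_mul_of_nonneg_left c1 a0.le).trans (by nlinarith))
  have hy : ∀ F ∈ A'.powerset.filter (fun F => ll F ≤ V / 8),
      Real.exp (3 * V / 8) ≤ Y / pd F ∧ Y / pd F ≤ Real.exp V := by
    intro F hF
    obtain ⟨f1, f2⟩ := mem_filter.1 hF
    have f3 : ∀ q ∈ F, 1 ≤ q := fun q hq => A1 q (mem_filter.1 (mem_powerset.1 f1 hq)).1
    have f4 : (1 : ℝ) ≤ pd F := by exact_mod_cast pd_pos f3
    have f5 : (pd F : ℝ) ≤ Real.exp (V / 8) := by
      rw [← Real.log_le_iff_le_exp (by linarith), log_pd f3]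
      exact f2
    refine ⟨?_, (div_le_self ((Real.exp_pos _).le.trans hY1) f4).trans hY2⟩
    rw [le_div_iff₀ (by linarith)]
    refine (mul_le_mul_of_nonneg_left f5 (Real.exp_pos _).le).trans (le_trans (le_of_eq ?_) hY1)
    rw [← Real.exp_add]
    congr 1
    ring
  have e38 : 3 * V / 8 + 1 ≤ Real.exp (3 * V / 8) := Real.add_one_le_exp _
  refine le_trans ?_ (pairs A (z := z) a0.le A1 (A'.powerset.filter fun F => ll F ≤ V / 8)
    (fun F hF => ?_) fun F hF q hq => ?_)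
  · refine le_trans ?_ (sum_le_sum (f := fun F => a ^ F.card / pd F * (η / (8 * V)))
      fun F hF => mul_le_mul_of_nonneg_left ?_ (by positivity))
    · rw [← sum_mul]
      refine le_trans (le_of_eq ?_) (mul_le_mul_of_nonneg_right
        ((div_le_div_of_nonneg_right p1 two_pos.le).trans p2) (by positivity))
      ring
    · have := winsum h0 h1 (by linarith [(hy F hF).1]) (by linarith) (hy F hF).2
        (hy0 _ (by linarith [(hy F hF).1]))
      have h8 : 0 < η / (8 * V) := by positivity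
      nlinarith
  · have f1 := mem_powerset.1 (mem_filter.1 hF).1
    exact ⟨f1.trans (filter_subset _ _), fun q hq => (mem_filter.1 (f1 hq)).2⟩
  · obtain ⟨q1, q2, q3⟩ := mem_win.1 hq
    obtain ⟨y1, y2⟩ := hy F hF
    have q0 : (0 : ℝ) < q := Nat.cast_pos.2 q1.pos
    have l1 : 3 * V / 8 < Real.log q := (Real.lt_log_iff_exp_lt q0).2 (y1.trans_lt q2)
    refine ⟨(hA q).2 ⟨q1, by linarith, ?_⟩, by linarith⟩
    rw [Real.log_le_iff_le_exp q0, Real.exp_add]
    have := Real.add_one_le_exp 1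
    nlinarith [Real.exp_pos V]

end Pool.Agent.MP_ca0a54_nt.SC.CT
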