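import Pool.Agent.MP_ca0a54_nt.SC.SpecT
import Pool.Agent.MP_ca0a54_nt.H78M.MER
import Pool.Agent.MP_807c24_nt.H13.Pnt
import Pool.Agent.MP_807c24_nt.H13.Newman

/-! Estimates for sums over primes in ranges. -/

open Filter Finset

namespace Pool.Agent.MP_ca0a54_nt.SC.CT

namespace NiceA

theorem rc_eq (A : Finset ℕ) : rc A = ∑ p ∈ A, (p : ℝ)⁻¹ := by
  simp only [rc, one_div]

theorem theta_le {η y : ℝ} (h1 : η ≤ 1) (hy : 1 ≤ y) :
    Chebyshev.theta ((1 + η) * y) ≤ Chebyshev.theta y + (win η y).card * Real.log (2 * y) := by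
  have hsub : (Ioc 0 ⌊(1 + η) * y⌋₊).filter Nat.Prime ⊆
      (Ioc 0 ⌊y⌋₊).filter Nat.Prime ∪ win η y := by
    intro p hp
    rw [mem_filter, mem_Ioc] at hp
    obtain ⟨⟨p0, p1⟩, p2⟩ := hp
    rw [mem_union, mem_filter, mem_Ioc, mem_win]
    by_cases h : (p : ℝ) ≤ y
    · exact Or.inl ⟨⟨p0, Nat.le_floor h⟩, p2⟩
    · exact Or.inr ⟨p2, not_le.1 h, (Nat.le_floor_iff' p2.ne_zero).1 p1⟩
  have h2 : ∑ p ∈ win η y, Real.log p ≤ (win η y).card * Real.log (2 * y) := by
    rw [← nsmul_eq_mul]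
    refine sum_le_card_nsmul _ _ _ fun p hp => ?_
    obtain ⟨p1, p2, p3⟩ := mem_win.1 hp
    refine Real.log_le_log (by linarith) (p3.trans ?_)
    nlinarith
  have h3 := sum_le_sum_of_subset_of_nonneg (f := fun p : ℕ => Real.log p) hsub
    fun p _ _ => Real.log_natCast_nonneg p
  have h4 := sum_union_inter (s₁ := (Ioc 0 ⌊y⌋₊).filter Nat.Prime) (s₂ := win η y)
    (f := fun p : ℕ => Real.log p)
  have h5 : 0 ≤ ∑ p ∈ (Ioc 0 ⌊y⌋₊).filter Nat.Prime ∩ win η y, Real.log p :=
    sum_nonneg fun p _ => Real.log_natCast_nonneg p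
  simp only [Chebyshev.theta]
  linarith

end NiceA

open NiceA

theorem nice : NiceStmt := by
  obtain ⟨D0, hD0, hm⟩ := H78M.MER.mass
  obtain ⟨C, hC, h1, -, -⟩ := H78M.mer
  have hE := Real.exp_pos C
  refine ⟨D0 + 1 + Real.exp C, by linarith, ?_⟩
  filter_upwards [eventually_ge_atTop (1 : ℝ)] with t ht
  have ht4 : 0 < t ^ 4 := by positivity
  refine ⟨fun q => H78M.mem_pr, fun u v huv => ?_, fun z hz => ?_⟩
  · have h := H78M.MER.up hm (u := u - 1) (v := v) (by linarith)
    refine (sum_le_sum_of_subset_of_nonneg (t := H78M.pr (u - 1) v) (fun q hq => ?_)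
      fun q _ _ => div_nonneg (Real.log_natCast_nonneg q) (Nat.cast_nonneg q)).trans
      (by linarith)
    rw [mem_filter] at hq
    exact H78M.mem_pr.2 ⟨(H78M.mem_pr.1 hq.1).1, by linarith [hq.2.1], hq.2.2⟩
  · have hz0 : 0 < z := by linarith
    by_cases h : z ≤ t ^ 4 + 1
    · have e : (H78M.pr t (t ^ 4 + 1)).filter (fun q : ℕ => z < Real.log q) =
          H78M.pr z (t ^ 4 + 1) := by
        ext q
        simp only [mem_filter, H78M.mem_pr]
        constructor
        · rintro ⟨⟨a, -, c⟩, d⟩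
          exact ⟨a, d, c⟩
        · rintro ⟨a, b, c⟩
          exact ⟨⟨a, by linarith, c⟩, b⟩
      rw [e, rc_eq]
      have h2 := (abs_le.1 (h1 z (t ^ 4 + 1) (by linarith) h)).1
      have h3 : C / z ≤ C := div_le_self hC (by linarith)
      calc Real.exp (-∑ p ∈ H78M.pr z (t ^ 4 + 1), (p : ℝ)⁻¹)
          ≤ Real.exp (C - Real.log ((t ^ 4 + 1) / z)) := Real.exp_le_exp.2 (by linarith)
        _ = Real.exp C * z / (t ^ 4 + 1) := by
          rw [Real.exp_sub, Real.exp_log (by positivity)]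
          field_simp
        _ ≤ (D0 + 1 + Real.exp C) * z / t ^ 4 := by
          gcongr <;> linarith
    · have h2 : Real.exp (-rc ((H78M.pr t (t ^ 4 + 1)).filter fun q : ℕ => z < Real.log q)) ≤ 1 :=
        Real.exp_le_one_iff.2 (neg_nonpos.2 (rc_nonneg _))
      refine h2.trans ?_
      rw [le_div_iff₀ ht4]
      nlinarith

theorem bm : BmStmt := by
  obtain ⟨C, hC, h1, -, -⟩ := H78M.mer
  intro Λ hΛ
  filter_upwards [eventually_ge_atTop (5 : ℝ), eventually_ge_atTop (2 * C)] with u h5 hu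
  have hu0 : 0 < u := by linarith
  constructor
  · have h2 := (abs_le.1 (h1 u (Λ * u) (by linarith) (by nlinarith))).2
    rw [mul_div_assoc, div_self hu0.ne', mul_one] at h2
    have h3 : C / u ≤ 1 := by rw [div_le_one hu0]; linarith
    rw [rc_eq]
    linarith
  · have h2 := (abs_le.1 (h1 (u + 1) (Λ * u - 1) (by linarith) (by nlinarith))).1
    have h3 : C / (u + 1) ≤ 1 / 2 := by rw [div_le_iff₀ (by linarith)]; linarith
    have h4 : Real.log (Λ * (3 / 4)) ≤ Real.log ((Λ * u - 1) / (u + 1)) := by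
      refine Real.log_le_log (by positivity) ?_
      rw [le_div_iff₀ (by linarith)]
      nlinarith
    rw [Real.log_mul (by positivity) (by norm_num)] at h4
    have h6 := Real.one_sub_inv_le_log_of_pos (x := 3 / 4) (by norm_num)
    rw [rc_eq]
    norm_num at h6
    linarith

theorem wn : WinStmt := by
  intro η h0 h1
  have hp : Tendsto (fun x : ℝ => Chebyshev.theta x / x) atTop (nhds 1) :=
    MP_807c24_nt.H13.pnt_of_newman MP_807c24_nt.H13.newman
  have hq : Tendsto (fun y : ℝ => (1 + η) * y) atTop atTop :=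
    tendsto_id.const_mul_atTop (by linarith)
  have a1 : ∀ᶠ y : ℝ in atTop, Chebyshev.theta y / y < 1 + η / 8 :=
    hp.eventually (gt_mem_nhds (by linarith))
  have a2 : ∀ᶠ y : ℝ in atTop, 1 - η / 8 < Chebyshev.theta ((1 + η) * y) / ((1 + η) * y) :=
    (hp.comp hq).eventually (lt_mem_nhds (by linarith))
  filter_upwards [a1, a2, eventually_ge_atTop (1 : ℝ)] with y b1 b2 hy
  have hy0 : 0 < y := by linarith
  rw [div_lt_iff₀ hy0] at b1
  rw [lt_div_iff₀ (by positivity)] at b2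
  have hl : 0 < Real.log (2 * y) := Real.log_pos (by linarith)
  have h3 := theta_le h1 hy
  rw [div_le_iff₀ (by positivity)]
  have h4 : 0 ≤ η * y * (1 - η) := by
    have : 0 ≤ 1 - η := by linarith
    positivity
  have h5 : 0 < η * y := by positivity
  nlinarith

end Pool.Agent.MP_ca0a54_nt.SC.CT
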