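import Pool.Agent.MP_ca0a54_nt.SC.SpecT

/-! The power method for a symmetric matrix, and sums of periodic functions. -/

open Filter Finset Matrix

namespace Pool.Agent.MP_ca0a54_nt.SC.CT

namespace Pow

variable {ℓ : ℕ} (f : Fin ℓ → ℝ)

theorem q_sq {P : Matrix (Fin ℓ) (Fin ℓ) ℝ} (hP : P.IsSymm) :
    f ⬝ᵥ (P * P) *ᵥ f = ∑ i, (P *ᵥ f) i ^ 2 := by
  rw [← mulVec_mulVec, dotProduct_mulVec, ← mulVec_transpose, hP.eq]
  simp only [dotProduct, sq]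

theorem cs {P : Matrix (Fin ℓ) (Fin ℓ) ℝ} (hP : P.IsSymm) :
    (f ⬝ᵥ P *ᵥ f) ^ 2 ≤ (∑ i, f i ^ 2) * (f ⬝ᵥ (P * P) *ᵥ f) := by
  rw [q_sq f hP]
  exact sum_mul_sq_le_sq_mul_sq _ _ _

theorem tr_eq {P : Matrix (Fin ℓ) (Fin ℓ) ℝ} (hP : P.IsSymm) :
    (P * P).trace = ∑ i, ∑ j, P i j ^ 2 := by
  simp only [trace, Matrix.diag, mul_apply]
  refine sum_congr rfl fun i _ => sum_congr rfl fun j _ => ?_
  rw [hP.apply i j, sq]

theorem le_tr {P : Matrix (Fin ℓ) (Fin ℓ) ℝ} (hP : P.IsSymm) :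
    f ⬝ᵥ (P * P) *ᵥ f ≤ (∑ i, f i ^ 2) * (P * P).trace := by
  rw [q_sq f hP, tr_eq hP, mul_sum]
  refine sum_le_sum fun i _ => ?_
  rw [mul_comm]
  exact sum_mul_sq_le_sq_mul_sq univ (fun j => P i j) f

theorem pow_step (M : Matrix (Fin ℓ) (Fin ℓ) ℝ) (k : ℕ) :
    M ^ 2 ^ (k + 1) = M ^ 2 ^ k * M ^ 2 ^ k := by
  rw [← pow_add, pow_succ, mul_two]

theorem iter {M : Matrix (Fin ℓ) (Fin ℓ) ℝ} (hM : M.IsSymm) (hN : 0 < ∑ i, f i ^ 2) (k : ℕ) :
    |f ⬝ᵥ M *ᵥ f| ^ 2 ^ k * ∑ i, f i ^ 2 ≤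
      (∑ i, f i ^ 2) ^ 2 ^ k * |f ⬝ᵥ (M ^ 2 ^ k) *ᵥ f| := by
  induction k with
  | zero => simp [mul_comm]
  | succ k ih =>
    have h1 := cs f (hM.pow (2 ^ k))
    rw [← pow_step, ← sq_abs] at h1
    have h2 := pow_le_pow_left₀ (by positivity) ih 2
    have h3 := le_abs_self (f ⬝ᵥ (M ^ 2 ^ (k + 1)) *ᵥ f)
    rw [mul_pow, mul_pow, ← pow_mul, ← pow_mul, ← pow_succ] at h2
    generalize (∑ i, f i ^ 2) = N at *
    refine le_of_mul_le_mul_right ?_ hN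
    have h4 : 0 ≤ N ^ 2 ^ (k + 1) := by positivity
    have h5 := mul_le_mul_of_nonneg_left (h1.trans (mul_le_mul_of_nonneg_left h3 hN.le)) h4
    nlinarith

end Pow

theorem pow : PowStmt := by
  intro ℓ s M f ρ hM hρ hs
  obtain ⟨k, rfl⟩ : ∃ k, s = k + 1 := ⟨s - 1, by omega⟩
  have e : ∑ i, ∑ j, f i * f j * M i j = f ⬝ᵥ M *ᵥ f := by
    simp only [dotProduct, mulVec, mul_sum]
    exact sum_congr rfl fun i _ => sum_congr rfl fun j _ => by ring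
  have hP := hM.pow (2 ^ k)
  have ht : 0 ≤ (M ^ 2 ^ (k + 1)).trace := by
    rw [Pow.pow_step, Pow.tr_eq hP]
    positivity
  have hN0 : 0 ≤ ∑ i, f i ^ 2 := by positivity
  rw [e]
  rcases hN0.eq_or_lt with hN | hN
  · have h0 : f = 0 := by
      funext i
      exact pow_eq_zero_iff two_ne_zero |>.1
        ((sum_eq_zero_iff_of_nonneg fun i _ => sq_nonneg (f i)).1 hN.symm i (mem_univ i))
    simp [h0]
  have h1 := Pow.iter f hM hN (k + 1)
  have h2 := Pow.le_tr f hP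
  have h3 := Pow.q_sq f hP
  rw [← Pow.pow_step] at h2 h3
  rw [abs_of_nonneg (a := f ⬝ᵥ (M ^ 2 ^ (k + 1)) *ᵥ f) (by rw [h3]; positivity)] at h1
  obtain ⟨m, hm⟩ : ∃ m, 2 ^ (k + 1) = m + 1 := ⟨2 ^ (k + 1) - 1, by
    have := Nat.one_le_two_pow (n := k + 1)
    omega⟩
  rw [hm] at h1 h2 ht ⊢
  rw [Nat.add_sub_cancel]
  generalize (∑ i, f i ^ 2) = N at *
  generalize (M ^ (m + 1)).trace = t at *
  have ha := abs_nonneg (f ⬝ᵥ M *ᵥ f)
  generalize |f ⬝ᵥ M *ᵥ f| = a at *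
  have h4 : a ^ (m + 1) ≤ N ^ (m + 1) * t := by
    refine le_of_mul_le_mul_right (h1.trans ?_) hN
    rw [mul_assoc, mul_comm t]
    exact mul_le_mul_of_nonneg_left h2 (by positivity)
  have h5 : 0 ≤ N * (t / ρ ^ m) := by positivity
  rw [mul_add]
  by_cases h6 : a ≤ N * ρ
  · linarith
  · have h7 : (N * ρ) ^ m ≤ a ^ m := pow_le_pow_left₀ (by positivity) (not_le.1 h6).le m
    have h8 : a ≤ N * (t / ρ ^ m) := by
      rw [← mul_div_assoc, le_div_iff₀ (by positivity)]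
      refine le_of_mul_le_mul_left ?_ (pow_pos hN m)
      have h9 := mul_le_mul_of_nonneg_right h7 ha
      rw [mul_pow] at h9
      rw [pow_succ, pow_succ] at h4
      nlinarith
    nlinarith [mul_pos hN hρ]

namespace Pow

theorem sum_mul {M : ℕ} {h : ℕ → ℝ} (hp : Function.Periodic h M) (k : ℕ) :
    ∑ n ∈ range (k * M), h n = k * ∑ n ∈ range M, h n := by
  induction k with
  | zero => simp
  | succ k ih =>
    rw [add_mul, one_mul, sum_range_add, ih, Nat.cast_succ, add_mul, one_mul]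
    congr 1
    refine sum_congr rfl fun n _ => ?_
    rw [add_comm]
    exact hp.nat_mul k n

end Pow

theorem per : PerStmt := by
  intro M h hM hp h0 δ hδ
  have hS : 0 ≤ ∑ n ∈ range M, h n := sum_nonneg fun n _ => h0 n
  filter_upwards [(tendsto_natCast_atTop_atTop.const_mul_atTop hδ).eventually_ge_atTop
    (∑ n ∈ range M, h n)] with N hN
  have h1 : N ≤ (N / M + 1) * M := by
    rw [mul_comm]
    exact (Nat.lt_mul_div_succ N hM).le
  have h2 := sum_le_sum_of_subset_of_nonneg (range_subset_range.2 h1) fun n _ _ => h0 n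
  rw [Pow.sum_mul hp, Nat.cast_succ] at h2
  have h3 : ((N / M : ℕ) : ℝ) ≤ N / M := Nat.cast_div_le
  have h4 := mul_le_mul_of_nonneg_right h3 hS
  have e : (N : ℝ) * ((∑ n ∈ range M, h n) / M) = N / M * ∑ n ∈ range M, h n := by ring
  rw [mul_add, e]
  linarith

end Pool.Agent.MP_ca0a54_nt.SC.CT
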