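import Pool.Agent.MP_ca0a54_nt.SC.SpecT

/-! The edges removed by the cutoff. -/

open Filter Finset

namespace Pool.Agent.MP_ca0a54_nt.SC.CT

namespace REM

/-- The removed part at one end. -/
noncomputable def G (d : Dat) (E : Finset ℕ) (p : ℕ) (T : Finset ℕ) : ℝ :=
  if E ⊆ T then 1 - oi d T E p else 0

/-- The removed part at both ends. -/
noncomputable def g (r : ℕ) (d : Dat) (E : Finset ℕ) (p n : ℕ) : ℝ :=
  G d E p (dv d.A n) + G d E p (dv d.A (n + r * pd E * p))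

/-- The majorant. -/
noncomputable def h (r : ℕ) (d : Dat) (E : Finset ℕ) (p n : ℕ) : ℝ :=
  d.a ^ E.card * (g r d E p n * ((if p ∣ n then 1 else 0) + 1 / (p : ℝ)))

theorem G_nonneg (d : Dat) (E : Finset ℕ) (p : ℕ) (T : Finset ℕ) : 0 ≤ G d E p T := by
  unfold G
  split_ifs
  · exact sub_nonneg.2 (oi_le_one _ _ _ _)
  · exact le_rfl

theorem h_nonneg (r : ℕ) {d : Dat} (ha : 0 ≤ d.a) (E : Finset ℕ) (p n : ℕ) : 0 ≤ h r d E p n := by
  refine mul_nonneg (pow_nonneg ha _) (mul_nonneg (add_nonneg (G_nonneg _ _ _ _)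
    (G_nonneg _ _ _ _)) (add_nonneg ?_ (by positivity)))
  split_ifs <;> norm_num

theorem g_per (r : ℕ) (d : Dat) (E : Finset ℕ) (p : ℕ) :
    Function.Periodic (g r d E p) (pd d.A) := fun n => by
  rw [g, g, dv_add_pd, Nat.add_right_comm, dv_add_pd]

theorem point (r : ℕ) {d : Dat} (ha : 0 ≤ d.a) (hA : ∀ q ∈ d.A, q.Prime) {E : Finset ℕ}
    (hE : E ⊆ d.A) (p n : ℕ) {f : ℕ → ℝ} (hf : ∀ x, |f x| ≤ 1) :
    |d.a ^ E.card * (if pd E ∣ n then f n * f (n + r * pd E * p) * cp p n else 0) -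
      Gk r d f E p n| ≤ h r d E p n := by
  by_cases e : pd E ∣ n
  · have e' : pd E ∣ n + r * pd E * p :=
      dvd_add e ((Dvd.intro_left r rfl).mul_right p)
    rw [Gk, if_pos e, if_pos e, h, g, G, G, if_pos ((pd_dvd_iff hA hE _).1 e),
      if_pos ((pd_dvd_iff hA hE _).1 e'), ← one_sub_mul, abs_mul, abs_mul,
      abs_of_nonneg (pow_nonneg ha _), mul_left_comm]
    have a1 := oi_nonneg d (dv d.A n) E p
    have a2 := oi_le_one d (dv d.A n) E p
    have a3 := oi_nonneg d (dv d.A (n + r * pd E * p)) E p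
    have a4 := oi_le_one d (dv d.A (n + r * pd E * p)) E p
    refine mul_le_mul_of_nonneg_left (mul_le_mul ?_ ?_ (abs_nonneg _) (by linarith))
      (pow_nonneg ha _)
    · rw [abs_of_nonneg (by nlinarith)]
      nlinarith [mul_nonneg (sub_nonneg.2 a2) (sub_nonneg.2 a4)]
    · rw [abs_mul, abs_mul]
      exact (mul_le_of_le_one_left (abs_nonneg _)
        (mul_le_one₀ (hf _) (abs_nonneg _) (hf _))).trans (abs_cp_le p n)
  · rw [Gk, if_neg e, if_neg e, mul_zero, sub_zero, abs_zero]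
    exact h_nonneg r ha E p n

theorem mean (hI : IndStmt) (hM : ModStmt) {r : ℕ} {d : Dat} (hd : d.Base r) (E : Finset ℕ)
    {p : ℕ} (hp : p ∈ d.B) : ∑ n ∈ range (pd d.A * pd d.B), h r d E p n =
      (pd d.A * pd d.B : ℕ) * (4 * (d.a ^ E.card / p * Ex d.A (G d E p))) := by
  obtain ⟨hA, hB, -⟩ := hd
  obtain ⟨p1, -, p2⟩ := hB p hp
  have hc : p.Coprime (pd d.A) := Nat.Coprime.prod_right fun q hq =>
    (Nat.coprime_primes p1 (hA q hq)).2 fun e => p2 (e ▸ hq)
  have i := hI (pd d.A) p (pd d.A * pd d.B) 0 (g r d E p) (g_per r d E p) hc p1.pos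
    (Nat.mul_dvd_mul_left _ (dvd_prod_of_mem _ hp))
  have m1 := hM d.A (G d E p) (pd d.A * pd d.B) 0 hA (Dvd.intro _ rfl)
  have m2 := hM d.A (G d E p) (pd d.A * pd d.B) (r * pd E * p) hA (Dvd.intro _ rfl)
  simp only [add_zero] at i m1
  have m : ∑ n ∈ range (pd d.A * pd d.B), g r d E p n =
      2 * ((pd d.A * pd d.B : ℕ) * Ex d.A (G d E p)) := by
    simp only [g, sum_add_distrib, m1, m2, two_mul]
  simp only [h, ← mul_sum, mul_add, sum_add_distrib, ← sum_mul]
  rw [i, m]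
  ring

end REM

open REM in
theorem rem : IndStmt → ModStmt → PerStmt → RemStmt := by
  intro hI hM hP r d hd δ hδ
  have hd' := hd
  obtain ⟨hA, hB, ha, hE, -⟩ := hd'
  have h0 : 0 < pd d.A * pd d.B :=
    Nat.mul_pos (pd_pos fun q hq => (hA q hq).pos) (pd_pos fun q hq => (hB q hq).1.pos)
  have hper : Function.Periodic (fun n => ∑ E ∈ d.A.powerset, ∑ p ∈ d.Pe E, h r d E p n)
      (pd d.A * pd d.B) := fun n => by
    refine sum_congr rfl fun E _ => sum_congr rfl fun p hp => ?_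
    have e1 : g r d E p (n + pd d.A * pd d.B) = g r d E p n := by
      simpa [mul_comm] using (g_per r d E p).nat_mul (pd d.B) n
    have e2 : p ∣ n + pd d.A * pd d.B ↔ p ∣ n :=
      Nat.dvd_add_left ((dvd_prod_of_mem _ (hE E hp)).mul_left _)
    simp only [h, e1, e2]
  filter_upwards [hP _ _ h0 hper
    (fun n => sum_nonneg fun E _ => sum_nonneg fun p _ => h_nonneg r ha E p n) δ hδ] with N hN f hf
  have e : (∑ n ∈ range (pd d.A * pd d.B), ∑ E ∈ d.A.powerset, ∑ p ∈ d.Pe E, h r d E p n) /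
      (pd d.A * pd d.B : ℕ) = 4 * Bad d := by
    rw [div_eq_iff (Nat.cast_ne_zero.2 h0.ne'), sum_comm, Bad, mul_comm (4 * _), mul_sum,
      mul_sum]
    refine sum_congr rfl fun E _ => ?_
    rw [sum_comm, mul_sum, mul_sum]
    exact sum_congr rfl fun p hp => mean hI hM hd E (hE E hp)
  rw [e] at hN
  refine le_trans ?_ hN
  rw [cenS, cenK, ← sum_sub_distrib, sum_comm]
  refine (abs_sum_le_sum_abs _ _).trans (sum_le_sum fun E hE' => ?_)
  rw [← sum_sub_distrib, sum_comm]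
  refine (abs_sum_le_sum_abs _ _).trans (sum_le_sum fun p _ => ?_)
  rw [mul_sum, ← sum_sub_distrib]
  exact (abs_sum_le_sum_abs _ _).trans
    (sum_le_sum fun n _ => point r ha hA (mem_powerset.1 hE') p n hf)

end Pool.Agent.MP_ca0a54_nt.SC.CT
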