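import Pool.Agent.MP_ca0a54_nt.SC.SpecT

/-! Row SLD: sliding blocks. -/

open Filter Finset

namespace Pool.Agent.MP_ca0a54_nt.SC.CT

namespace Sld

theorem abs_sum_le {g : ℕ → ℝ} {b : ℝ} (h : ∀ x, |g x| ≤ b) (i : ℕ) :
    |∑ n ∈ range i, g n| ≤ i * b := by
  refine (abs_sum_le_sum_abs _ _).trans ((sum_le_card_nsmul _ _ b fun x _ => h x).trans ?_)
  rw [card_range, nsmul_eq_mul]

theorem shift {g : ℕ → ℝ} {b : ℝ} (h : ∀ x, |g x| ≤ b) (N i : ℕ) :
    |∑ n ∈ range N, g n - ∑ n ∈ range N, g (n + i)| ≤ 2 * i * b := by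
  have h1 := sum_range_add g N i
  have h2 := sum_range_add g i N
  rw [add_comm i N, h1] at h2
  simp only [add_comm i] at h2
  have h3 := abs_le.1 (abs_sum_le h i)
  have h4 := abs_le.1 (abs_sum_le (g := fun x => g (N + x)) (fun x => h _) i)
  rw [abs_le]
  constructor <;> linarith [h3.1, h3.2, h4.1, h4.2]

theorem block {g : ℕ → ℝ} {b : ℝ} (h : ∀ x, |g x| ≤ b) (N ℓ D : ℕ) :
    |ℓ * ∑ n ∈ range N, g n - ∑ n ∈ range N, ∑ i ∈ range ℓ, if i + D < ℓ then g (n + i) else 0| ≤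
      2 * ℓ * ℓ * b + D * |∑ n ∈ range N, g n| := by
  have hb : 0 ≤ b := (abs_nonneg _).trans (h 0)
  have e1 : (ℓ : ℝ) * ∑ n ∈ range N, g n = ∑ _i ∈ range ℓ, ∑ n ∈ range N, g n := by
    rw [sum_const, card_range, nsmul_eq_mul]
  rw [sum_comm, e1, ← sum_sub_distrib]
  refine (abs_sum_le_sum_abs _ _).trans ((sum_le_sum (g := fun i => 2 * ℓ * b +
    if i + D < ℓ then 0 else |∑ n ∈ range N, g n|) fun i hi => ?_).trans ?_)
  · have hi' : (i : ℝ) ≤ ℓ := Nat.cast_le.2 (mem_range.1 hi).le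
    split_ifs with hc
    · have := shift h N i
      nlinarith
    · rw [sum_const_zero, sub_zero]
      exact le_add_of_nonneg_left (by positivity)
  · rw [sum_add_distrib, sum_const, card_range, nsmul_eq_mul, sum_ite, sum_const_zero, zero_add,
      sum_const, nsmul_eq_mul]
    have h1 : ((range ℓ).filter fun i => ¬ i + D < ℓ).card ≤ D := by
      refine (card_le_card (t := Ico (ℓ - D) ℓ) fun i hi => ?_).trans (by rw [Nat.card_Ico]; omega)
      rw [mem_filter, mem_range] at hi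
      rw [mem_Ico]
      omega
    have h2 := mul_le_mul_of_nonneg_right (Nat.cast_le (α := ℝ).2 h1)
      (abs_nonneg (∑ n ∈ range N, g n))
    linarith

theorem cnt (N m : ℕ) :
    ∑ x ∈ range N, (if m ∣ x then (1 : ℝ) else 0) ≤ N / m + 1 := by
  rw [sum_boole]
  have h1 : ((range N).filter fun x => m ∣ x).card ≤ (range (N / m + 1)).card := by
    refine card_le_card_of_injOn (· / m) (fun x hx => ?_) fun x hx y hy e => ?_
    · exact mem_coe.2 (mem_range.2 (Nat.lt_succ_of_le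
        (Nat.div_le_div_right (mem_range.1 (mem_filter.1 (mem_coe.1 hx)).1).le)))
    · rw [← Nat.mul_div_cancel' (mem_filter.1 (mem_coe.1 hx)).2,
        ← Nat.mul_div_cancel' (mem_filter.1 (mem_coe.1 hy)).2]
      exact congrArg (m * ·) e
  rw [card_range] at h1
  have h2 : (((range N).filter fun x => m ∣ x).card : ℝ) ≤ ((N / m : ℕ) : ℝ) + 1 := by
    exact_mod_cast h1
  exact h2.trans (add_le_add_left Nat.cast_div_le _)

theorem gk_le {r : ℕ} {d : Dat} (ha : 0 ≤ d.a) {f : ℕ → ℝ} (hf : ∀ x, |f x| ≤ 1) (E : Finset ℕ)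
    (p x : ℕ) : |Gk r d f E p x| ≤ if pd E ∣ x then d.a ^ E.card * |cp p x| else 0 := by
  unfold Gk
  split_ifs
  · rw [abs_mul, abs_mul, abs_mul, abs_mul, abs_mul, abs_of_nonneg (oi_nonneg _ _ _ _),
      abs_of_nonneg (oi_nonneg _ _ _ _), abs_of_nonneg (pow_nonneg ha _)]
    refine (mul_le_of_le_one_left (by positivity)
      (mul_le_one₀ (oi_le_one _ _ _ _) (oi_nonneg _ _ _ _) (oi_le_one _ _ _ _))).trans ?_
    exact mul_le_mul_of_nonneg_left (mul_le_of_le_one_left (abs_nonneg _)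
      (mul_le_one₀ (hf _) (abs_nonneg _) (hf _))) (pow_nonneg ha _)
  · rw [abs_zero]

theorem cp_le (p x : ℕ) : |cp p x| ≤ 1 := by
  have h0 : (0 : ℝ) ≤ 1 / (p : ℝ) := by positivity
  have h1 : 1 / (p : ℝ) ≤ 1 := by rw [one_div]; exact Nat.cast_inv_le_one p
  unfold cp
  split_ifs <;> rw [abs_le] <;> constructor <;> linarith

theorem gk_le' {r : ℕ} {d : Dat} (ha : 0 ≤ d.a) {f : ℕ → ℝ} (hf : ∀ x, |f x| ≤ 1) (E : Finset ℕ)
    (p x : ℕ) : |Gk r d f E p x| ≤ d.a ^ E.card := by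
  refine (gk_le ha hf E p x).trans ?_
  split_ifs
  · exact mul_le_of_le_one_right (pow_nonneg ha _) (cp_le p x)
  · exact pow_nonneg ha _

theorem gk_sum {r : ℕ} {d : Dat} (hd : d.Base r) {f : ℕ → ℝ} (hf : ∀ x, |f x| ≤ 1)
    {E : Finset ℕ} (hE : E ⊆ d.A) {p : ℕ} (hp : p ∈ d.Pe E) (N : ℕ) :
    |∑ x ∈ range N, Gk r d f E p x| ≤ d.a ^ E.card * (2 * N / (pd E * p) + 2) := by
  obtain ⟨hA, hB, ha, hP, -⟩ := hd
  obtain ⟨pp, -, pA⟩ := hB p (hP E hp)
  have e0 : 0 < pd E := pd_pos fun q hq => (hA q (hE hq)).one_le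
  have hc : (pd E).Coprime p := Nat.Coprime.prod_left fun q hq =>
    (Nat.coprime_primes (hA q (hE hq)) pp).2 fun e => pA (e ▸ hE hq)
  have p1 : (1 : ℝ) ≤ p := by exact_mod_cast pp.one_le
  have e1 : (1 : ℝ) ≤ pd E := by exact_mod_cast e0
  refine (abs_sum_le_sum_abs _ _).trans ((sum_le_sum (g := fun x => d.a ^ E.card *
    ((if pd E * p ∣ x then 1 else 0) + 1 / (p : ℝ) * if pd E ∣ x then 1 else 0))
      fun x _ => (gk_le ha hf E p x).trans ?_).trans ?_)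
  · by_cases h1 : pd E ∣ x
    · rw [if_pos h1, if_pos h1, mul_one]
      refine mul_le_mul_of_nonneg_left ((abs_cp_le p x).trans (add_le_add_left ?_ _))
        (pow_nonneg ha _)
      by_cases h2 : p ∣ x
      · rw [if_pos h2, if_pos (hc.mul_dvd_of_dvd_of_dvd h1 h2)]
      · rw [if_neg h2]
        positivity
    · rw [if_neg h1]
      positivity
  · rw [← mul_sum, sum_add_distrib, ← mul_sum]
    refine mul_le_mul_of_nonneg_left ?_ (pow_nonneg ha _)
    have h1 := cnt N (pd E * p)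
    have h2 := mul_le_mul_of_nonneg_left (cnt N (pd E)) (show (0 : ℝ) ≤ 1 / (p : ℝ) by positivity)
    have h3 : 1 / (p : ℝ) ≤ 1 := by rw [one_div]; exact Nat.cast_inv_le_one p
    have h4 : 1 / (p : ℝ) * (N / pd E + 1) = N / (pd E * p) + 1 / p := by field_simp
    have h5 : 2 * (N : ℝ) / (pd E * p) = N / (pd E * p) + N / (pd E * p) := by ring
    rw [Nat.cast_mul] at h1
    linarith

end Sld

theorem sld : KerStmt → ModStmt → PerStmt → SldStmt := by
  intro hK hM hP r d ℓ s L H hd hL hH H0 δ hδ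
  obtain ⟨Ψ, Ψp, Ψm, Ψb⟩ := hK r d ℓ s L hd hL
  have ha : 0 ≤ d.a := hd.2.2.1
  have l1 : (1 : ℝ) ≤ ℓ := by exact_mod_cast hL.2.2.1
  have M0 : 0 < pd d.A * pd d.B := Nat.mul_pos (pd_pos fun q hq => (hd.1 q hq).one_le)
    (pd_pos fun q hq => (hd.2.1 q hq).1.one_le)
  have M0' : (0 : ℝ) < (pd d.A * pd d.B : ℕ) := by exact_mod_cast M0
  have Ψ0 : ∀ n, 0 ≤ Ψ n := fun n => (abs_nonneg _).trans (Ψb n (fun _ => 0) fun _ => by simp)
  have hm : (∑ n ∈ range (pd d.A * pd d.B), Ψ n) / (pd d.A * pd d.B : ℕ) ≤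
      64 * d.κ * √L * (ℓ * Zm d.A d.a) := by
    rw [div_le_iff₀ M0']
    refine Ψm.trans (le_of_eq ?_)
    rw [sum_comm, sum_congr rfl fun i _ =>
      hM d.A (fun T => (1 + d.a) ^ T.card) _ i hd.1 (dvd_mul_right _ _), sum_const, card_range,
      nsmul_eq_mul, Zm]
    ring
  obtain ⟨C, hC⟩ : ∃ C : ℝ, C = ∑ E ∈ d.A.powerset, ∑ _p ∈ d.Pe E,
    (2 * ℓ * ℓ + 2 * H) * d.a ^ E.card := ⟨_, rfl⟩
  filter_upwards [hP _ Ψ M0 Ψp Ψ0 δ hδ,
    tendsto_natCast_atTop_atTop.eventually_ge_atTop (2 * C / δ)] with N h1 h2 f hf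
  have N0 : (0 : ℝ) ≤ N := Nat.cast_nonneg N
  rw [div_le_iff₀ hδ] at h2
  have h3 : |∑ n ∈ range N, ∑ E ∈ d.A.powerset, ∑ p ∈ d.Pe E, ∑ i ∈ range ℓ,
      if i + r * pd E * p < ℓ then Gk r d f E p (n + i) else 0| ≤ (∑ n ∈ range N, Ψ n) / 2 := by
    rw [sum_div]
    refine (abs_sum_le_sum_abs _ _).trans (sum_le_sum fun n _ => ?_)
    have := Ψb n f hf
    rw [abs_mul, abs_two] at this
    linarith
  have h4 : |ℓ * cenK r d N f - ∑ n ∈ range N, ∑ E ∈ d.A.powerset, ∑ p ∈ d.Pe E, ∑ i ∈ range ℓ,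
      if i + r * pd E * p < ℓ then Gk r d f E p (n + i) else 0| ≤ 2 * H * N * massS d + C := by
    rw [sum_comm, cenK, mul_sum, ← sum_sub_distrib, hC, massS, mul_sum, ← sum_add_distrib]
    refine (abs_sum_le_sum_abs _ _).trans (sum_le_sum fun E hE => ?_)
    rw [sum_comm (s := range N) (t := d.Pe E), mul_sum, ← sum_sub_distrib, mul_sum,
      ← sum_add_distrib]
    refine (abs_sum_le_sum_abs _ _).trans (sum_le_sum fun p hp => ?_)
    have hE' := mem_powerset.1 hE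
    refine (Sld.block (Sld.gk_le' ha hf E p) N ℓ (r * pd E * p)).trans ?_
    have g1 := mul_le_mul (show ((r * pd E * p : ℕ) : ℝ) ≤ H by exact_mod_cast hH E hE' p hp)
      (Sld.gk_sum hd hf hE' hp N) (abs_nonneg _) H0
    refine (add_le_add_right g1 _).trans (le_of_eq ?_)
    ring
  have h5 := mul_le_mul_of_nonneg_left hm N0
  have h6 : ℓ * |cenK r d N f| ≤
      N * (32 * d.κ * √L * (ℓ * Zm d.A d.a) + 2 * H * massS d + δ) := by
    have := abs_sub_abs_le_abs_sub (ℓ * cenK r d N f) (∑ n ∈ range N, ∑ E ∈ d.A.powerset,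
      ∑ p ∈ d.Pe E, ∑ i ∈ range ℓ, if i + r * pd E * p < ℓ then Gk r d f E p (n + i) else 0)
    rw [abs_mul, Nat.abs_cast] at this
    nlinarith
  refine le_of_mul_le_mul_left (h6.trans ?_) (show (0 : ℝ) < ℓ by linarith)
  have h7 : (ℓ : ℝ) * (N * (32 * d.κ * √L * Zm d.A d.a + 2 * H / ℓ * massS d + δ)) =
      N * (32 * d.κ * √L * (ℓ * Zm d.A d.a) + 2 * H * massS d + ℓ * δ) := by
    field_simp
  rw [h7]
  exact mul_le_mul_of_nonneg_left (add_le_add_right (le_mul_of_one_le_left hδ.le l1) _) N0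

end Pool.Agent.MP_ca0a54_nt.SC.CT
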