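import Pool.Agent.MP_ca0a54_nt.SC.SpecT

/-! The trace bound. -/

open Filter Finset

namespace Pool.Agent.MP_ca0a54_nt.SC.CT

namespace Tr

/-- The lists of length `k` with entries in `B`. -/
def Ls (B : Finset ℕ) : ℕ → Finset (List ℕ)
  | 0 => {[]}
  | k + 1 => (B ×ˢ Ls B k).map ⟨fun x => x.1 :: x.2, fun _ _ h =>
      Prod.ext (List.cons.inj h).1 (List.cons.inj h).2⟩

theorem sum_Ls {α : Type*} [AddCommMonoid α] (B : Finset ℕ) (k : ℕ) (F : List ℕ → α) :
    ∑ l ∈ Ls B (k + 1), F l = ∑ p ∈ B, ∑ l ∈ Ls B k, F (p :: l) := by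
  rw [Ls, sum_map, sum_product]
  rfl

theorem mem_Ls {B : Finset ℕ} {k : ℕ} {l : List ℕ} (h : l ∈ Ls B k) :
    l.length = k ∧ ∀ p ∈ l, p ∈ B := by
  induction k generalizing l with
  | zero =>
    obtain rfl : l = [] := by simpa [Ls] using h
    simp
  | succ k ih =>
    obtain ⟨x, hx, rfl⟩ := mem_map.1 h
    obtain ⟨h1, h2⟩ := mem_product.1 hx
    obtain ⟨h3, h4⟩ := ih h2
    refine ⟨by simp [h3], fun p hp => ?_⟩
    rcases List.mem_cons.1 hp with rfl | hp
    · exact h1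
    · exact h4 p hp

theorem pow_eq {α : Type*} [Semiring α] (B : Finset ℕ) (M : ℕ → α) (k : ℕ) :
    (∑ p ∈ B, M p) ^ k = ∑ l ∈ Ls B k, (l.map M).prod := by
  induction k with
  | zero => simp [Ls]
  | succ k ih =>
    rw [pow_succ', ih, sum_Ls, sum_mul_sum]
    simp

theorem per_dvd {α : Type*} {h : ℕ → α} {a b : ℕ} (hp : Function.Periodic h a) (hd : a ∣ b) :
    Function.Periodic h b := by
  obtain ⟨c, rfl⟩ := hd
  simpa [mul_comm] using hp.nat_mul c

theorem dvd_shift {p b : ℕ} (h : p ∣ b) (n i : ℕ) : p ∣ n + b + i ↔ p ∣ n + i := by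
  rw [add_right_comm]
  exact Nat.dvd_add_left h

/-- The indicator of divisibility. -/
noncomputable def ch (p x : ℕ) : ℝ := if p ∣ x then 1 else 0

theorem ch_nonneg (p x : ℕ) : 0 ≤ ch p x := by
  unfold ch
  split_ifs <;> norm_num

theorem ch_le (p x : ℕ) : ch p x ≤ 1 := by
  unfold ch
  split_ifs <;> norm_num

theorem ch_shift {p b : ℕ} (h : p ∣ b) (n i : ℕ) : ch p (n + b + i) = ch p (n + i) := by
  simp only [ch, dvd_shift h]

/-- The price of the new entries of a list. -/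
noncomputable def coef (x : ℝ) : Finset ℕ → List ℕ → ℝ
  | _, [] => 1
  | S, p :: l => (if p ∈ S then 1 else x) * coef x (insert p S) l

theorem coef_eq (x : ℝ) (S : Finset ℕ) (l : List ℕ) :
    coef x S l = x ^ (l.toFinset \ S).card := by
  induction l generalizing S with
  | nil => simp [coef]
  | cons p l ih =>
    rw [coef, ih, List.toFinset_cons]
    split_ifs with h
    · rw [insert_eq_of_mem h, insert_sdiff_of_mem _ h, one_mul]
    · have e : insert p l.toFinset \ S = insert p (l.toFinset \ insert p S) := by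
        ext q
        simp only [mem_sdiff, mem_insert]
        by_cases hq : q = p
        · simp [hq, h]
        · simp [hq]
      rw [e, card_insert_of_notMem (by simp), pow_succ']

theorem one_le_coef {L : ℝ} (hL : 1 ≤ L) {l : List ℕ} (h : ∀ p ∈ l, 2 ≤ l.count p) :
    1 ≤ √L ^ l.length * coef L⁻¹ ∅ l := by
  have h1 : 2 * l.toFinset.card ≤ l.length := by
    rw [← List.sum_toFinset_count_eq_length, mul_comm, ← smul_eq_mul]
    exact card_nsmul_le_sum _ _ _ fun p hp => h p (List.mem_toFinset.1 hp)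
  have h2 : √L ^ (2 * l.toFinset.card) ≤ √L ^ l.length :=
    pow_le_pow_right₀ (Real.one_le_sqrt.2 hL) h1
  rw [pow_mul, Real.sq_sqrt (by linarith)] at h2
  rw [coef_eq, sdiff_empty, inv_pow, ← div_eq_mul_inv, one_le_div (by positivity)]
  exact h2

theorem split_of_count {l : List ℕ} {p : ℕ} (hp : p ∈ l) (h : ¬ 2 ≤ l.count p) :
    ∃ l1 l2, l = l1 ++ p :: l2 ∧ p ∉ l1 ∧ p ∉ l2 := by
  obtain ⟨l1, l2, rfl⟩ := List.append_of_mem hp
  simp only [List.count_append, List.count_cons_self] at h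
  exact ⟨l1, l2, rfl, List.count_eq_zero.1 (by omega), List.count_eq_zero.1 (by omega)⟩

theorem abs_prod_le {ι : Type*} [Fintype ι] [DecidableEq ι] {M G : ℕ → Matrix ι ι ℝ}
    (h : ∀ p i j, |M p i j| ≤ G p i j) (l : List ℕ) (i j : ι) :
    |(l.map M).prod i j| ≤ (l.map G).prod i j := by
  induction l generalizing i with
  | nil =>
    simp only [List.map_nil, List.prod_nil, Matrix.one_apply]
    split_ifs <;> simp
  | cons p l ih =>
    simp only [List.map_cons, List.prod_cons, Matrix.mul_apply]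
    refine (abs_sum_le_sum_abs _ _).trans (sum_le_sum fun x _ => ?_)
    rw [abs_mul]
    exact mul_le_mul (h p i x) (ih x) (abs_nonneg _) ((abs_nonneg _).trans (h p i x))

theorem pd_erase {B : Finset ℕ} {p : ℕ} (hp : p ∈ B) : pd (B.erase p) * p = pd B :=
  prod_erase_mul B (fun q => q) hp

theorem cop {B S : Finset ℕ} {D p : ℕ} (hB : ∀ p ∈ B, p.Prime ∧ p.Coprime D) (hS : S ⊆ B)
    (hp : p ∈ B) (hn : p ∉ S) : p.Coprime (D * pd S) := by
  refine Nat.Coprime.mul_right (hB p hp).2 (Nat.Coprime.prod_right fun q hq => ?_)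
  exact (Nat.coprime_primes (hB p hp).1 (hB q (hS hq)).1).2 fun e => hn (e ▸ hq)

variable {ℓ : ℕ}

/-- The centred matrices. -/
noncomputable def Ap (K : ℕ → ℕ → Fin ℓ → Fin ℓ → ℝ) (n p : ℕ) : Matrix (Fin ℓ) (Fin ℓ) ℝ :=
  Matrix.of fun i j => K n p i j * cp p (n + i)

/-- Their majorants. -/
noncomputable def Gp (K : ℕ → ℕ → Fin ℓ → Fin ℓ → ℝ) (n p : ℕ) : Matrix (Fin ℓ) (Fin ℓ) ℝ :=
  Matrix.of fun i j => K n p i j * (ch p (n + i) + 1 / p)

theorem Ap_shift {K : ℕ → ℕ → Fin ℓ → Fin ℓ → ℝ} {b p : ℕ} (hK : Function.Periodic K b)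
    (h : p ∣ b) (n : ℕ) : Ap K (n + b) p = Ap K n p := by
  ext i j
  simp only [Ap, Matrix.of_apply, hK n, cp, dvd_shift h]

theorem lonely (hI : IndStmt) {B : Finset ℕ} {D : ℕ} {K : ℕ → ℕ → Fin ℓ → Fin ℓ → ℝ}
    {F : ℕ → ℝ} (hB : ∀ p ∈ B, p.Prime ∧ p.Coprime D) (hK : Function.Periodic K D)
    (hF : Function.Periodic F D) {l1 l2 : List ℕ} {p : ℕ} (hp : p ∈ B)
    (h1 : ∀ q ∈ l1, q ∈ B.erase p) (h2 : ∀ q ∈ l2, q ∈ B.erase p) :
    ∑ n ∈ range (D * pd B), F n * ((l1 ++ p :: l2).map (Ap K n)).prod.trace = 0 := by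
  have hK' := per_dvd hK (dvd_mul_right D (pd (B.erase p)))
  have hF' := per_dvd hF (dvd_mul_right D (pd (B.erase p)))
  have sh : ∀ l : List ℕ, (∀ q ∈ l, q ∈ B.erase p) → ∀ n,
      l.map (Ap K (n + D * pd (B.erase p))) = l.map (Ap K n) := fun l hl n =>
    List.map_congr_left fun q hq =>
      Ap_shift hK' (Dvd.dvd.mul_left (dvd_prod_of_mem (fun q => q) (hl q hq)) D) n
  have e : ∀ n, F n * ((l1 ++ p :: l2).map (Ap K n)).prod.trace = ∑ i, ∑ j,
      F n * ((l2.map (Ap K n)).prod * (l1.map (Ap K n)).prod) i j * K n p j i * cp p (n + j) := by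
    intro n
    rw [List.map_append, List.map_cons, List.prod_append, List.prod_cons, ← mul_assoc,
      Matrix.trace_mul_cycle, Matrix.trace, mul_sum]
    refine sum_congr rfl fun i _ => ?_
    rw [Matrix.diag_apply, Matrix.mul_apply, mul_sum]
    refine sum_congr rfl fun j _ => ?_
    simp only [Ap, Matrix.of_apply]
    ring
  simp only [e]
  rw [sum_comm]
  refine sum_eq_zero fun i _ => ?_
  rw [sum_comm]
  refine sum_eq_zero fun j _ => ?_
  have := hI (D * pd (B.erase p)) p (D * pd B) j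
    (fun n => F n * ((l2.map (Ap K n)).prod * (l1.map (Ap K n)).prod) i j * K n p j i)
    (fun n => by simp only [hF' n, sh l1 h1 n, sh l2 h2 n, hK' n])
    (cop hB (erase_subset p B) hp (notMem_erase p B)) (hB p hp).1.pos
    (by rw [mul_assoc, pd_erase hp])
  simp only [cp, mul_sub, sum_sub_distrib]
  rw [this, ← sum_mul, mul_comm, sub_self]

/-- The weight of the continuations of a walk. -/
noncomputable def U (B : Finset ℕ) (K : ℕ → ℕ → Fin ℓ → Fin ℓ → ℝ) (φ : ℕ → Fin ℓ → ℝ)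
    (x : ℝ) (k : ℕ) (S : Finset ℕ) (n : ℕ) (i : Fin ℓ) : ℝ :=
  ∑ l ∈ Ls B k, coef x S l * ∑ j, (l.map (Gp K n)).prod i j * φ n j

theorem U_zero (B : Finset ℕ) (K : ℕ → ℕ → Fin ℓ → Fin ℓ → ℝ) (φ : ℕ → Fin ℓ → ℝ)
    (x : ℝ) (S : Finset ℕ) (n : ℕ) (i : Fin ℓ) : U B K φ x 0 S n i = φ n i := by
  simp [U, Ls, coef, Matrix.one_apply]

theorem U_succ (B : Finset ℕ) (K : ℕ → ℕ → Fin ℓ → Fin ℓ → ℝ) (φ : ℕ → Fin ℓ → ℝ)
    (x : ℝ) (k : ℕ) (S : Finset ℕ) (n : ℕ) (i : Fin ℓ) : U B K φ x (k + 1) S n i =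
      ∑ p ∈ B, ∑ j, (if p ∈ S then 1 else x) * (ch p (n + i) + 1 / p) * K n p i j *
        U B K φ x k (insert p S) n j := by
  rw [U, sum_Ls]
  refine sum_congr rfl fun p _ => ?_
  simp only [U, coef, List.map_cons, List.prod_cons, Matrix.mul_apply, mul_sum, sum_mul]
  rw [sum_comm]
  conv_rhs => rw [sum_comm]
  rw [sum_comm]
  refine sum_congr rfl fun l _ => ?_
  rw [sum_comm]
  refine sum_congr rfl fun y _ => sum_congr rfl fun j _ => ?_
  simp only [Gp, Matrix.of_apply]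
  ring

/-- The potential. -/
noncomputable def pot (S : Finset ℕ) (x : ℕ) : ℝ := 1 + ∑ p ∈ S, ch p x

theorem one_le_pot (S : Finset ℕ) (x : ℕ) : 1 ≤ pot S x :=
  le_add_of_nonneg_right (sum_nonneg fun p _ => ch_nonneg p x)

theorem old_le {S : Finset ℕ} {m : ℕ} (hS : ∀ p ∈ S, m ≤ p) (hc : S.card ≤ m) (p0 x : ℕ) :
    ∑ p ∈ S, (ch p x + 1 / (p : ℝ)) ≤ 1 + pot (S.erase p0) x := by
  have h1 : ∑ p ∈ S, ch p x ≤ pot (S.erase p0) x := by
    unfold pot
    by_cases h : p0 ∈ S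
    · rw [← add_sum_erase S _ h]
      linarith [ch_le p0 x]
    · rw [erase_eq_of_notMem h]
      linarith
  have h2 : ∑ p ∈ S, 1 / (p : ℝ) ≤ 1 := by
    rcases S.eq_empty_or_nonempty with rfl | hne
    · simp
    have hm : (0 : ℝ) < m := by exact_mod_cast hne.card_pos.trans_le hc
    refine (sum_le_card_nsmul S _ (1 / (m : ℝ)) fun p hp => ?_).trans ?_
    · exact one_div_le_one_div_of_le hm (by exact_mod_cast hS p hp)
    · rw [nsmul_eq_mul, mul_one_div, div_le_one hm]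
      exact_mod_cast hc
  rw [sum_add_distrib]
  linarith

theorem walk (hI : IndStmt) {B : Finset ℕ} {D m : ℕ} {K : ℕ → ℕ → Fin ℓ → Fin ℓ → ℝ}
    {φ : ℕ → Fin ℓ → ℝ} {κ κ' L : ℝ} (hB : ∀ p ∈ B, p.Prime ∧ p.Coprime D)
    (hm : ∀ p ∈ B, m ≤ p) (hκ : 0 < κ) (hκ' : 0 ≤ κ') (hmκ : m * κ' ≤ κ) (hL : 1 ≤ L)
    (hBL : rc B ≤ L) (hφ : ∀ n i, 0 < φ n i) (hφp : Function.Periodic φ D)
    (hK : Function.Periodic K D) (hK0 : ∀ n p i j, 0 ≤ K n p i j)
    (G1 : ∀ n, ∀ p ∈ B, ∀ i, ∑ j, K n p i j * φ n j ≤ κ * φ n i)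
    (G2 : ∀ n, ∀ p ∈ B, ∀ p' ∈ B, p' ≠ p → ∀ i,
      ∑ j : Fin ℓ, (if p' ∣ n + j then K n p i j * φ n j else 0) ≤ κ' * φ n i)
    (k : ℕ) : ∀ S ⊆ B, S.card + k ≤ m → ∀ (p0 : ℕ) (i : Fin ℓ) (h : ℕ → ℝ), (∀ n, 0 ≤ h n) →
      Function.Periodic h (D * pd S) →
      ∑ n ∈ range (D * pd B), h n * U B K φ L⁻¹ k S n i ≤
        (8 * κ) ^ k * ∑ n ∈ range (D * pd B), h n * φ n i * pot (S.erase p0) (n + i) := by
  have hL0 : 0 < L := by linarith
  induction k with
  | zero =>
    intro S _ _ p0 i h h0 _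
    rw [pow_zero, one_mul]
    refine sum_le_sum fun n _ => ?_
    rw [U_zero]
    exact le_mul_of_one_le_right (mul_nonneg (h0 n) (hφ n i).le) (one_le_pot _ _)
  | succ k ih =>
    intro S hS hc p0 i h h0 hp
    set c : ℕ → ℝ := fun p => if p ∈ S then 1 else L⁻¹ with hcd
    have c0 : ∀ p, 0 ≤ c p := fun p => by
      simp only [hcd]
      split_ifs <;> positivity
    have g0 : ∀ p x : ℕ, 0 ≤ ch p x + 1 / (p : ℝ) := fun p x =>
      add_nonneg (ch_nonneg p x) (by positivity)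
    have row : ∀ n, ∀ p ∈ B, ∑ j : Fin ℓ,
        K n p i j * φ n j * pot ((insert p S).erase p) (n + j) ≤ 2 * κ * φ n i := by
      intro n p hpB
      have hs : (insert p S).erase p ⊆ S := erase_insert_subset p S
      have h1 : ∑ p' ∈ (insert p S).erase p, ∑ j : Fin ℓ, K n p i j * φ n j * ch p' (n + j) ≤
          m * (κ' * φ n i) := by
        refine (sum_le_card_nsmul _ _ (κ' * φ n i) fun p' hp' => ?_).trans ?_
        · refine le_trans (le_of_eq (sum_congr rfl fun j _ => ?_))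
            (G2 n p hpB p' (hS (hs hp')) (ne_of_mem_erase hp') i)
          unfold ch
          split_ifs <;> simp
        · rw [nsmul_eq_mul]
          refine mul_le_mul_of_nonneg_right ?_ (mul_nonneg hκ' (hφ n i).le)
          exact_mod_cast (card_le_card hs).trans (by omega)
      rw [sum_comm] at h1
      simp only [pot, mul_add, mul_one, sum_add_distrib, mul_sum]
      nlinarith [G1 n p hpB i, hφ n i]
    have step : ∀ p ∈ B, ∑ n ∈ range (D * pd B), ∑ j, h n * (c p * (ch p (n + i) + 1 / p) *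
        K n p i j * U B K φ L⁻¹ k (insert p S) n j) ≤ (8 * κ) ^ k * (2 * κ) *
          (c p * ∑ n ∈ range (D * pd B), h n * φ n i * (ch p (n + i) + 1 / p)) := by
      intro p hpB
      have d1 : D * pd S ∣ D * pd (insert p S) :=
        Nat.mul_dvd_mul_left D (prod_dvd_prod_of_subset _ _ _ (subset_insert p S))
      have d2 : p ∣ D * pd (insert p S) :=
        Dvd.dvd.mul_left (dvd_prod_of_mem (fun q => q) (mem_insert_self p S)) D
      have key : ∀ j : Fin ℓ, _ := fun j => ih (insert p S) (insert_subset hpB hS)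
        (by have := card_insert_le p S; omega) p j
        (fun n => h n * (c p * (ch p (n + i) + 1 / p) * K n p i j))
        (fun n => mul_nonneg (h0 n) (mul_nonneg (mul_nonneg (c0 p) (g0 p _)) (hK0 n p i j)))
        (fun n => by
          simp only [per_dvd hp d1 n, per_dvd hK (dvd_mul_right D _) n, ch_shift d2])
      rw [sum_comm]
      refine (sum_le_sum fun j _ => le_trans (le_of_eq (sum_congr rfl fun n _ => by ring))
        (key j)).trans ?_
      rw [← mul_sum, sum_comm, mul_assoc ((8 * κ) ^ k)]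
      refine mul_le_mul_of_nonneg_left ?_ (by positivity)
      rw [mul_sum, mul_sum]
      refine sum_le_sum fun n _ => ?_
      have := mul_le_mul_of_nonneg_left (row n p hpB)
        (mul_nonneg (h0 n) (mul_nonneg (c0 p) (g0 p (n + i))))
      rw [mul_sum] at this
      refine le_trans (le_of_eq (sum_congr rfl fun j _ => by ring)) (this.trans (le_of_eq ?_))
      ring
    have hX : ∀ n, 0 ≤ h n * φ n i := fun n => mul_nonneg (h0 n) (hφ n i).le
    have hX0 : 0 ≤ ∑ n ∈ range (D * pd B), h n * φ n i := sum_nonneg fun n _ => hX n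
    have new : ∑ p ∈ B \ S, c p * ∑ n ∈ range (D * pd B),
        h n * φ n i * (ch p (n + i) + 1 / p) ≤ 2 * ∑ n ∈ range (D * pd B), h n * φ n i := by
      have e : ∀ p ∈ B \ S, c p * ∑ n ∈ range (D * pd B),
          h n * φ n i * (ch p (n + i) + 1 / p) =
            1 / (p : ℝ) * (L⁻¹ * (2 * ∑ n ∈ range (D * pd B), h n * φ n i)) := by
        intro p hp'
        obtain ⟨hpB, hn⟩ := mem_sdiff.1 hp'
        have d : D * pd S * p ∣ D * pd B := by
          rw [mul_assoc, ← pd_erase hpB]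
          exact Nat.mul_dvd_mul_left D (Nat.mul_dvd_mul_right
            (prod_dvd_prod_of_subset _ _ _ (subset_erase.2 ⟨hS, hn⟩)) p)
        have := hI (D * pd S) p (D * pd B) i (fun n => h n * φ n i)
          (fun n => by simp only [hp n, per_dvd hφp (dvd_mul_right D _) n])
          (cop hB hS hpB hn) (hB p hpB).1.pos d
        simp only [hcd, if_neg hn, mul_add, sum_add_distrib, ch]
        rw [this, ← sum_mul]
        ring
      rw [sum_congr rfl e, ← sum_mul, ← mul_assoc]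
      refine mul_le_of_le_one_left (by positivity) ?_
      rw [← div_eq_mul_inv, div_le_one hL0]
      exact (sum_le_sum_of_subset_of_nonneg sdiff_subset fun _ _ _ => by positivity).trans hBL
    have old : ∑ p ∈ S, c p * ∑ n ∈ range (D * pd B), h n * φ n i * (ch p (n + i) + 1 / p) ≤
        ∑ n ∈ range (D * pd B), h n * φ n i * (1 + pot (S.erase p0) (n + i)) := by
      rw [sum_congr rfl fun p hp' => by rw [show c p = 1 from if_pos hp', one_mul], sum_comm]
      refine sum_le_sum fun n _ => ?_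
      rw [← mul_sum]
      exact mul_le_mul_of_nonneg_left
        (old_le (fun p hp' => hm p (hS hp')) (by omega) p0 _) (hX n)
    have hY : ∑ n ∈ range (D * pd B), h n * φ n i ≤
        ∑ n ∈ range (D * pd B), h n * φ n i * pot (S.erase p0) (n + i) :=
      sum_le_sum fun n _ => le_mul_of_one_le_right (hX n) (one_le_pot _ _)
    simp only [U_succ, mul_sum (s := B), mul_sum (s := univ)]
    rw [sum_comm]
    refine (sum_le_sum step).trans ?_
    rw [← mul_sum, ← sum_sdiff hS, pow_succ, mul_assoc ((8 * κ) ^ k), mul_assoc ((8 * κ) ^ k)]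
    refine mul_le_mul_of_nonneg_left ?_ (by positivity)
    simp only [mul_add _ (1 : ℝ), mul_one, sum_add_distrib] at old
    nlinarith

end Tr

open Tr in
theorem tr (hP : PowStmt) (hI : IndStmt) : TrStmt := by
  intro ℓ s D B K φ κ κ' L hB hs hℓ hκ hκ' hmκ hL hBL hφ hφp hK hK0 hsym hdv G1 G2
  have hB' : ∀ p ∈ B, p.Prime ∧ p.Coprime D := fun p hp => ⟨(hB p hp).1, (hB p hp).2.1⟩
  have hL0 : 0 < √L := Real.sqrt_pos.2 (by linarith)
  set ρ := 16 * κ * √L with hρ
  have ρ0 : 0 < ρ := by positivity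
  set F : ℕ → ℝ := fun n => ∑ i, φ n i ^ 2 with hFd
  have F0 : ∀ n, 0 ≤ F n := fun n => sum_nonneg fun i _ => sq_nonneg _
  have Fp : Function.Periodic F D := fun n => by simp only [hFd, hφp n]
  have sym : ∀ n, (∑ p ∈ B, Ap K n p).IsSymm := by
    intro n
    refine Matrix.IsSymm.ext fun i j => ?_
    simp only [Matrix.sum_apply, Ap, Matrix.of_apply]
    refine sum_congr rfl fun p _ => ?_
    rw [hsym n p j i]
    by_cases h : K n p i j = 0
    · simp [h]
    · simp only [cp, hdv n p i j h]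
  have hGA : ∀ n p i j, |Ap K n p i j| ≤ Gp K n p i j := fun n p i j => by
    simp only [Ap, Gp, Matrix.of_apply]
    rw [abs_mul, abs_of_nonneg (hK0 n p i j)]
    exact mul_le_mul_of_nonneg_left (abs_cp_le p _) (hK0 n p i j)
  have c0 : ∀ l, 0 ≤ coef L⁻¹ ∅ l := fun l => by
    rw [coef_eq]
    have : 0 < L := by linarith
    positivity
  have one : ∀ l ∈ Ls B (2 ^ s),
      ∑ n ∈ range (D * pd B), F n * (l.map (Ap K n)).prod.trace ≤
        ∑ n ∈ range (D * pd B), ∑ i, √L ^ 2 ^ s * (F n / φ n i *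
          (coef L⁻¹ ∅ l * ∑ j, (l.map (Gp K n)).prod i j * φ n j)) := by
    intro l hl
    obtain ⟨h1, h2⟩ := mem_Ls hl
    have G0 : ∀ n i j, 0 ≤ (l.map (Gp K n)).prod i j * φ n j := fun n i j =>
      mul_nonneg ((abs_nonneg _).trans (abs_prod_le (hGA n) l i j)) (hφ n j).le
    by_cases h : ∀ p ∈ l, 2 ≤ l.count p
    · refine sum_le_sum fun n _ => ?_
      rw [Matrix.trace, mul_sum]
      refine sum_le_sum fun i _ => ?_
      have a1 := (le_abs_self _).trans (abs_prod_le (hGA n) l i i)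
      have a0 := (abs_nonneg _).trans (abs_prod_le (hGA n) l i i)
      have a2 := single_le_sum (f := fun j => (l.map (Gp K n)).prod i j * φ n j)
        (fun j _ => G0 n i j) (mem_univ i)
      have a3 := one_le_coef hL h
      rw [h1] at a3
      have a4 : (l.map (Gp K n)).prod i i ≤
          (∑ j, (l.map (Gp K n)).prod i j * φ n j) / φ n i := (le_div_iff₀ (hφ n i)).2 a2
      calc F n * (l.map (Ap K n)).prod.diag i
          ≤ F n * (1 * ((∑ j, (l.map (Gp K n)).prod i j * φ n j) / φ n i)) :=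
            mul_le_mul_of_nonneg_left (by rw [one_mul]; exact a1.trans a4) (F0 n)
        _ ≤ F n * (√L ^ 2 ^ s * coef L⁻¹ ∅ l *
            ((∑ j, (l.map (Gp K n)).prod i j * φ n j) / φ n i)) :=
            mul_le_mul_of_nonneg_left (mul_le_mul_of_nonneg_right a3 (a0.trans a4)) (F0 n)
        _ = _ := by ring
    · simp only [not_forall] at h
      obtain ⟨p, hp, h⟩ := h
      obtain ⟨l1, l2, e, n1, n2⟩ := split_of_count hp h
      have z := lonely hI hB' hK Fp (l1 := l1) (l2 := l2) (h2 p hp)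
        (fun q hq => mem_erase.2 ⟨fun e' => n1 (e' ▸ hq), h2 q (by simp [e, hq])⟩)
        (fun q hq => mem_erase.2 ⟨fun e' => n2 (e' ▸ hq), h2 q (by simp [e, hq])⟩)
      rw [← e] at z
      rw [z]
      exact sum_nonneg fun n _ => sum_nonneg fun i _ => mul_nonneg (by positivity)
        (mul_nonneg (div_nonneg (F0 n) (hφ n i).le)
          (mul_nonneg (c0 l) (sum_nonneg fun j _ => G0 n i j)))
  have tot : ∑ n ∈ range (D * pd B), F n * ((∑ p ∈ B, Ap K n p) ^ 2 ^ s).trace ≤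
      ρ ^ 2 ^ s * ∑ n ∈ range (D * pd B), F n := by
    simp only [pow_eq, Matrix.trace_sum, mul_sum (s := Ls B _)]
    rw [sum_comm]
    refine (sum_le_sum one).trans ?_
    rw [sum_comm]
    have e : ∀ n, ∑ l ∈ Ls B (2 ^ s), ∑ i, √L ^ 2 ^ s * (F n / φ n i *
        (coef L⁻¹ ∅ l * ∑ j, (l.map (Gp K n)).prod i j * φ n j)) =
        ∑ i, √L ^ 2 ^ s * (F n / φ n i * U B K φ L⁻¹ (2 ^ s) ∅ n i) := by
      intro n
      rw [sum_comm]
      simp only [U, mul_sum (s := Ls B _)]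
    simp only [e]
    rw [sum_comm]
    refine (sum_le_card_nsmul _ _
      (√L ^ 2 ^ s * ((8 * κ) ^ 2 ^ s * ∑ n ∈ range (D * pd B), F n)) fun i _ => ?_).trans ?_
    · rw [← mul_sum]
      refine mul_le_mul_of_nonneg_left ?_ (by positivity)
      refine (walk hI hB' (fun p hp => (hB p hp).2.2) hκ hκ' (by exact_mod_cast hmκ) hL hBL hφ
        hφp hK hK0 G1 G2 (2 ^ s) ∅ (empty_subset B) (by simp) 0 i (fun n => F n / φ n i)
        (fun n => div_nonneg (F0 n) (hφ n i).le) (fun n => ?_)).trans (le_of_eq ?_)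
      · simp only [pd, prod_empty, mul_one, Fp n, hφp n]
      · congr 1
        refine sum_congr rfl fun n _ => ?_
        simp [pot, (hφ n i).ne']
    · rw [nsmul_eq_mul, card_univ, Fintype.card_fin, ← mul_assoc, ← mul_assoc]
      refine mul_le_mul_of_nonneg_right ?_ (sum_nonneg fun n _ => F0 n)
      have e : ρ = 2 * √L * (8 * κ) := by rw [hρ]; ring
      rw [e, mul_pow (2 * √L), mul_pow 2 √L]
      gcongr
      exact_mod_cast hℓ
  refine ⟨fun n => F n * (ρ + ((∑ p ∈ B, Ap K n p) ^ 2 ^ s).trace / ρ ^ (2 ^ s - 1)),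
    fun n => ?_, ?_, fun n f hf => ?_⟩
  · have : ∑ p ∈ B, Ap K (n + D * pd B) p = ∑ p ∈ B, Ap K n p :=
      sum_congr rfl fun p hp => Ap_shift (per_dvd hK (dvd_mul_right D _))
        (Dvd.dvd.mul_left (dvd_prod_of_mem (fun q => q) hp) D) n
    simp only [this, per_dvd Fp (dvd_mul_right D _) n]
  · simp only [mul_add, sum_add_distrib, ← mul_div_assoc]
    rw [← sum_mul, ← sum_div]
    have e : ρ ^ 2 ^ s = ρ * ρ ^ (2 ^ s - 1) := by
      rw [← pow_succ', Nat.sub_add_cancel Nat.one_le_two_pow]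
    have : (∑ n ∈ range (D * pd B), F n * ((∑ p ∈ B, Ap K n p) ^ 2 ^ s).trace) /
        ρ ^ (2 ^ s - 1) ≤ ρ * ∑ n ∈ range (D * pd B), F n := by
      rw [div_le_iff₀ (by positivity)]
      exact tot.trans (le_of_eq (by rw [e]; ring))
    rw [hρ] at this ⊢
    linarith
  · have h1 := hP ℓ s _ f ρ (sym n) ρ0 hs
    have h2 := (abs_nonneg _).trans (hP ℓ s _ (φ n) ρ (sym n) ρ0 hs)
    have h3 : ∑ i, f i ^ 2 ≤ F n := sum_le_sum fun i _ => sq_le_sq' (abs_le.1 (hf i)).1
      (abs_le.1 (hf i)).2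
    have h4 : 0 ≤ ∑ i, f i ^ 2 := sum_nonneg fun i _ => sq_nonneg _
    simp only [Matrix.sum_apply, Ap, Matrix.of_apply] at h1
    refine h1.trans ?_
    change 0 ≤ F n * _ at h2
    by_cases h : 0 ≤ ρ + ((∑ p ∈ B, Ap K n p) ^ 2 ^ s).trace / ρ ^ (2 ^ s - 1)
    · exact mul_le_mul_of_nonneg_right h3 h
    · exact (mul_nonpos_of_nonneg_of_nonpos h4 (not_le.1 h).le).trans h2

end Pool.Agent.MP_ca0a54_nt.SC.CT
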