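import Pool.Agent.MP_ca0a54_nt.SC.SpecT

/-! The bound for the triple sum. -/

open Filter Finset

namespace Pool.Agent.MP_ca0a54_nt.SC.CT

namespace TriA

theorem tm_nonneg {β : ℝ} (hβ : 0 ≤ β) (E : Finset ℕ) : 0 ≤ β ^ E.card / (pd E : ℝ) := by
  positivity

theorem Fw_nonneg (A : Finset ℕ) {β : ℝ} (hβ : 0 ≤ β) (y z : ℝ) : 0 ≤ Fw A β y z :=
  sum_nonneg fun E _ => by
    split_ifs
    · exact tm_nonneg hβ E
    · exact le_rfl

theorem Fw_small {A : Finset ℕ} {t : ℝ} (hA : ∀ q ∈ A, t < Real.log q) (β y : ℝ) {z : ℝ}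
    (hz : z ≤ t) : Fw A β y z ≤ if y ≤ 0 then 1 else 0 := by
  rw [Fw, sum_eq_single_of_mem ∅ (empty_mem_powerset A)]
  · simp only [ll, pd, sum_empty, card_empty, pow_zero, prod_empty, Nat.cast_one, div_one]
    split_ifs with h1 h2
    · exact le_rfl
    · exact absurd h1.1 h2
    · exact zero_le_one
    · exact le_rfl
  · intro E hE hne
    obtain ⟨q, hq⟩ := nonempty_iff_ne_empty.2 hne
    have h1 : Real.log q ≤ ll E :=
      single_le_sum (f := fun q : ℕ => Real.log q) (fun q _ => Real.log_natCast_nonneg q) hq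
    have h2 := hA q (mem_powerset.1 hE hq)
    rw [if_neg fun h => by linarith [h.2]]

theorem rc_split (A : Finset ℕ) (z : ℝ) : rc (A.filter fun q : ℕ => Real.log q ≤ z) =
    rc A - rc (A.filter fun q : ℕ => z < Real.log q) := by
  have h := sum_filter_add_sum_filter_not A (fun q : ℕ => Real.log q ≤ z) fun q => 1 / (q : ℝ)
  simp only [not_le] at h
  unfold rc
  linarith

theorem sum_sqrt (m : ℕ) : ∑ j ∈ range m, 1 / √((j : ℝ) + 2) ≤ 2 * √((m : ℝ) + 1) := by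
  induction m with
  | zero => simp
  | succ m ih =>
    rw [sum_range_succ]
    have ha : 0 < √((m : ℝ) + 2) := Real.sqrt_pos.2 (by positivity)
    have h1 := Real.sq_sqrt (show (0 : ℝ) ≤ m + 2 by positivity)
    have h2 := Real.sq_sqrt (show (0 : ℝ) ≤ m + 1 by positivity)
    have h3 : 1 / √((m : ℝ) + 2) ≤ 2 * (√((m : ℝ) + 2) - √((m : ℝ) + 1)) := by
      rw [div_le_iff₀ ha]
      nlinarith [sq_nonneg (√((m : ℝ) + 2) - √((m : ℝ) + 1))]
    rw [show ((m + 1 : ℕ) : ℝ) + 1 = m + 2 by push_cast; ring]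
    linarith

variable {D t : ℝ} {A : Finset ℕ}

theorem big (hD : 0 < D) (ht : 1 ≤ t) (ht' : D ^ 3 ≤ t) (h : Nice D t A) {c : ℝ} (hc : 3 / 2 ≤ c) :
    t ^ 4 ≤ Real.exp (c * rc A) := by
  have h1 := h.2.2 t le_rfl
  rw [filter_true_of_mem fun q hq => ((h.1 q).1 hq).2.1] at h1
  have ht0 : 0 < t := by linarith
  have h2 : t ^ 3 ≤ D * Real.exp (rc A) := by
    rw [Real.exp_neg, show D * t / t ^ 4 = D / t ^ 3 by field_simp, inv_eq_one_div,
      div_le_div_iff₀ (Real.exp_pos _) (by positivity), one_mul] at h1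
    exact h1
  have h3 : (t ^ 3) ^ 3 ≤ (D * Real.exp (rc A)) ^ 3 := pow_le_pow_left₀ (by positivity) h2 3
  have h4 : Real.exp (rc A) ^ 3 = Real.exp (3 / 2 * rc A) ^ 2 := by
    rw [← Real.exp_nat_mul, ← Real.exp_nat_mul]
    congr 1
    push_cast
    ring
  rw [mul_pow, h4] at h3
  have h5 : (t ^ 4) ^ 2 ≤ Real.exp (3 / 2 * rc A) ^ 2 := by
    have h6 : t * (t ^ 4) ^ 2 ≤ t * Real.exp (3 / 2 * rc A) ^ 2 := by
      have := mul_le_mul_of_nonneg_right ht' (sq_nonneg (Real.exp (3 / 2 * rc A)))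
      calc t * (t ^ 4) ^ 2 = (t ^ 3) ^ 3 := by ring
        _ ≤ _ := h3.trans this
    exact le_of_mul_le_mul_left h6 ht0
  refine (pow_le_pow_iff_left₀ (by positivity) (Real.exp_pos _).le two_ne_zero).1 h5 |>.trans ?_
  exact Real.exp_le_exp.2 (mul_le_mul_of_nonneg_right hc (rc_nonneg A))

theorem one_le (h : Nice D t A) : ∀ q ∈ A, 1 ≤ q := fun q hq => ((h.1 q).1 hq).1.one_le

theorem unit_win (hL : LocStmt) (hD : 0 < D) (ht : 2 ≤ t) (ht' : D ^ 3 ≤ t) (h : Nice D t A)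
    {α : ℝ} (hα : 2 ≤ α) (u : ℝ) :
    Fw A α u (u + 1) ≤ (1 + 2 * α * D * (1 + D)) * (Real.exp (α * rc A) / t ^ 4) := by
  have hV : 0 < t ^ 4 := by positivity
  have hE : 0 ≤ Real.exp (α * rc A) / t ^ 4 := by positivity
  have hK : 0 ≤ 2 * α * D * (1 + D) := by positivity
  rcases le_or_gt (u + 1) t with hu | hu
  · have h1 := Fw_small (fun q hq => ((h.1 q).1 hq).2.1) α u hu
    have h2 : 1 ≤ Real.exp (α * rc A) / t ^ 4 :=
      (one_le_div hV).2 (big hD (by linarith) ht' h (by linarith))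
    have h3 : Fw A α u (u + 1) ≤ 1 := h1.trans (by split_ifs <;> norm_num)
    nlinarith
  · have h1 := hL A α D u (u + 1) (one_le h) (by linarith) (by linarith) h.2.1
    have h2 := h.2.2 (u + 1) hu.le
    have h3 := rc_nonneg (A.filter fun q : ℕ => u + 1 < Real.log q)
    rw [rc_split, mul_sub, sub_eq_add_neg (α * rc A), Real.exp_add, add_sub_cancel_left] at h1
    generalize rc (A.filter fun q : ℕ => u + 1 < Real.log q) = τ at h1 h2 h3
    have hu0 : 0 < u := by linarith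
    have h4 : Real.exp (-(α * τ)) ≤ 2 * D * u / t ^ 4 := by
      refine (Real.exp_le_exp.2 (by nlinarith)).trans (h2.trans ?_)
      exact div_le_div_of_nonneg_right (by nlinarith) hV.le
    have h5 : u * Fw A α u (u + 1) ≤
        u * (2 * α * D * (1 + D) * (Real.exp (α * rc A) / t ^ 4)) := by
      refine h1.trans ((mul_le_mul_of_nonneg_left (mul_le_mul_of_nonneg_left h4
        (Real.exp_pos _).le) (by positivity)).trans_eq ?_)
      ring
    have h6 := le_of_mul_le_mul_left h5 hu0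
    nlinarith

theorem sq_win (hL : LocStmt) (hD : 0 < D) (ht : 6 ≤ t) (h : Nice D t A) {θ : ℝ}
    (h0 : 3 / 4 ≤ θ) (h1 : θ ≤ 1) (j : ℕ) :
    Fw A θ (j - 1) (j + 2) ^ 2 ≤ (if j ≤ 1 then 1 else 0) + 4 * (3 + D) ^ 2 *
      Real.exp (2 * θ * rc A) * (D / t ^ 4 * √(D / t ^ 4)) * (1 / √((j : ℝ) + 2)) := by
  have hF := Fw_nonneg A (show 0 ≤ θ by linarith) (j - 1) (j + 2)
  have hV : 0 < t ^ 4 := by positivity
  rcases le_or_gt ((j : ℝ) + 2) t with hu | hu
  · have h2 := Fw_small (fun q hq => ((h.1 q).1 hq).2.1) θ (j - 1) hu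
    refine le_add_of_le_of_nonneg ?_ (by positivity)
    by_cases hj : j ≤ 1
    · rw [if_pos hj]
      exact pow_le_one₀ hF (h2.trans (by split_ifs <;> norm_num))
    · have h3 : (2 : ℝ) ≤ j := by exact_mod_cast (by omega : 2 ≤ j)
      rw [if_neg (by linarith)] at h2
      rw [if_neg hj, le_antisymm h2 hF]
      norm_num
  · refine le_add_of_nonneg_of_le (by split_ifs <;> norm_num) ?_
    have h2 := hL A θ D (j - 1) (j + 2) (one_le h) (by linarith) (by linarith) h.2.1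
    have h3 := h.2.2 (j + 2) hu.le
    have h4 := rc_nonneg (A.filter fun q : ℕ => (j : ℝ) + 2 < Real.log q)
    rw [rc_split] at h2
    generalize rc (A.filter fun q : ℕ => (j : ℝ) + 2 < Real.log q) = τ at h2 h3 h4
    generalize Fw A θ (j - 1) (j + 2) = F at h2 hF
    obtain ⟨s, hs, hs2⟩ : ∃ s : ℝ, 0 < s ∧ s ^ 2 = j + 2 :=
      ⟨√((j : ℝ) + 2), Real.sqrt_pos.2 (by positivity), Real.sq_sqrt (by positivity)⟩
    obtain ⟨g, hg, hg2⟩ : ∃ g : ℝ, 0 < g ∧ g ^ 2 = D / t ^ 4 :=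
      ⟨√(D / t ^ 4), Real.sqrt_pos.2 (by positivity), Real.sq_sqrt (by positivity)⟩
    rw [mul_comm D, mul_div_assoc, ← hs2, ← hg2, ← mul_pow] at h3
    rw [← hs2, ← hg2, Real.sqrt_sq hs.le, Real.sqrt_sq hg.le]
    have h5 : Real.exp (-τ / 2) ≤ s * g := by
      refine (pow_le_pow_iff_left₀ (Real.exp_pos _).le (by positivity) two_ne_zero).1 ?_
      rw [← Real.exp_nat_mul]
      refine le_trans (le_of_eq ?_) h3
      congr 1
      push_cast
      ring
    have h6 : Real.exp (θ * (rc A - τ)) ^ 2 ≤ Real.exp (2 * θ * rc A) * (s * g) ^ 3 := by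
      refine le_trans ?_ (mul_le_mul_of_nonneg_left
        (pow_le_pow_left₀ (Real.exp_pos _).le h5 3) (Real.exp_pos _).le)
      rw [← Real.exp_nat_mul, ← Real.exp_nat_mul, ← Real.exp_add, Real.exp_le_exp]
      push_cast
      nlinarith
    have h7 : s ^ 2 * F ≤ 2 * (3 + D) * Real.exp (θ * (rc A - τ)) := by
      have h8 : θ * ((j : ℝ) + 2 - (j - 1) + D) ≤ 3 + D := by nlinarith
      have h9 := mul_le_mul_of_nonneg_right h8 (Real.exp_pos (θ * (rc A - τ))).le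
      have h10 : s ^ 2 * F ≤ 2 * (j - 1) * F := mul_le_mul_of_nonneg_right (by linarith) hF
      linarith
    have h8 := pow_le_pow_left₀ (by positivity) h7 2
    have h9 : s ^ 4 * F ^ 2 ≤ s ^ 4 * (4 * (3 + D) ^ 2 * Real.exp (2 * θ * rc A) * (g ^ 2 * g) *
        (1 / s)) := by
      calc s ^ 4 * F ^ 2 = (s ^ 2 * F) ^ 2 := by ring
        _ ≤ 4 * (3 + D) ^ 2 * Real.exp (θ * (rc A - τ)) ^ 2 := h8.trans_eq (by ring)
        _ ≤ 4 * (3 + D) ^ 2 * (Real.exp (2 * θ * rc A) * (s * g) ^ 3) :=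
          mul_le_mul_of_nonneg_left h6 (by positivity)
        _ = _ := by field_simp
    exact le_of_mul_le_mul_left h9 (by positivity)

theorem sum_win (hL : LocStmt) (hD : 0 < D) (ht : 6 ≤ t) (ht' : D ^ 3 ≤ t) (h : Nice D t A)
    {θ : ℝ} (h0 : 3 / 4 ≤ θ) (h1 : θ ≤ 1) :
    ∑ j ∈ range (⌊t ^ 4 + 1⌋₊ + 1), Fw A θ (j - 1) (j + 2) ^ 2 ≤
      (2 + 16 * (3 + D) ^ 2 * (D * √D)) * (Real.exp (2 * θ * rc A) / t ^ 4) := by
  have hV : 1 ≤ t ^ 4 := one_le_pow₀ (by linarith)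
  refine (sum_le_sum fun j _ => sq_win hL hD ht h h0 h1 j).trans ?_
  rw [sum_add_distrib, ← mul_sum, add_mul]
  refine add_le_add ?_ ?_
  · have h2 : 1 ≤ Real.exp (2 * θ * rc A) / t ^ 4 :=
      (one_le_div (by linarith)).2 (big hD (by linarith) ht' h (by linarith))
    rw [sum_boole]
    have h3 : ((range (⌊t ^ 4 + 1⌋₊ + 1)).filter fun j => j ≤ 1).card ≤ (range 2).card :=
      card_le_card fun j hj => mem_range.2 (by have := (mem_filter.1 hj).2; omega)
    have h4 : (((range (⌊t ^ 4 + 1⌋₊ + 1)).filter fun j => j ≤ 1).card : ℝ) ≤ 2 := by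
      rw [card_range] at h3
      exact_mod_cast h3
    linarith
  · have h2 := sum_sqrt (⌊t ^ 4 + 1⌋₊ + 1)
    have h3 : √(((⌊t ^ 4 + 1⌋₊ + 1 : ℕ) : ℝ) + 1) ≤ 2 * t ^ 2 := by
      rw [Real.sqrt_le_left (by positivity)]
      have := Nat.floor_le (show 0 ≤ t ^ 4 + 1 by positivity)
      push_cast
      nlinarith
    have h4 : √(D / t ^ 4) = √D / t ^ 2 := by
      rw [Real.sqrt_div hD.le, show t ^ 4 = (t ^ 2) ^ 2 by ring, Real.sqrt_sq (by positivity)]
    refine (mul_le_mul_of_nonneg_left (h2.trans (mul_le_mul_of_nonneg_left h3 zero_le_two))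
      (by positivity)).trans_eq ?_
    have : t ≠ 0 := by linarith
    rw [h4]
    field_simp
    ring

theorem tri_le (A : Finset ℕ) {α θ y V M : ℝ} (hα : 0 ≤ α) (hθ : 0 ≤ θ) (hy : y ≤ V)
    (hM : ∀ u, Fw A α u (u + 1) ≤ M) :
    Tri A α θ y ≤ M * ∑ j ∈ range (⌊V + 1⌋₊ + 1), Fw A θ (j - 1) (j + 2) ^ 2 := by
  have hM0 : 0 ≤ M := (Fw_nonneg A hα _ _).trans (hM 0)
  let b : ℕ → Finset ℕ → ℝ := fun j X =>
    if (j : ℝ) - 1 ≤ ll X ∧ ll X ≤ j + 2 then θ ^ X.card / pd X else 0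
  have hb : ∀ j X, 0 ≤ b j X := fun j X => by
    simp only [b]
    split_ifs
    · exact tm_nonneg hθ X
    · exact le_rfl
  have e : ∑ j ∈ range (⌊V + 1⌋₊ + 1), Fw A θ (j - 1) (j + 2) ^ 2 =
      ∑ X ∈ A.powerset, ∑ Y ∈ A.powerset, ∑ j ∈ range (⌊V + 1⌋₊ + 1), b j X * b j Y := by
    simp only [sq, Fw, sum_mul_sum]
    rw [sum_comm]
    exact sum_congr rfl fun X _ => sum_comm
  rw [e, Tri, sum_comm, mul_sum]
  refine sum_le_sum fun X _ => ?_
  rw [sum_comm, mul_sum]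
  refine sum_le_sum fun Y _ => ?_
  have hS : 0 ≤ ∑ j ∈ range (⌊V + 1⌋₊ + 1), b j X * b j Y :=
    sum_nonneg fun j _ => mul_nonneg (hb j X) (hb j Y)
  refine le_trans ?_ (mul_le_mul_of_nonneg_right (hM (y - ll X)) hS)
  rw [Fw, sum_mul]
  refine sum_le_sum fun G _ => ?_
  split_ifs with h1 h2 h2
  · rw [mul_assoc]
    refine mul_le_mul_of_nonneg_left ?_ (tm_nonneg hα G)
    have a1 := ll_nonneg G
    have a2 := Nat.floor_le (ll_nonneg X)
    have a3 := Nat.lt_floor_add_one (ll X)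
    have a4 : ⌊ll X⌋₊ ∈ range (⌊V + 1⌋₊ + 1) :=
      mem_range.2 (Nat.lt_add_one_of_le (Nat.floor_le_floor (by linarith [h1.1.2])))
    refine le_trans (le_of_eq ?_) (single_le_sum (f := fun j => b j X * b j Y)
      (fun j _ => mul_nonneg (hb j X) (hb j Y)) a4)
    simp only [b]
    rw [if_pos ⟨by linarith, by linarith⟩,
      if_pos ⟨by linarith [h1.1.2, h1.2.1], by linarith [h1.1.1, h1.2.2]⟩]
  · exact absurd ⟨by linarith [h1.1.1], by linarith [h1.1.2]⟩ h2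
  · exact mul_nonneg (tm_nonneg hα G) hS
  · rw [zero_mul]

end TriA

open TriA in
theorem tri : LocStmt → TriStmt := by
  intro hL α D hα
  by_cases hD : 0 < D
  · refine ⟨(1 + 2 * α * D * (1 + D)) * (2 + 16 * (3 + D) ^ 2 * (D * √D)), by positivity, ?_⟩
    filter_upwards [eventually_ge_atTop 6, eventually_ge_atTop (D ^ 3)] with t ht ht' A θ y h h0 h1
      hy
    refine (tri_le A (by linarith) (by linarith) hy
      (unit_win hL hD (by linarith) ht' h hα)).trans ?_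
    refine (mul_le_mul_of_nonneg_left (sum_win hL hD ht ht' h h0 h1) (by positivity)).trans_eq ?_
    rw [add_mul α, Real.exp_add]
    ring
  · refine ⟨0, le_rfl, ?_⟩
    filter_upwards [eventually_gt_atTop 0] with t ht A θ y h _ _ _
    have h1 := (Real.exp_pos _).trans_le (h.2.2 t le_rfl)
    have h2 : D * t / t ^ 4 ≤ 0 :=
      div_nonpos_of_nonpos_of_nonneg (mul_nonpos_of_nonpos_of_nonneg (not_lt.1 hD) ht.le)
        (by positivity)
    exact absurd h1 h2.not_gt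

end Pool.Agent.MP_ca0a54_nt.SC.CT
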