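import Pool.Agent.MP_ca0a54_nt.SC.TBest
import Pool.Agent.MP_ca0a54_nt.SC.TCol
import Pool.Agent.MP_ca0a54_nt.SC.TCore
import Pool.Agent.MP_ca0a54_nt.SC.TExp
import Pool.Agent.MP_ca0a54_nt.SC.TGood
import Pool.Agent.MP_ca0a54_nt.SC.THyp
import Pool.Agent.MP_ca0a54_nt.SC.TInd
import Pool.Agent.MP_ca0a54_nt.SC.TKer
import Pool.Agent.MP_ca0a54_nt.SC.TLoc
import Pool.Agent.MP_ca0a54_nt.SC.TLow
import Pool.Agent.MP_ca0a54_nt.SC.TNice
import Pool.Agent.MP_ca0a54_nt.SC.TPin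
import Pool.Agent.MP_ca0a54_nt.SC.TPow
import Pool.Agent.MP_ca0a54_nt.SC.TRem
import Pool.Agent.MP_ca0a54_nt.SC.TSld
import Pool.Agent.MP_ca0a54_nt.SC.TTr
import Pool.Agent.MP_ca0a54_nt.SC.TTri

/-! The expansion estimate. -/

namespace Pool.Agent.MP_ca0a54_nt.SC.CT

theorem core : SC.CoreStmt :=
  coreOf (est (sld (ker (tr pow ind)) (modl ind) per) (rem ind (modl ind) per) (hyp cond bm)
    (best (bad cond col) pinTwo pinThree del (sec (expd cond) (tri loc)) nice (hyp cond bm)))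
    (massl (low wn) nice bm) (good wn) (hyp cond bm)

end Pool.Agent.MP_ca0a54_nt.SC.CT
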