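import Pool.Agent.MP_ca0a54_nt.SC.Spec

/-! The lemma of Wiener for the correlations of the Liouville function. -/

open Complex MeasureTheory Filter Topology

namespace Pool.Agent.MP_ca0a54_nt.SC.WIEN

open Pool.Agent.MP_ca0a54_nt.BH

open Finset

/-- A trigonometric polynomial with real coefficients. -/
noncomputable def tp {ι : Type} (I : Finset ι) (u : ι → ℝ) (f : ι → ℕ) (α : ℝ) : ℂ :=
  ∑ i ∈ I, (u i : ℂ) * ei (2 * Real.pi * α * f i)

/-- The short sum with the phase starting at `n`. -/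
noncomputable def S (K : ℕ) (α : ℝ) (n : ℕ) : ℂ := tp (range K) (fun j => lam (n + j)) id α

/-- The mean square of the short sums. -/
noncomputable def Ph (K : ℕ) (N : ℕ) (α : ℝ) : ℝ := LS N fun n => ‖S K α n‖ ^ 2

theorem ei_pow (x : ℝ) (a : ℕ) : ei x ^ a = ei (a * x) := by
  rw [ei, ei, ← exp_nat_mul]
  congr 1
  push_cast
  ring

theorem orth {M f g : ℕ} (hf : f < M) (hg : g < M) :
    ∑ a ∈ range M, ei (2 * Real.pi * ((a : ℝ) / M) * f) *
      (starRingEnd ℂ) (ei (2 * Real.pi * ((a : ℝ) / M) * g)) = if f = g then (M : ℂ) else 0 := by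
  have hM : (0 : ℝ) < M := by exact_mod_cast (Nat.zero_le f).trans_lt hf
  have e : ∀ a : ℕ, ei (2 * Real.pi * ((a : ℝ) / M) * f) *
      (starRingEnd ℂ) (ei (2 * Real.pi * ((a : ℝ) / M) * g)) =
      ei (2 * Real.pi * (((f : ℝ) - g) / M)) ^ a := fun a => by
    rw [conj_ei, ← ei_add, ei_pow]
    congr 1
    ring
  simp_rw [e]
  split_ifs with h
  · simp [h, ei_zero]
  · have h1 : ei (2 * Real.pi * (((f : ℝ) - g) / M)) ≠ 1 := by
      intro h1
      obtain ⟨n, hn⟩ := exp_eq_one_iff.1 h1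
      have h2 := congrArg im hn
      simp only [mul_im, I_re, ofReal_im, mul_zero, I_im, ofReal_re, one_mul, zero_add,
        intCast_re, intCast_im, zero_mul, add_zero, re_ofNat, im_ofNat, mul_re, sub_zero,
        mul_one] at h2
      have h3 : (f : ℝ) - g = n * M := by
        have := Real.pi_pos
        field_simp at h2
        linarith
      have h4 : (f : ℤ) - g = n * M := by exact_mod_cast h3
      rcases lt_trichotomy n 0 with h5 | h5 | h5
      · nlinarith
      · rw [h5] at h4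
        omega
      · nlinarith
    have h2 : ei (2 * Real.pi * (((f : ℝ) - g) / M)) ^ M = 1 := by
      rw [ei_pow, ei, exp_eq_one_iff]
      refine ⟨(f : ℤ) - g, ?_⟩
      have : (M : ℂ) ≠ 0 := by exact_mod_cast hM.ne'
      push_cast
      field_simp
    rw [geom_sum_eq h1, h2, sub_self, zero_div]

theorem pars {ι κ : Type} {M : ℕ} (I : Finset ι) (J : Finset κ) (u : ι → ℝ) (w : κ → ℝ)
    (f : ι → ℕ) (g : κ → ℕ) (hf : ∀ i ∈ I, f i < M) (hg : ∀ l ∈ J, g l < M) :
    ∑ a ∈ range M, tp I u f (a / M) * (starRingEnd ℂ) (tp J w g (a / M)) =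
      ((M * ∑ l ∈ J, ∑ i ∈ I, if f i = g l then u i * w l else 0 : ℝ) : ℂ) := by
  simp only [tp, map_sum, sum_mul_sum, map_mul, conj_ofReal]
  rw [sum_comm, sum_comm (s := J), mul_sum, ofReal_sum]
  refine sum_congr rfl fun i hi => ?_
  rw [sum_comm, mul_sum, ofReal_sum]
  refine sum_congr rfl fun l hl => ?_
  simp_rw [mul_mul_mul_comm (u i : ℂ) _ (w l : ℂ)]
  rw [← mul_sum, orth (hf i hi) (hg l hl)]
  split_ifs <;> push_cast <;> ring

theorem pars_sq {M : ℕ} (I : Finset ℕ) (u : ℕ → ℝ) (hf : ∀ i ∈ I, i < M) :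
    ∑ a ∈ range M, ‖tp I u id (a / M)‖ ^ 2 = M * ∑ i ∈ I, u i ^ 2 := by
  have h := pars I I u u id id hf hf
  simp only [mul_conj, normSq_eq_norm_sq, id, sum_ite_eq'] at h
  rw [← ofReal_sum, ofReal_inj] at h
  rw [h]
  congr 1
  exact sum_congr rfl fun i hi => by rw [if_pos hi, sq]

theorem tp_mul {ι κ : Type} (I : Finset ι) (J : Finset κ) (u : ι → ℝ) (w : κ → ℝ)
    (f : ι → ℕ) (g : κ → ℕ) (α : ℝ) : tp I u f α * tp J w g α =
      tp (I ×ˢ J) (fun x => u x.1 * w x.2) (fun x => f x.1 + g x.2) α := by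
  rw [tp, tp, tp, sum_mul_sum, sum_product]
  refine sum_congr rfl fun i _ => sum_congr rfl fun l _ => ?_
  rw [Nat.cast_add, mul_add, ei_add]
  push_cast
  ring

theorem norm_S (K : ℕ) (α : ℝ) (n : ℕ) : ‖S K α n‖ = ‖∑ j ∈ range K, tw α (n + j)‖ := by
  have : ∑ j ∈ range K, tw α (n + j) = ei (2 * Real.pi * α * n) * S K α n := by
    rw [S, tp, mul_sum]
    refine sum_congr rfl fun j _ => ?_
    rw [tw, Nat.cast_add, mul_add, ei_add, id]
    ring
  rw [this, norm_mul, norm_ei, one_mul]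

theorem norm_S_le (K : ℕ) (α : ℝ) (n : ℕ) : ‖S K α n‖ ≤ K := by
  rw [S, tp]
  refine (norm_sum_le _ _).trans ((sum_le_card_nsmul _ _ 1 fun j _ => ?_).trans (by simp))
  rw [norm_mul, norm_ei, mul_one, norm_real]
  exact abs_lam_le _

theorem S_blocks (K m : ℕ) (α : ℝ) (n : ℕ) :
    ‖S (m * K) α n‖ ≤ ∑ i ∈ range m, ‖S K α (n + i * K)‖ := by
  induction m with
  | zero => simp [S, tp]
  | succ m ih =>
    rw [sum_range_succ, norm_S, Nat.succ_mul, sum_range_add, norm_S]
    rw [norm_S] at ih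
    simp_rw [← add_assoc]
    exact (norm_add_le _ _).trans (by gcongr)

theorem Ph_blocks (K m : ℕ) (N : ℕ) (α : ℝ) :
    Ph (m * K) N α ≤ m ^ 2 * Ph K N α + 3 * ((m * K : ℕ) : ℝ) ^ 3 := by
  calc Ph (m * K) N α ≤ LS N fun n => m * ∑ i ∈ range m, ‖S K α (n + i * K)‖ ^ 2 := by
        refine LS_mono fun n _ _ => ?_
        refine (pow_le_pow_left₀ (norm_nonneg _) (S_blocks K m α n) 2).trans ?_
        simpa using sq_sum_le_card_mul_sum_sq (s := range m) (f := fun i => ‖S K α (n + i * K)‖)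
    _ ≤ m * ∑ i ∈ range m, (Ph K N α + 3 * (m * K) * K ^ 2) := by
        rw [LS_mul, LS_sum]
        gcongr with i hi
        have h := LS_shift (f := fun n => ‖S K α n‖ ^ 2) (B := K ^ 2) (fun n => by
          rw [abs_of_nonneg (by positivity)]
          exact pow_le_pow_left₀ (norm_nonneg _) (norm_S_le K α n) 2) N (i * K)
        have h2 : (3 : ℝ) * (i * K : ℕ) * K ^ 2 ≤ 3 * (m * K) * K ^ 2 := by
          have : (i : ℝ) ≤ m := by exact_mod_cast (mem_range.1 hi).le
          push_cast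
          gcongr
        unfold Ph
        linarith [(abs_le.1 h).2]
    _ = _ := by
        rw [sum_const, card_range, nsmul_eq_mul]
        push_cast
        ring

theorem S_lip (K : ℕ) (α β : ℝ) (n : ℕ) : ‖S K α n - S K β n‖ ≤ 7 * K * |α - β| * K := by
  rw [S, S, tp, tp, ← sum_sub_distrib]
  refine (norm_sum_le _ _).trans ((sum_le_card_nsmul _ _ (7 * K * |α - β|) fun j hj => ?_).trans
    (by simp [mul_comm]))
  have hj' : (j : ℝ) ≤ K := by exact_mod_cast (mem_range.1 hj).le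
  rw [← mul_sub, norm_mul, norm_real]
  refine (mul_le_of_le_one_left (norm_nonneg _) (abs_lam_le _)).trans ((norm_ei_sub _ _).trans ?_)
  rw [id, show 2 * Real.pi * α * j - 2 * Real.pi * β * j = 2 * Real.pi * j * (α - β) by ring,
    abs_mul, abs_of_nonneg (by positivity)]
  gcongr
  linarith [Real.pi_lt_d2]

theorem unif (h : ∀ α : ℝ, Short (tw α)) {η : ℝ} (hη : 0 < η) : ∃ K₀ : ℕ, 1 ≤ K₀ ∧ ∀ m : ℕ,
    ∀ᶠ N : ℕ in atTop, ∀ α ∈ Set.Icc (0 : ℝ) 1,
      Ph (m * K₀) N α ≤ 7 * η ^ 2 * ((m * K₀ : ℕ) : ℝ) ^ 2 * lg N := by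
  have h1 : ∀ α : ℝ, ∃ K : ℕ, 1 ≤ K ∧ ∀ᶠ N : ℕ in atTop,
      Ph K N α ≤ η ^ 2 * K ^ 2 * lg N := fun α => by
    obtain ⟨K, hK⟩ := ((eventually_ge_atTop 1).and (h α (η ^ 2) (by positivity))).exists
    refine ⟨K, hK.1, hK.2.mono fun N hN => ?_⟩
    simpa only [Ph, norm_S] using hN
  choose K hK1 hK using h1
  obtain ⟨t, -, ht⟩ := (isCompact_Icc (a := (0 : ℝ)) (b := 1)).elim_nhds_subcover
    (fun α => Metric.ball α (η / (7 * K α))) fun α _ => Metric.ball_mem_nhds α (by
      have := hK1 α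
      positivity)
  refine ⟨∏ α ∈ t, K α, one_le_prod' fun α _ => hK1 α, fun m => ?_⟩
  filter_upwards [(eventually_all_finset t).2 fun α _ => hK α, tendsto_lg.eventually_ge_atTop 1,
    tendsto_lg.eventually_ge_atTop (3 * ((m * ∏ α ∈ t, K α : ℕ) : ℝ) / η ^ 2)]
    with N hN l1 l2 α hα
  obtain ⟨β, hβ, hαβ⟩ := Set.mem_iUnion₂.1 (ht hα)
  obtain ⟨r, hr⟩ : K β ∣ m * ∏ α ∈ t, K α := (dvd_prod_of_mem K hβ).mul_left m
  rw [hr, mul_comm (K β)] at l2 ⊢
  have hK0 : (0 : ℝ) < K β := by exact_mod_cast hK1 β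
  rw [Metric.mem_ball, Real.dist_eq, lt_div_iff₀ (by positivity)] at hαβ
  rw [div_le_iff₀ (by positivity)] at l2
  have h2 : Ph (K β) N α ≤ 2 * Ph (K β) N β + 2 * (η * K β) ^ 2 * (1 + lg N) := by
    calc _ ≤ LS N fun n => 2 * ‖S (K β) β n‖ ^ 2 + 2 * (η * K β) ^ 2 * 1 := by
          refine LS_mono fun n _ _ => ?_
          have h3 : ‖S (K β) α n‖ ≤ ‖S (K β) β n‖ + η * K β := by
            have h4 := S_lip (K β) α β n
            have h5 := norm_sub_norm_le (S (K β) α n) (S (K β) β n)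
            nlinarith
          nlinarith [pow_le_pow_left₀ (norm_nonneg _) h3 2, sq_nonneg (‖S (K β) β n‖ - η * K β)]
      _ ≤ _ := by
          rw [LS_add, LS_mul, LS_mul]
          gcongr
          · exact le_rfl
          · exact LS_one_le N
  have h3 : Ph (K β) N α ≤ 6 * η ^ 2 * K β ^ 2 * lg N := by
    nlinarith [hN β hβ, mul_le_mul_of_nonneg_left l1 (sq_nonneg (η * K β))]
  refine (Ph_blocks _ _ _ _).trans ?_
  have h4 := mul_le_mul_of_nonneg_left h3 (sq_nonneg (r : ℝ))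
  have h5 := mul_le_mul_of_nonneg_left l2 (sq_nonneg ((r * K β : ℕ) : ℝ))
  push_cast at h5 ⊢
  nlinarith

theorem core (K K' : ℕ) (N : ℕ) (hK : 2 * K ≤ K') {B θ : ℝ} (hθ : 0 < θ) (hK0 : 0 < K)
    (hB : ∀ α ∈ Set.Icc (0 : ℝ) 1, Ph K' N α ≤ B) :
    K * ∑ k ∈ Icc 1 K, LS N (fun n => lam n * lam (n + k)) ^ 2 ≤
      θ * B * ∑ k ∈ Icc 1 K, LS N (fun n => lam n * lam (n + k)) ^ 2 +
        (K' / (4 * θ) + 3 * K * K' ^ 2) * (1 + lg N) := by
  set y : ℕ → ℝ := fun k => LS N fun n => lam n * lam (n + k) with hy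
  set V := ∑ k ∈ Icc 1 K, y k ^ 2 with hV
  set M := 2 * K' with hM
  have hM0 : (0 : ℝ) < M := by exact_mod_cast (by omega : 0 < M)
  have hl : ∀ m n, |lam m * lam n| ≤ 1 := fun m n => by
    rw [abs_mul]
    exact mul_le_one₀ (abs_lam_le _) (abs_nonneg _) (abs_lam_le _)
  have hL : 0 ≤ 1 + lg N := by have := lg_nonneg N; linarith
  have hy1 : ∀ k, |y k| ≤ 1 + lg N := fun k => abs_le.2 ⟨by
    have := LS_le (N := N) (f := fun n => -1 * (lam n * lam (n + k))) zero_le_one
      fun n _ _ => by linarith [(abs_le.1 (hl n (n + k))).1]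
    rw [LS_mul] at this
    simp only [hy]
    linarith, by
    simpa using LS_le (N := N) zero_le_one fun n _ _ => (abs_le.1 (hl n (n + k))).2⟩
  let Y : ℝ → ℂ := tp (Icc 1 K) y id
  let A : ℕ → ℝ := fun n => ∑ x ∈ range K' ×ˢ Icc 1 K,
    (if x.1 + x.2 < K' then y x.2 else 0) * (lam (n + x.1) * lam (n + x.1 + x.2))
  have h1 : ∀ n, M * A n ≤ ∑ a ∈ range M, (θ * ‖Y (a / M)‖ ^ 2) * ‖S K' (a / M) n‖ ^ 2 +
      M * K' / (4 * θ) * 1 := by
    intro n
    have h := pars (M := M) (range K') (range K' ×ˢ Icc 1 K) (fun j => lam (n + j))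
      (fun x => lam (n + x.1) * y x.2) id (fun x => id x.1 + id x.2)
      (fun i hi => by have := mem_range.1 hi; simp only [id]; omega) fun l hl => by
        have h1 := mem_range.1 (mem_product.1 hl).1
        have h2 := (mem_Icc.1 (mem_product.1 hl).2).2
        simp only [id]
        omega
    simp_rw [← tp_mul (range K') (Icc 1 K) (fun j => lam (n + j)) y id id] at h
    have hA : ∑ l ∈ range K' ×ˢ Icc 1 K, ∑ i ∈ range K', (if id i = id l.1 + id l.2 then
        lam (n + i) * (lam (n + l.1) * y l.2) else 0) = A n := by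
      refine sum_congr rfl fun x _ => ?_
      simp only [id, sum_ite_eq', mem_range, add_assoc]
      split_ifs <;> ring
    rw [hA] at h
    have h2 := pars_sq (M := M) (range K') (fun j => lam (n + j))
      fun i hi => by have := mem_range.1 hi; omega
    have h3 : ∑ i ∈ range K', lam (n + i) ^ 2 ≤ K' :=
      (sum_le_card_nsmul _ _ 1 fun i _ => (sq_le_one_iff_abs_le_one _).2 (abs_lam_le _)).trans
        (by simp)
    calc M * A n ≤ ‖((M * A n : ℝ) : ℂ)‖ := by rw [norm_real]; exact le_abs_self _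
      _ ≤ ∑ a ∈ range M, ((θ * ‖Y (a / M)‖ ^ 2) * ‖S K' (a / M) n‖ ^ 2 +
            1 / (4 * θ) * ‖S K' (a / M) n‖ ^ 2) := by
          rw [← h]
          refine norm_sum_le_of_le _ fun a _ => ?_
          rw [norm_mul, RCLike.norm_conj, norm_mul, ← mul_assoc, ← sq, ← add_mul, mul_comm]
          refine mul_le_mul_of_nonneg_right ?_ (sq_nonneg _)
          have h4 : θ * ‖Y (a / M)‖ ^ 2 + 1 / (4 * θ) - ‖Y (a / M)‖ =
              θ * (‖Y (a / M)‖ - 1 / (2 * θ)) ^ 2 := by field_simp; ring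
          have h5 : 0 ≤ θ * (‖Y (a / M)‖ - 1 / (2 * θ)) ^ 2 := by positivity
          exact sub_nonneg.1 (h4 ▸ h5)
      _ ≤ _ := by
          rw [sum_add_distrib, ← mul_sum]
          unfold S
          rw [h2, mul_one, mul_comm (1 / (4 * θ)), mul_one_div]
          gcongr
  have h2 : M * LS N A ≤ M * (θ * B * V + K' / (4 * θ) * (1 + lg N)) := by
    have h := LS_mono (N := N) fun n _ _ => h1 n
    rw [LS_mul, LS_add, LS_mul, LS_sum N (range M)] at h
    have h3 := pars_sq (M := M) (Icc 1 K) y fun i hi => by have := (mem_Icc.1 hi).2; omega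
    refine h.trans ?_
    calc _ ≤ ∑ a ∈ range M, θ * B * ‖Y (a / M)‖ ^ 2 + M * K' / (4 * θ) * (1 + lg N) := by
          gcongr with a ha
          · rw [LS_mul, mul_right_comm θ B]
            refine mul_le_mul_of_nonneg_left (hB _ ⟨by positivity, ?_⟩) (by positivity)
            rw [div_le_one hM0]
            exact_mod_cast (mem_range.1 ha).le
          · exact LS_one_le N
      _ = _ := by
          rw [← mul_sum, h3]
          ring
  have h3 : K * V - 3 * K * K' ^ 2 * (1 + lg N) ≤ LS N A := by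
    rw [LS_sum]
    calc _ ≤ ∑ x ∈ range K' ×ˢ Icc 1 K, ((if x.1 < K then y x.2 ^ 2 else 0) -
            3 * K' * (1 + lg N)) := by
          rw [sum_sub_distrib, sum_const, card_product, card_range, Nat.card_Icc, sum_product]
          simp_rw [sum_ite_irrel, sum_const_zero]
          rw [← sum_filter, sum_const, show (range K').filter (· < K) = range K by
            ext i
            simp only [mem_filter, mem_range]
            omega]
          simp only [card_range, nsmul_eq_mul, Nat.add_sub_cancel, Nat.cast_mul]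
          exact le_of_eq (by ring)
      _ ≤ _ := sum_le_sum fun x hx => ?_
    rw [LS_mul]
    have x1 : (x.1 : ℝ) ≤ K' := by exact_mod_cast (mem_range.1 (mem_product.1 hx).1).le
    have x2 := (mem_Icc.1 (mem_product.1 hx).2).2
    have h := LS_shift (f := fun n => lam n * lam (n + x.2)) (fun n => hl _ _) N x.1
    have h4 : |y x.2 * (LS N (fun n => lam (n + x.1) * lam (n + x.1 + x.2)) - y x.2)| ≤
        3 * K' * (1 + lg N) := by
      rw [abs_mul, mul_comm]
      exact mul_le_mul (h.trans (by linarith)) (hy1 _) (abs_nonneg _) (by positivity)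
    have h5 := (abs_le.1 h4).1
    have h6 : (0 : ℝ) ≤ 3 * K' * (1 + lg N) := by positivity
    split_ifs with c1 c2 c2
    · nlinarith
    · omega
    · nlinarith [sq_nonneg (y x.2)]
    · linarith
  have h4 := le_of_mul_le_mul_left h2 hM0
  linarith

theorem wien : (∀ α : ℝ, Short (tw α)) → WienStmt := by
  intro h δ hδ
  obtain ⟨K₀, hK₀, hU⟩ := unif h (η := √(δ / 756)) (by positivity)
  rw [Real.sq_sqrt (by positivity)] at hU
  filter_upwards [eventually_ge_atTop K₀] with K hK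
  filter_upwards [hU (2 * K / K₀ + 1), tendsto_lg.eventually_ge_atTop 1,
    tendsto_lg.eventually_ge_atTop (216 * K / δ)] with N hN l1 l2
  set K' := (2 * K / K₀ + 1) * K₀ with hK'
  have k1 : 2 * K ≤ K' := by
    rw [hK', mul_comm _ K₀]
    exact (Nat.lt_mul_div_succ _ hK₀).le
  have k2 : K' ≤ 3 * K := by
    have := Nat.div_mul_le_self (2 * K) K₀
    rw [hK', add_mul]
    omega
  have k0 : (0 : ℝ) < K := by exact_mod_cast hK₀.trans hK
  have k3 : (0 : ℝ) < K' := by exact_mod_cast (by omega : 0 < K')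
  have k4 : (K' : ℝ) ≤ 3 * K := by exact_mod_cast k2
  set l := lg N with hl
  have hc := core K K' N k1 (θ := K / (2 * (7 * (δ / 756) * K' ^ 2 * l))) (by positivity)
    (hK₀.trans hK) hN
  set V := ∑ k ∈ Icc 1 K, LS N (fun n => lam n * lam (n + k)) ^ 2
  rw [div_le_iff₀ hδ] at l2
  have e1 : K / (2 * (7 * (δ / 756) * K' ^ 2 * l)) * (7 * (δ / 756) * K' ^ 2 * l) * V =
      K * V / 2 := by field_simp
  have e2 : K' / (4 * (K / (2 * (7 * (δ / 756) * K' ^ 2 * l)))) = δ / 216 * K' ^ 3 * l / K := by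
    field_simp
    norm_num
  have e3 : δ / 216 * K' ^ 3 * l / K ≤ δ / 8 * K ^ 2 * l := by
    rw [div_le_iff₀ k0]
    calc _ ≤ δ / 216 * (3 * K) ^ 3 * l := by gcongr
      _ = _ := by ring
  have e4 : (3 : ℝ) * K * K' ^ 2 ≤ δ / 8 * K ^ 2 * l := by
    calc _ ≤ (3 : ℝ) * K * (3 * K) ^ 2 := by gcongr
      _ = K ^ 2 / 8 * (216 * K) := by ring
      _ ≤ K ^ 2 / 8 * (l * δ) := by gcongr
      _ = _ := by ring
  rw [e1, e2, ← hl] at hc
  have e5 : (δ / 216 * K' ^ 3 * l / K + 3 * K * K' ^ 2) * (1 + l) ≤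
      (δ / 8 * K ^ 2 * l + δ / 8 * K ^ 2 * l) * (2 * l) := by
    gcongr
    linarith
  refine le_of_mul_le_mul_left ?_ k0
  nlinarith

end Pool.Agent.MP_ca0a54_nt.SC.WIEN
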