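import Pool.Agent.MP_ca0a54_nt.SC.Spec

/-! From the expansion estimate to the two point bound at every scale. -/

open Filter Finset

namespace Pool.Agent.MP_ca0a54_nt.SC.CH

open Pool.Agent.MP_ca0a54_nt.BH (lam lam_mul lam_zero lam_mul_self abs_lam_le)

theorem abs_ll (m n : ℕ) : |lam m * lam n| ≤ 1 := by
  rw [abs_mul]
  exact mul_le_one₀ (abs_lam_le m) (abs_nonneg _) (abs_lam_le n)

theorem LS_lip {f : ℕ → ℝ} (hf : ∀ n, |f n| ≤ 1) (a b : ℕ) : |LS a f - LS b f| ≤ |(a : ℝ) - b| := by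
  wlog h : b ≤ a generalizing a b
  · rw [abs_sub_comm, abs_sub_comm (a : ℝ)]
    exact this b a (not_le.1 h).le
  rw [LS, LS, ← sum_Ioc_consecutive _ (Nat.zero_le b) h, add_sub_cancel_left]
  refine (abs_sum_le_sum_abs _ _).trans ((sum_le_card_nsmul _ _ 1 fun n _ => hf n).trans ?_)
  rw [Nat.card_Ioc, nsmul_eq_mul, mul_one, Nat.cast_sub h]
  exact le_abs_self _

theorem dil (N s : ℕ) {d : ℕ} (hd : 1 ≤ d) :
    ∑ n ∈ range (N + 1), (if d ∣ n then lam n * lam (n + s * d) else 0) =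
      LS (N / d) fun m => lam m * lam (m + s) := by
  rw [range_eq_Ico, sum_eq_sum_Ico_succ_bot (Nat.succ_pos N), lam_zero, zero_mul, ite_self, zero_add]
  refine (sum_dvd (fun n => lam n * lam (n + s * d)) N hd).trans (sum_congr rfl fun m _ => ?_)
  rw [show d * m + s * d = d * (m + s) by ring, lam_mul, lam_mul, mul_mul_mul_comm,
    lam_mul_self hd, one_mul]

theorem split (r N : ℕ) {e p : ℕ} (he : 1 ≤ e) (hp : p.Prime) (h : ¬ p ∣ e) :
    ∑ n ∈ range (N + 1), (if e ∣ n then lam n * lam (n + r * e * p) *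
      ((if p ∣ n then 1 else 0) - 1 / (p : ℝ)) else 0) =
      LS (N / (e * p)) (fun m => lam m * lam (m + r)) -
        1 / (p : ℝ) * LS (N / e) fun m => lam m * lam (m + p * r) := by
  rw [← dil N r (Nat.mul_pos he hp.pos), ← dil N (p * r) he, mul_sum, ← sum_sub_distrib]
  refine sum_congr rfl fun n _ => ?_
  have hc : e * p ∣ n ↔ e ∣ n ∧ p ∣ n := ⟨fun h => ⟨(dvd_mul_right _ _).trans h,
    (dvd_mul_left _ _).trans h⟩, fun h' =>
    ((hp.coprime_iff_not_dvd.2 h).symm).mul_dvd_of_dvd_of_dvd h'.1 h'.2⟩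
  rw [show r * (e * p) = r * e * p by ring, show p * r * e = r * e * p by ring]
  by_cases c1 : e ∣ n <;> by_cases c2 : p ∣ n <;> simp [hc, c1, c2] <;> ring

theorem fake {r N : ℕ} {P : Finset ℕ} {t δ : ℝ} (hδ : 0 ≤ δ) (ht : 0 ≤ t)
    (hP : ∀ p ∈ P, |1 / (p : ℝ) - t| ≤ δ * t)
    (h : LS N (fun n => (∑ p ∈ P, lam (n + p * r)) ^ 2) ≤ δ ^ 2 * (P.card : ℝ) ^ 2 * lg N) :
    |∑ p ∈ P, 1 / (p : ℝ) * LS N fun m => lam m * lam (m + p * r)| ≤
      2 * δ * P.card * (t * (1 + N)) := by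
  have hN := lg_nonneg N
  have h1 : LS N (fun n => |∑ p ∈ P, lam (n + p * r)|) ≤ δ * P.card * (1 + lg N) := by
    refine (abs_le_of_sq_le_sq' ((LS_sq_le N _).trans ?_) (by positivity)).2
    simp only [sq_abs]
    refine (mul_le_mul_of_nonneg_left h (by positivity)).trans ?_
    nlinarith [mul_nonneg (sq_nonneg (δ * P.card)) (show 0 ≤ 1 + lg N by positivity)]
  simp only [← LS_mul]
  rw [← LS_sum]
  refine (abs_sum_le_sum_abs _ _).trans ((LS_mono (N := N)
    (g := fun n => t * |∑ p ∈ P, lam (n + p * r)| + δ * t * P.card * 1) fun n _ _ => ?_).trans ?_)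
  · have e : ∑ p ∈ P, 1 / (p : ℝ) * (lam n * lam (n + p * r)) =
        lam n * (t * ∑ p ∈ P, lam (n + p * r)) +
          ∑ p ∈ P, (1 / (p : ℝ) - t) * (lam n * lam (n + p * r)) := by
      rw [mul_sum, mul_sum, ← sum_add_distrib]
      exact sum_congr rfl fun p _ => by ring
    rw [e]
    refine (abs_add_le _ _).trans (add_le_add ?_ ((abs_sum_le_sum_abs _ _).trans
      ((sum_le_card_nsmul _ _ (δ * t) fun p hp => ?_).trans_eq (by rw [nsmul_eq_mul]; ring))))
    · rw [abs_mul, abs_mul, abs_of_nonneg ht]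
      exact mul_le_of_le_one_left (by positivity) (abs_lam_le n)
    · rw [abs_mul]
      exact (mul_le_of_le_one_right (abs_nonneg _) (abs_ll _ _)).trans (hP p hp)
  · rw [LS_add, LS_mul, LS_mul]
    have h2 := mul_le_mul_of_nonneg_left h1 ht
    have h3 := mul_le_mul_of_nonneg_left (LS_one_le N) (show 0 ≤ δ * t * P.card by positivity)
    unfold lg at h2 h3
    linarith

theorem ch (hc : CoreStmt) (ha : AvgStmt) : ChStmt := by
  intro r ε hr hε
  obtain ⟨δ, δ0, δ1, δ2⟩ : ∃ δ : ℝ, 0 < δ ∧ δ ≤ 1 ∧ δ ≤ ε / 5 :=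
    ⟨min 1 (ε / 5), by positivity, min_le_left _ _, min_le_right _ _⟩
  obtain ⟨c, c0, hc⟩ := hc r δ hr δ0 δ1
  obtain ⟨z, hz⟩ := eventually_atTop.1 (ha r c (δ ^ 2) hr c0 (by positivity))
  obtain ⟨E, Pe, wt, Q, Q1, hG, M0, hcen⟩ := hc δ z δ0
  have Q0 : 0 < Q := by linarith
  have hT : Tendsto (fun X : ℕ => ⌈Q * X⌉₊) atTop atTop :=
    tendsto_nat_ceil_atTop.comp (tendsto_natCast_atTop_atTop.const_mul_atTop Q0)
  have hA : ∀ e ∈ E, ∀ᶠ X : ℕ in atTop, LS (⌈Q * X⌉₊ / e)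
      (fun n => (∑ p ∈ Pe e, lam (n + p * r)) ^ 2) ≤
      δ ^ 2 * ((Pe e).card : ℝ) ^ 2 * lg (⌈Q * X⌉₊ / e) := fun e he => by
    obtain ⟨-, e1, ⟨x, x1, x2, x3⟩, -⟩ := hG e he
    exact (((Nat.tendsto_div_const_atTop (by omega : e ≠ 0)).comp hT).eventually
      (hz x x1)).mono fun X h => h _ x2 x3
  filter_upwards [(eventually_all_finset E).2 hA, ((tendsto_add_atTop_nat 1).comp hT).eventually hcen,
    tendsto_lg.eventually_ge_atTop (45 / ε)] with X hA hcen hX
  replace hcen := hcen lam abs_lam_le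
  rw [Function.comp_apply] at hcen
  set N := ⌈Q * X⌉₊ with hN
  have X0 : (0 : ℝ) ≤ X := Nat.cast_nonneg X
  have N1 : Q * X ≤ N := Nat.le_ceil _
  have N2 : (N : ℝ) ≤ Q * X + 1 := (Nat.ceil_lt_add_one (by positivity)).le
  set S : ℕ → ℝ := fun Y => LS Y fun m => lam m * lam (m + r) with hS
  set W := ∑ e ∈ E, wt e * (Pe e).card with hW
  have hpr : ∀ e ∈ E, ∀ p ∈ Pe e, p.Prime := fun e he p hp => by
    obtain ⟨-, -, ⟨x, -, x2, -⟩, -⟩ := hG e he
    exact (x2 p hp).1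
  have hM : mass E Pe wt * Q ≤ W := by
    rw [mass, sum_mul]
    refine sum_le_sum fun e he => ?_
    rw [sum_mul, mul_comm, ← nsmul_eq_mul]
    refine sum_le_card_nsmul _ _ _ fun p hp => ?_
    obtain ⟨w0, -, -, h⟩ := hG e he
    have h1 := (h p hp).2.1
    rw [div_mul_eq_mul_div, div_le_iff₀ (by linarith)]
    exact mul_le_mul_of_nonneg_left h1 w0
  have W0 : 0 < W := lt_of_lt_of_le (by positivity) hM
  have e1 : W * S X = cen r E Pe wt (N + 1) lam + ∑ e ∈ E, wt e * (∑ p ∈ Pe e, (S X - S (N / (e * p))) +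
      ∑ p ∈ Pe e, 1 / (p : ℝ) * LS (N / e) fun m => lam m * lam (m + p * r)) := by
    rw [cen, hW, sum_mul, ← sum_add_distrib]
    refine sum_congr rfl fun e he => ?_
    rw [← mul_sum, ← mul_add, ← sum_add_distrib, ← sum_add_distrib, mul_assoc, ← nsmul_eq_mul,
      ← sum_const]
    congr 1
    refine sum_congr rfl fun p hp => ?_
    rw [split r N (hG e he).2.1 (hpr e he p hp) ((hG e he).2.2.2 p hp).1]
    ring
  have e2 : ∀ e ∈ E, |wt e * (∑ p ∈ Pe e, (S X - S (N / (e * p))) +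
      ∑ p ∈ Pe e, 1 / (p : ℝ) * LS (N / e) fun m => lam m * lam (m + p * r))| ≤
      wt e * (Pe e).card * (δ * X + 1 + 2 * δ * (X + 3)) := fun e he => by
    obtain ⟨w0, e1, -, h⟩ := hG e he
    have e0 : (0 : ℝ) < e := by exact_mod_cast e1
    rw [abs_mul, abs_of_nonneg w0, mul_assoc, mul_add]
    refine mul_le_mul_of_nonneg_left ((abs_add_le _ _).trans (add_le_add
      ((abs_sum_le_sum_abs _ _).trans ((sum_le_card_nsmul _ _ (δ * X + 1) fun p hp => ?_).trans_eq
        (nsmul_eq_mul _ _))) ?_)) w0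
    · refine (LS_lip (fun n => abs_ll _ _) _ _).trans ?_
      obtain ⟨-, h1, h2⟩ := h p hp
      have d0 : (0 : ℝ) < (e * p : ℕ) := by
        push_cast
        linarith
      have a1 : ((N / (e * p) : ℕ) : ℝ) ≤ X + 1 := by
        refine Nat.cast_div_le.trans ((div_le_iff₀ d0).2 ?_)
        push_cast
        nlinarith
      have a2 : (N : ℝ) ≤ (e * p : ℕ) * ((N / (e * p) : ℕ) + 1 : ℝ) := by
        exact_mod_cast (Nat.lt_mul_div_succ N (by exact_mod_cast d0)).le
      have a3 : (X : ℝ) ≤ (1 + δ) * ((N / (e * p) : ℕ) + 1 : ℝ) := by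
        refine le_of_mul_le_mul_left (N1.trans (a2.trans ?_)) Q0
        rw [← mul_assoc, mul_comm Q]
        push_cast
        gcongr
      rw [abs_le]
      constructor
      · nlinarith
      · by_contra a4
        have a5 : ((N / (e * p) : ℕ) + 1 : ℝ) ≤ (1 - δ) * X := by linarith
        have a6 := mul_le_mul_of_nonneg_left a5 (show 0 ≤ 1 + δ by positivity)
        have a7 : (0 : ℝ) < (N / (e * p) : ℕ) + 1 := by positivity
        have a8 : 0 < (X : ℝ) := by nlinarith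
        nlinarith [mul_pos (mul_pos δ0 δ0) a8]
    · rcases (Pe e).eq_empty_or_nonempty with h0 | ⟨q, hq⟩
      · simp [h0]
      have b1 : (e : ℝ) ≤ 2 * Q := by
        have : (1 : ℝ) ≤ q := by exact_mod_cast (hpr e he q hq).one_le
        nlinarith [(h q hq).2.2]
      refine (fake (t := e / Q) δ0.le (by positivity) (fun p hp => ?_) (hA e he)).trans ?_
      · obtain ⟨-, h1, h2⟩ := h p hp
        have p0 : (0 : ℝ) < p := by exact_mod_cast (hpr e he p hp).pos
        have b2 : 1 / (p : ℝ) ≤ e / Q := by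
          rw [div_le_div_iff₀ p0 Q0]
          linarith
        have b3 : e / Q ≤ (1 + δ) * (1 / (p : ℝ)) := by
          rw [mul_one_div, div_le_div_iff₀ Q0 p0]
          linarith
        rw [abs_sub_comm, abs_of_nonneg (by linarith)]
        nlinarith
      · rw [mul_comm ((Pe e).card : ℝ), mul_right_comm (2 * δ)]
        refine mul_le_mul_of_nonneg_right (mul_le_mul_of_nonneg_left ?_ (by positivity))
          (Nat.cast_nonneg _)
        have b4 : (e : ℝ) * (N / e : ℕ) ≤ N := by exact_mod_cast Nat.mul_div_le N e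
        rw [div_mul_eq_mul_div, div_le_iff₀ Q0]
        nlinarith
  have e3 : W * |S X| ≤ W * (δ * (X + 2) + (δ * X + 1 + 2 * δ * (X + 3))) := by
    rw [← abs_of_pos W0, ← abs_mul, abs_of_pos W0, e1, mul_add W]
    refine (abs_add_le _ _).trans (add_le_add (hcen.trans ?_) ((abs_sum_le_sum_abs _ _).trans
      ((sum_le_sum e2).trans_eq (by rw [hW, sum_mul]))))
    have a1 : ((N + 1 : ℕ) : ℝ) ≤ Q * (X + 2) := by
      push_cast
      linarith
    calc _ ≤ δ * mass E Pe wt * (Q * (X + 2)) := by gcongr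
      _ = mass E Pe wt * Q * (δ * (X + 2)) := by ring
      _ ≤ _ := by gcongr
  have e4 := le_of_mul_le_mul_left e3 W0
  rw [div_le_iff₀ hε, lg] at hX
  refine e4.trans ?_
  nlinarith

end Pool.Agent.MP_ca0a54_nt.SC.CH
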