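import Pool.Agent.MP_ca0a54_nt.SC.SpecT

/-! The estimate of the removed mass. -/

open Filter Finset

namespace Pool.Agent.MP_ca0a54_nt.SC.CT

namespace Best

theorem tk_top : Tendsto tk atTop atTop :=
  tendsto_pow_atTop_atTop_of_one_lt (by norm_num : (1 : ℝ) < 2)

theorem massS_nonneg {d : Dat} (ha : 0 ≤ d.a) : 0 ≤ massS d :=
  sum_nonneg fun _ _ => sum_nonneg fun _ _ => by positivity

theorem R_le {d : Dat} {V : ℝ} {p : ℕ} (hA : ∀ q ∈ d.A, q.Prime) (ha : 0 ≤ d.a) (hp : p.Prime)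
    (h : ∀ E ⊆ d.A, ∀ p ∈ d.Pe E, Real.exp V ≤ (pd E : ℝ) * p ∧ (pd E : ℝ) * p ≤ 2 * Real.exp V)
    {T : Finset ℕ} (hT : T ⊆ d.A) : 0 ≤ R d p T ∧ R d p T ≤ Rw d.a (V - Real.log p) T := by
  refine ⟨sum_nonneg fun E _ => ?_, sum_le_sum fun E hE => ?_⟩
  · split_ifs
    · exact w_nonneg ha _ _
    · exact le_rfl
  · have hE' : E ⊆ d.A := (mem_powerset.1 hE).trans hT
    by_cases h1 : p ∈ d.Pe E
    · obtain ⟨h2, h3⟩ := h E hE' p h1
      have h4 : ∀ q ∈ E, 1 ≤ q := fun q hq => (hA q (hE' hq)).one_le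
      have h5 : (0 : ℝ) < pd E := by exact_mod_cast pd_pos h4
      have h6 : (0 : ℝ) < p := by exact_mod_cast hp.pos
      have h7 : Real.log ((pd E : ℝ) * p) = ll E + Real.log p := by
        rw [Real.log_mul h5.ne' h6.ne', log_pd h4]
      have h8 := (Real.le_log_iff_exp_le (mul_pos h5 h6)).2 h2
      have h9 : Real.log ((pd E : ℝ) * p) ≤ V + 1 := by
        rw [Real.log_le_iff_le_exp (mul_pos h5 h6), Real.exp_add, mul_comm (Real.exp V)]
        refine h3.trans (mul_le_mul_of_nonneg_right ?_ (Real.exp_pos V).le)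
        linarith [Real.add_one_le_exp 1]
      rw [if_pos h1, if_pos ⟨by linarith, by linarith⟩]
    · rw [if_neg h1]
      split_ifs
      · exact w_nonneg ha _ _
      · exact le_rfl

theorem term1 {d : Dat} {V M L : ℝ} (hB : d.Base 1) (hM : 0 ≤ M) (hL : rc d.B ≤ L)
    (h : ∀ E ⊆ d.A, ∀ p ∈ d.Pe E, Real.exp V ≤ (pd E : ℝ) * p ∧ (pd E : ℝ) * p ≤ 2 * Real.exp V)
    (hS : ∀ y ≤ V, (Ex d.A fun T => (1 + d.a) ^ T.card * Rw d.a y T ^ 2) ≤ M) :
    (∑ p ∈ d.B, 1 / (p : ℝ) * Ex d.A fun T => (1 + d.a) ^ T.card * R d p T ^ 2) ≤ L * M := by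
  have ha := hB.2.2.1
  refine le_trans ?_ (mul_le_mul_of_nonneg_right hL hM)
  rw [rc, sum_mul]
  refine sum_le_sum fun p hp => mul_le_mul_of_nonneg_left ?_ (by positivity)
  refine le_trans (Ex_mono fun T hT => ?_)
    (hS (V - Real.log p) (sub_le_self _ (Real.log_natCast_nonneg p)))
  obtain ⟨h1, h2⟩ := R_le hB.1 ha (hB.2.1 p hp).1 h hT
  exact mul_le_mul_of_nonneg_left (pow_le_pow_left₀ h1 h2 2) (by positivity)

theorem term2 {t J D δ : ℝ} (ht : 0 < t) (hδ : 0 < δ) (h : Real.exp (-J) ≤ D * t / t ^ 4)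
    (hD : Real.exp 1 * D / δ ^ 2 ≤ t) : t * Real.exp (-(J - 1) / 2) ≤ δ := by
  refine le_of_sq_le_sq ?_ hδ.le
  have e : Real.exp (-(J - 1) / 2) ^ 2 = Real.exp 1 * Real.exp (-J) := by
    rw [sq, ← Real.exp_add, ← Real.exp_add]
    congr 1
    ring
  rw [div_le_iff₀ (by positivity)] at hD
  rw [mul_pow, e]
  calc t ^ 2 * (Real.exp 1 * Real.exp (-J)) ≤ t ^ 2 * (Real.exp 1 * (D * t / t ^ 4)) := by
        gcongr
    _ = Real.exp 1 * D / t := by field_simp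
    _ ≤ δ ^ 2 := by
        rw [div_le_iff₀ ht]
        linarith

theorem Zm_nonneg {A : Finset ℕ} {a : ℝ} (ha : 0 ≤ a) : 0 ≤ Zm A a :=
  Ex_nonneg fun _ _ => by positivity

theorem term3 (h2 : PinTwoStmt) (h3 : PinThreeStmt) (hD : DelStmt) {d : Dat} {V W L : ℝ}
    (hB : d.Base 1) (hV : 1 ≤ V) (hW : 0 < W) (hL : rc d.B ≤ L) (hW' : (1 + d.a) ^ d.t0 = W)
    (hp : ∀ p ∈ d.B, W < p ∧ ∀ q ∈ d.A, p ≤ q) (hq : ∀ q ∈ d.A, Real.log q ≤ V + 1) :
    ∑ p ∈ d.B, ((Ex d.A fun T => (1 + d.a) ^ T.card * two d.a p T) / (1 + d.a) ^ d.t0 +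
      Ex d.A fun T => (1 + d.a) ^ T.card * three d.a p T) ≤
      L * (1752 * V ^ 2 * Zm d.A d.a / W) := by
  have ha := hB.2.2.1
  have hZ := Zm_nonneg (A := d.A) ha
  refine le_trans ?_ (mul_le_mul_of_nonneg_right hL (by positivity))
  rw [rc, sum_mul]
  refine sum_le_sum fun p hpB => ?_
  obtain ⟨a1, -, a2⟩ := hB.2.1 p hpB
  have hp0 : (0 : ℝ) < p := by exact_mod_cast a1.pos
  have hT := hD d.A p (V + 1) a1 (by linarith) fun q hq' => ⟨(hp p hpB).2 q hq', hq q hq'⟩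
  have b2 := h2 d.A d.a _ p hB.1 a1 a2 ha hT
  have b3 := h3 d.A d.a _ p hB.1 a1 a2 ha hT
  rw [hW']
  generalize (Ex d.A fun T => (1 + d.a) ^ T.card * two d.a p T) = X at b2 b3 ⊢
  generalize (Ex d.A fun T => (1 + d.a) ^ T.card * three d.a p T) = Y at b3 ⊢
  generalize Zm d.A d.a = Z at b2 hZ ⊢
  have c1 : (1 + (V + 1)) / p ≤ 3 * V / p := by
    gcongr
    linarith
  have c2 : (1 + (V + 1)) / p ≤ 3 * V / W := c1.trans (by
    gcongr
    exact (hp p hpB).1.le)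
  have c0 : 0 ≤ (1 + (V + 1)) / p := by positivity
  have c3 : X ≤ 8 * (3 * V / p) * Z := b2.trans (by gcongr)
  have c4 : Y ≤ 24 * (3 * V / W) * (8 * (3 * V / p) * Z) :=
    b3.trans ((mul_le_mul_of_nonneg_left c3 (by positivity)).trans (by gcongr))
  have c5 : X / W ≤ 8 * (3 * V ^ 2 / p) * Z / W := by
    refine div_le_div_of_nonneg_right (c3.trans ?_) hW.le
    gcongr
    nlinarith
  refine (add_le_add c5 c4).trans (le_of_eq ?_)
  field_simp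
  ring

end Best

theorem best : BadStmt → PinTwoStmt → PinThreeStmt → DelStmt → SecStmt → NiceStmt → HypStmt →
    BadEstStmt := by
  intro hBad h2 h3 hDel hSec hNice hHyp
  obtain ⟨D, -, hN⟩ := hNice
  obtain ⟨C, hC, hS⟩ := hSec (2 ^ 40 - 1) D (by norm_num)
  refine ⟨C, hC, fun η C1 Λ δ hη hη1 hC1 hΛ hδ => ?_⟩
  filter_upwards [hHyp 1 η C1 Λ le_rfl hη hη1 hC1 hΛ, Best.tk_top.eventually hN,
    Best.tk_top.eventually hS, Best.tk_top.eventually_ge_atTop 2,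
    Best.tk_top.eventually_ge_atTop (Real.exp 1 * D / δ ^ 2),
    Best.tk_top.eventually_ge_atTop (28032 * (Real.log Λ + 1) ^ 2 / δ)]
    with k hH hNk hSk ht2 htD htL
  obtain ⟨hB, hLen, hp, -, hE, hZ⟩ := hH
  obtain ⟨-, -, -, -, -, hL1, hL⟩ := hLen
  have ht0 : 0 < tk k := by linarith
  have ht1 : 1 ≤ tk k := by linarith
  have hC0 : 0 < C1 := by linarith
  have hW : (1 + (dat η C1 Λ k).a) ^ (dat η C1 Λ k).t0 = tk k ^ 40 := by
    change ((1 : ℝ) + (2 ^ 40 - 1)) ^ k = ((2 : ℝ) ^ k) ^ 40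
    rw [add_sub_cancel, ← pow_mul, ← pow_mul, mul_comm]
  have hκ : 2 ≤ (dat η C1 Λ k).κ' * (1 + (dat η C1 Λ k).a) ^ (dat η C1 Λ k).t0 := by
    rw [hW]
    change 2 ≤ C1 / (2 * tk k ^ 8) * tk k ^ 40
    have e : C1 / (2 * tk k ^ 8) * tk k ^ 40 = C1 * tk k ^ 32 / 2 := by field_simp
    have a1 : (2 : ℝ) ^ 32 ≤ tk k ^ 32 := pow_le_pow_left₀ zero_le_two ht2 32
    have a2 : tk k ^ 32 ≤ C1 * tk k ^ 32 := le_mul_of_one_le_left (by positivity) hC1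
    rw [e]
    linarith
  have hZV : 0 ≤ ZV k := by unfold ZV; positivity
  have b0 := hBad 1 _ hB hκ fun E hE' p hp' => (hE E hE' p hp').2.2
  have b1 := Best.term1 (V := tk k ^ 4)
    (M := C * Real.exp ((2 ^ 40 - 1) * rc (H78M.pr (tk k) (tk k ^ 4 + 1))) / tk k ^ 8) hB
    (by positivity) hL (fun E hE' p hp' => ⟨(hE E hE' p hp').1, (hE E hE' p hp').2.1⟩)
    fun y hy => hSk _ y hNk hy
  have b2 : tk k * Real.exp (-(rc (dat η C1 Λ k).A - 1) / 2) ≤ δ := by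
    refine Best.term2 ht0 hδ ?_ htD
    have a1 := hNk.2.2 (tk k) le_rfl
    rwa [filter_true_of_mem fun q hq => (H78M.mem_pr.1 hq).2.1] at a1
  have b3 := Best.term3 h2 h3 hDel (V := tk k ^ 4) hB (one_le_pow₀ ht1) (by positivity) hL hW hp
    fun q hq => (H78M.mem_pr.1 hq).2.2
  have hm := Best.massS_nonneg hB.2.2.1
  have hZ0 := Best.Zm_nonneg (A := (dat η C1 Λ k).A) hB.2.2.1
  have c1 : (∑ p ∈ (dat η C1 Λ k).B, 1 / (p : ℝ) * Ex (dat η C1 Λ k).A fun T =>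
      (1 + (dat η C1 Λ k).a) ^ T.card * R (dat η C1 Λ k) p T ^ 2) / (dat η C1 Λ k).κ ≤
      C * (Real.log Λ + 1) / C1 * ZV k := by
    refine (div_le_div_of_nonneg_right b1 hB.2.2.2.2.2.1.le).trans (le_of_eq ?_)
    change _ / (C1 / tk k ^ 4) = _
    unfold ZV
    field_simp
  have c2 : 2 ^ (dat η C1 Λ k).t0 * Real.exp (-(rc (dat η C1 Λ k).A - 1) / 2) *
      massS (dat η C1 Λ k) ≤ δ * massS (dat η C1 Λ k) := mul_le_mul_of_nonneg_right b2 hm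
  have c3 : 4 / (dat η C1 Λ k).κ' ^ 2 ≤ 16 * tk k ^ 16 := by
    change 4 / (C1 / (2 * tk k ^ 8)) ^ 2 ≤ _
    have e : 4 / (C1 / (2 * tk k ^ 8)) ^ 2 = 16 * tk k ^ 16 / C1 ^ 2 := by
      field_simp
      ring
    rw [e]
    exact div_le_self (by positivity) (one_le_pow₀ hC1)
  have c4 : rc (dat η C1 Λ k).B * (4 / (dat η C1 Λ k).κ' ^ 2) ≤
      (Real.log Λ + 1) * (16 * tk k ^ 16) :=
    mul_le_mul hL c3 (by positivity) (by linarith)
  have c5 : (Real.log Λ + 1) * (16 * tk k ^ 16) * ((Real.log Λ + 1) *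
      (1752 * (tk k ^ 4) ^ 2 * (tk k ^ 4 * ZV k) / tk k ^ 40)) ≤ δ * ZV k := by
    have e : (Real.log Λ + 1) * (16 * tk k ^ 16) * ((Real.log Λ + 1) *
        (1752 * (tk k ^ 4) ^ 2 * (tk k ^ 4 * ZV k) / tk k ^ 40)) =
        28032 * (Real.log Λ + 1) ^ 2 / tk k ^ 12 * ZV k := by
      field_simp
      ring
    rw [e]
    refine mul_le_mul_of_nonneg_right ?_ hZV
    rw [div_le_iff₀ hδ] at htL
    rw [div_le_iff₀ (by positivity)]
    have a1 : tk k ≤ tk k ^ 12 := le_self_pow₀ ht1 (by norm_num)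
    nlinarith
  have c6 := mul_le_mul_of_nonneg_left (b3.trans (mul_le_mul_of_nonneg_left
    (div_le_div_of_nonneg_right (mul_le_mul_of_nonneg_left hZ (by positivity)) (by positivity))
    (by linarith))) (mul_nonneg (rc_nonneg (dat η C1 Λ k).B)
      (by positivity : 0 ≤ 4 / (dat η C1 Λ k).κ' ^ 2))
  have c7 := c6.trans ((mul_le_mul_of_nonneg_right c4 (by positivity)).trans c5)
  linarith

end Pool.Agent.MP_ca0a54_nt.SC.CT
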