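import Pool.Agent.MP_ca0a54_nt.SC.SpecT

/-! Congruences between products of random subsets pin one prime. -/

open Finset

namespace Pool.Agent.MP_ca0a54_nt.SC.CT

namespace Pin

theorem sum_ins (A : Finset ℕ) (g : Finset ℕ → ℕ → ℝ) :
    ∑ T ∈ A.powerset, ∑ q ∈ T, g T q = ∑ T ∈ A.powerset, ∑ q ∈ A \ T, g (insert q T) q := by
  rw [sum_sigma', sum_sigma']
  refine sum_bij' (fun x _ => ⟨x.1.erase x.2, x.2⟩) (fun y _ => ⟨insert y.2 y.1, y.2⟩)
    (fun x hx => ?_) (fun y hy => ?_) (fun x hx => ?_) (fun y hy => ?_) fun x hx => ?_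
  · simp only [mem_sigma, mem_powerset, mem_sdiff] at hx ⊢
    exact ⟨(erase_subset _ _).trans hx.1, hx.1 hx.2, notMem_erase _ _⟩
  · simp only [mem_sigma, mem_powerset, mem_sdiff] at hy ⊢
    exact ⟨insert_subset hy.2.1 hy.1, mem_insert_self _ _⟩
  · simp only [mem_sigma] at hx
    simp only [insert_erase hx.2]
  · simp only [mem_sigma, mem_sdiff] at hy
    simp only [erase_insert hy.2.2]
  · simp only [mem_sigma] at hx
    simp only [insert_erase hx.2]

theorem pb_ins {A T : Finset ℕ} {q : ℕ} (hq : q ∈ A \ T) (h2 : 2 ≤ q) :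
    pb A (insert q T) ≤ pb A T * (2 / q) := by
  have h0 := pb_nonneg A (insert q T)
  have h3 : (2 : ℝ) ≤ q := by exact_mod_cast h2
  have e : pb A (insert q T) * (1 - 1 / (q : ℝ)) = pb A T * (1 / q) := by
    rw [pb, pb, prod_insert (mem_sdiff.1 hq).2, sdiff_insert, ← mul_prod_erase _ _ hq]
    ring
  have h4 : 1 / (q : ℝ) ≤ 1 / 2 := one_div_le_one_div_of_le two_pos h3
  have h5 : pb A T * (2 / q) = 2 * (pb A T * (1 / q)) := by ring
  rw [h5, ← e]
  nlinarith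

theorem rem {A : Finset ℕ} (hA : ∀ q ∈ A, q.Prime) {G : Finset ℕ → ℕ → ℝ} {H : Finset ℕ → ℝ}
    (hG : ∀ T q, 0 ≤ G T q) (h : ∀ T ⊆ A, ∑ q ∈ A \ T, 2 / (q : ℝ) * G (insert q T) q ≤ H T) :
    Ex A (fun T => ∑ q ∈ T, G T q) ≤ Ex A H := by
  simp only [Ex, mul_sum]
  rw [sum_ins]
  refine sum_le_sum fun T hT => le_trans ?_
    (mul_le_mul_of_nonneg_left (h T (mem_powerset.1 hT)) (pb_nonneg A T))
  rw [mul_sum]
  refine sum_le_sum fun q hq => ?_
  rw [← mul_assoc]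
  exact mul_le_mul_of_nonneg_right (pb_ins hq (hA q (mem_sdiff.1 hq).1).two_le) (hG _ _)

theorem sum_in {T : Finset ℕ} {q : ℕ} (hq : q ∉ T) {f : Finset ℕ → ℝ}
    (h : ∀ E, q ∉ E → f E = 0) :
    ∑ E ∈ (insert q T).powerset, f E = ∑ E ∈ T.powerset, f (insert q E) := by
  rw [sum_powerset_insert hq, sum_eq_zero fun E hE => h E fun h1 => hq (mem_powerset.1 hE h1),
    zero_add]

theorem sum_out {T : Finset ℕ} {q : ℕ} (hq : q ∉ T) {f : Finset ℕ → ℝ}
    (h : ∀ E, q ∈ E → f E = 0) :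
    ∑ E ∈ (insert q T).powerset, f E = ∑ E ∈ T.powerset, f E := by
  rw [sum_powerset_insert hq, sum_eq_zero (f := fun E => f (insert q E))
    fun E _ => h _ (mem_insert_self _ _), add_zero]

variable {a δ : ℝ} {p q : ℕ} {A T : Finset ℕ}

theorem w_out (ha : 0 ≤ a) (hq : q ∉ T) (E : Finset ℕ) :
    (1 + a) * w a (insert q T) E = w a T E := by
  rw [w, w, card_insert_of_notMem hq, pow_succ]
  field_simp

theorem w_out_le (ha : 0 ≤ a) (hq : q ∉ T) (E : Finset ℕ) : w a (insert q T) E ≤ w a T E := by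
  rw [← w_out ha hq E]
  exact le_mul_of_one_le_left (w_nonneg ha _ _) (by linarith)

theorem w_in_le (ha : 0 ≤ a) (hq : q ∉ T) {E : Finset ℕ} (hE : q ∉ E) :
    w a (insert q T) (insert q E) ≤ w a T E := by
  have e : w a (insert q T) (insert q E) = a * w a (insert q T) E := by
    rw [w, w, card_insert_of_notMem hE]
    ring
  rw [← w_out ha hq E, e]
  exact mul_le_mul_of_nonneg_right (by linarith) (w_nonneg ha _ _)

theorem pd_ins {E : Finset ℕ} (hE : q ∉ E) : pd (insert q E) = pd E * q := by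
  rw [pd, prod_insert hE, mul_comm, pd]

theorem not_dvd (hA : ∀ q ∈ A, q.Prime) (hp : p.Prime) (hpA : p ∉ A) {E : Finset ℕ}
    (hE : E ⊆ A) : ¬ p ∣ pd E := by
  intro h
  obtain ⟨q, h1, h2⟩ := (hp.prime.dvd_finsetProd_iff _).1 h
  exact hpA ((Nat.prime_dvd_prime_iff_eq hp (hA q (hE h1))).1 h2 ▸ hE h1)

theorem pin1 (h : Thin A p δ) (T : Finset ℕ) {u : ℕ} (hu : ¬ p ∣ u) (v : ℕ) {c : ℝ}
    (hc : 0 ≤ c) :
    ∑ q ∈ A \ T, 2 / (q : ℝ) * (if u * q ≡ v [MOD p] then c else 0) ≤ 2 * δ * c := by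
  have h1 := h u v hu
  rw [rc, sum_filter] at h1
  refine le_trans (sum_le_sum_of_subset_of_nonneg sdiff_subset fun q _ _ => by positivity) ?_
  refine le_trans (le_of_eq ?_) (mul_le_mul_of_nonneg_right
    (mul_le_mul_of_nonneg_left h1 zero_le_two) hc)
  rw [mul_sum, sum_mul]
  refine sum_congr rfl fun q _ => ?_
  split_ifs <;> ring

theorem pin_sum {S : Finset ℕ} {s : Finset (Finset ℕ)} {f : ℕ → Finset ℕ → ℝ} {g : Finset ℕ → ℝ}
    (h : ∀ i ∈ s, ∑ q ∈ S, 2 / (q : ℝ) * f q i ≤ g i) :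
    ∑ q ∈ S, 2 / (q : ℝ) * ∑ i ∈ s, f q i ≤ ∑ i ∈ s, g i := by
  simp only [mul_sum]
  rw [sum_comm]
  exact sum_le_sum h

theorem sep {E F : Finset ℕ} (hE : E ⊆ T) (hF : F ⊆ T) (h : E ≠ F) :
    ∃ q ∈ T, (q ∈ E ∧ q ∉ F) ∨ (q ∈ F ∧ q ∉ E) := by
  by_contra h1
  refine h (ext fun q => ⟨fun h2 => ?_, fun h2 => ?_⟩)
  · by_contra h3
    exact h1 ⟨q, hE h2, Or.inl ⟨h2, h3⟩⟩
  · by_contra h3
    exact h1 ⟨q, hF h2, Or.inr ⟨h2, h3⟩⟩

/-- Pairs separated by `q`. -/
noncomputable def t2 (a : ℝ) (p : ℕ) (T : Finset ℕ) (q : ℕ) (E F : Finset ℕ) : ℝ :=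
  if (q ∈ E ∧ q ∉ F) ∧ pd E ≡ pd F [MOD p] then w a T E * w a T F else 0

theorem t2_nonneg (ha : 0 ≤ a) (T : Finset ℕ) (q : ℕ) (E F : Finset ℕ) : 0 ≤ t2 a p T q E F := by
  have := w_nonneg ha T E
  have := w_nonneg ha T F
  unfold t2
  positivity

theorem two_le (ha : 0 ≤ a) (T : Finset ℕ) :
    two a p T ≤ ∑ q ∈ T, 2 * ∑ E ∈ T.powerset, ∑ F ∈ T.powerset, t2 a p T q E F := by
  have e : ∀ q, 2 * ∑ E ∈ T.powerset, ∑ F ∈ T.powerset, t2 a p T q E F =
      ∑ E ∈ T.powerset, ∑ F ∈ T.powerset, (t2 a p T q E F + t2 a p T q F E) := fun q => by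
    simp only [sum_add_distrib]
    rw [two_mul, sum_comm (f := fun E F => t2 a p T q F E)]
  simp only [e]
  rw [sum_comm]
  refine sum_le_sum fun E hE => ?_
  rw [sum_comm]
  refine sum_le_sum fun F hF => ?_
  have h0 : ∀ q ∈ T, 0 ≤ t2 a p T q E F + t2 a p T q F E := fun q _ =>
    add_nonneg (t2_nonneg ha _ _ _ _) (t2_nonneg ha _ _ _ _)
  split_ifs with h
  · obtain ⟨q, h1, h2⟩ := sep (mem_powerset.1 hE) (mem_powerset.1 hF) h.1
    refine le_trans ?_ (single_le_sum h0 h1)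
    rcases h2 with h2 | h2
    · refine le_add_of_le_of_nonneg (le_of_eq ?_) (t2_nonneg ha _ _ _ _)
      rw [t2, if_pos ⟨h2, h.2⟩]
    · refine le_add_of_nonneg_of_le (t2_nonneg ha _ _ _ _) (le_of_eq ?_)
      rw [t2, if_pos ⟨h2, h.2.symm⟩, mul_comm]
  · exact sum_nonneg h0

theorem t2_ins (ha : 0 ≤ a) (hq : q ∉ T) :
    (1 + a) * ∑ E ∈ (insert q T).powerset, ∑ F ∈ (insert q T).powerset,
      t2 a p (insert q T) q E F ≤ ∑ E ∈ T.powerset, ∑ F ∈ T.powerset,
      if pd E * q ≡ pd F [MOD p] then w a T E * w a T F else 0 := by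
  simp only [t2]
  rw [sum_in hq fun E h => sum_eq_zero fun F _ => if_neg fun h1 => h h1.1.1, mul_sum]
  refine sum_le_sum fun E hE => ?_
  rw [sum_out hq fun F h => if_neg fun h1 => h1.1.2 h, mul_sum]
  refine sum_le_sum fun F _ => ?_
  have hE' : q ∉ E := fun h => hq (mem_powerset.1 hE h)
  have h1 := w_nonneg ha T E
  have h2 := w_nonneg ha T F
  rw [pd_ins hE']
  split_ifs with h3 h4
  · rw [mul_left_comm, w_out ha hq]
    exact mul_le_mul_of_nonneg_right (w_in_le ha hq hE') h2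
  · exact absurd h3.2 h4
  · rw [mul_zero]; positivity
  · rw [mul_zero]

/-- One term of `two`. -/
noncomputable def tw (a : ℝ) (p : ℕ) (T F G : Finset ℕ) : ℝ :=
  if F ≠ G ∧ pd F ≡ pd G [MOD p] then w a T F * w a T G else 0

theorem tw_nonneg (ha : 0 ≤ a) (T F G : Finset ℕ) : 0 ≤ tw a p T F G := by
  have := w_nonneg ha T F
  have := w_nonneg ha T G
  unfold tw
  positivity

theorem tw_out (ha : 0 ≤ a) (hq : q ∉ T) (F G : Finset ℕ) :
    (1 + a) * tw a p (insert q T) F G ≤ tw a p T F G := by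
  unfold tw
  split_ifs
  · rw [← mul_assoc, w_out ha hq]
    exact mul_le_mul_of_nonneg_left (w_out_le ha hq G) (w_nonneg ha _ _)
  · rw [mul_zero]

theorem tw_in (ha : 0 ≤ a) (hq : q ∉ T) (hc : Nat.gcd p q = 1) {F G : Finset ℕ} (hF : q ∉ F)
    (hG : q ∉ G) : tw a p (insert q T) (insert q F) (insert q G) ≤ tw a p T F G := by
  rw [tw]
  split_ifs with h
  · rw [pd_ins hF, pd_ins hG] at h
    rw [tw, if_pos ⟨fun e => h.1 (by rw [e]), h.2.cancel_right_of_coprime hc⟩]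
    exact mul_le_mul (w_in_le ha hq hF) (w_in_le ha hq hG) (w_nonneg ha _ _) (w_nonneg ha _ _)
  · exact tw_nonneg ha _ _ _

/-- Triples where `q` lies only in the first set. -/
noncomputable def ta (a : ℝ) (p : ℕ) (T : Finset ℕ) (q : ℕ) (E F G : Finset ℕ) : ℝ :=
  if (q ∈ E ∧ q ∉ F ∧ q ∉ G) ∧ pd E ≡ pd F [MOD p] then w a T E * tw a p T F G else 0

/-- Triples where `q` misses only the first set. -/
noncomputable def tb (a : ℝ) (p : ℕ) (T : Finset ℕ) (q : ℕ) (E F G : Finset ℕ) : ℝ :=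
  if (q ∉ E ∧ q ∈ F ∧ q ∈ G) ∧ pd E ≡ pd F [MOD p] then w a T E * tw a p T F G else 0

theorem ta_nonneg (ha : 0 ≤ a) (T : Finset ℕ) (q : ℕ) (E F G : Finset ℕ) :
    0 ≤ ta a p T q E F G := by
  have := w_nonneg ha T E
  have := tw_nonneg (p := p) ha T F G
  unfold ta
  positivity

theorem tb_nonneg (ha : 0 ≤ a) (T : Finset ℕ) (q : ℕ) (E F G : Finset ℕ) :
    0 ≤ tb a p T q E F G := by
  have := w_nonneg ha T E
  have := tw_nonneg (p := p) ha T F G
  unfold tb
  positivity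

/-- The sum over all triples. -/
noncomputable def s3 (T : Finset ℕ) (f : Finset ℕ → Finset ℕ → Finset ℕ → ℝ) : ℝ :=
  ∑ E ∈ T.powerset, ∑ F ∈ T.powerset, ∑ G ∈ T.powerset, f E F G

theorem three_le (ha : 0 ≤ a) (T : Finset ℕ) :
    three a p T ≤ ∑ q ∈ T, 2 * (s3 T (ta a p T q) + s3 T (tb a p T q)) := by
  have e : ∀ q, 2 * (s3 T (ta a p T q) + s3 T (tb a p T q)) =
      ∑ E ∈ T.powerset, ∑ F ∈ T.powerset, ∑ G ∈ T.powerset,
        (ta a p T q E F G + tb a p T q E F G + (ta a p T q F E G + tb a p T q F E G)) :=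
    fun q => by
    simp only [sum_add_distrib, s3]
    rw [two_mul, sum_comm (f := fun E F => ∑ G ∈ T.powerset, ta a p T q F E G),
      sum_comm (f := fun E F => ∑ G ∈ T.powerset, tb a p T q F E G)]
  simp only [e]
  rw [sum_comm]
  refine sum_le_sum fun E hE => ?_
  rw [sum_comm (s := T)]
  refine sum_le_sum fun F hF => ?_
  rw [sum_comm (s := T)]
  refine sum_le_sum fun G _ => ?_
  have h0 : ∀ q ∈ T, 0 ≤ ta a p T q E F G + tb a p T q E F G +
      (ta a p T q F E G + tb a p T q F E G) := fun q _ =>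
    add_nonneg (add_nonneg (ta_nonneg ha _ _ _ _ _) (tb_nonneg ha _ _ _ _ _))
      (add_nonneg (ta_nonneg ha _ _ _ _ _) (tb_nonneg ha _ _ _ _ _))
  split_ifs with h
  · obtain ⟨q, h1, h2⟩ := sep (mem_powerset.1 hE) (mem_powerset.1 hF) h.1.1
    refine le_trans ?_ (single_le_sum h0 h1)
    have a1 := ta_nonneg (p := p) ha T q E F G
    have a2 := tb_nonneg (p := p) ha T q E F G
    have a3 := ta_nonneg (p := p) ha T q F E G
    have a4 := tb_nonneg (p := p) ha T q F E G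
    have b1 : w a T E * tw a p T F G = w a T E * w a T F * w a T G := by
      rw [tw, if_pos ⟨h.1.2.2, h.2.1.symm.trans h.2.2⟩, mul_assoc]
    have b2 : w a T F * tw a p T E G = w a T E * w a T F * w a T G := by
      rw [tw, if_pos ⟨h.1.2.1, h.2.2⟩]; ring
    by_cases hG : q ∈ G <;> rcases h2 with h2 | h2
    · have : tb a p T q F E G = _ := (if_pos ⟨⟨h2.2, h2.1, hG⟩, h.2.1.symm⟩).trans b2
      linarith
    · have : tb a p T q E F G = _ := (if_pos ⟨⟨h2.2, h2.1, hG⟩, h.2.1⟩).trans b1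
      linarith
    · have : ta a p T q E F G = _ := (if_pos ⟨⟨h2.1, h2.2, hG⟩, h.2.1⟩).trans b1
      linarith
    · have : ta a p T q F E G = _ := (if_pos ⟨⟨h2.1, h2.2, hG⟩, h.2.1.symm⟩).trans b2
      linarith
  · exact sum_nonneg h0

theorem ta_ins (ha : 0 ≤ a) (hq : q ∉ T) :
    (1 + a) * s3 (insert q T) (ta a p (insert q T) q) ≤ s3 T fun E F G =>
      if pd E * q ≡ pd F [MOD p] then w a T E * tw a p T F G else 0 := by
  simp only [s3, ta]
  rw [sum_in hq fun E h => sum_eq_zero fun F _ => sum_eq_zero fun G _ =>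
    if_neg fun h1 => h h1.1.1, mul_sum]
  refine sum_le_sum fun E hE => ?_
  rw [sum_out hq fun F h => sum_eq_zero fun G _ => if_neg fun h1 => h1.1.2.1 h, mul_sum]
  refine sum_le_sum fun F _ => ?_
  rw [sum_out hq fun G h => if_neg fun h1 => h1.1.2.2 h, mul_sum]
  refine sum_le_sum fun G _ => ?_
  have hE' : q ∉ E := fun h => hq (mem_powerset.1 hE h)
  have h1 := w_nonneg ha T E
  have h2 := tw_nonneg (p := p) ha T F G
  rw [pd_ins hE']
  split_ifs with h3 h4
  · rw [mul_left_comm]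
    exact mul_le_mul (w_in_le ha hq hE') (tw_out ha hq F G)
      (mul_nonneg (by linarith) (tw_nonneg ha _ _ _)) h1
  · exact absurd h3.2 h4
  · rw [mul_zero]; positivity
  · rw [mul_zero]

theorem tb_ins (ha : 0 ≤ a) (hq : q ∉ T) (hc : Nat.gcd p q = 1) :
    (1 + a) * s3 (insert q T) (tb a p (insert q T) q) ≤ s3 T fun E F G =>
      if pd F * q ≡ pd E [MOD p] then w a T E * tw a p T F G else 0 := by
  simp only [s3, tb]
  rw [sum_out hq fun E h => sum_eq_zero fun F _ => sum_eq_zero fun G _ =>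
    if_neg fun h1 => h1.1.1 h, mul_sum]
  refine sum_le_sum fun E _ => ?_
  rw [sum_in hq fun F h => sum_eq_zero fun G _ => if_neg fun h1 => h h1.1.2.1, mul_sum]
  refine sum_le_sum fun F hF => ?_
  rw [sum_in hq fun G h => if_neg fun h1 => h h1.1.2.2, mul_sum]
  refine sum_le_sum fun G hG => ?_
  have hF' : q ∉ F := fun h => hq (mem_powerset.1 hF h)
  have hG' : q ∉ G := fun h => hq (mem_powerset.1 hG h)
  have h1 := w_nonneg ha T E
  have h2 := tw_nonneg (p := p) ha T F G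
  rw [pd_ins hF']
  split_ifs with h3 h4
  · rw [← mul_assoc, w_out ha hq]
    exact mul_le_mul_of_nonneg_left (tw_in ha hq hc hF' hG') h1
  · exact absurd h3.2.symm h4
  · rw [mul_zero]; positivity
  · rw [mul_zero]

theorem s3_tw (ha : 0 ≤ a) (c : ℝ) (T : Finset ℕ) :
    (s3 T fun E F G => c * (w a T E * tw a p T F G)) = c * two a p T := by
  simp only [s3, ← mul_sum, ← sum_mul, sum_w ha, one_mul]
  rfl

theorem s3_nonneg {f : Finset ℕ → Finset ℕ → Finset ℕ → ℝ} (h : ∀ E F G, 0 ≤ f E F G) :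
    0 ≤ s3 T f := sum_nonneg fun _ _ => sum_nonneg fun _ _ => sum_nonneg fun _ _ => h _ _ _

theorem scale {S : Finset ℕ} {c u B : ℝ} (hc : 0 ≤ c) {x y : ℕ → ℝ} (h : ∀ q ∈ S, u * x q ≤ y q)
    (hB : ∑ q ∈ S, 2 / (q : ℝ) * y q ≤ B) :
    ∑ q ∈ S, 2 / (q : ℝ) * (c * u * (2 * x q)) ≤ 2 * c * B := by
  refine le_trans ?_ (mul_le_mul_of_nonneg_left hB (by positivity))
  rw [mul_sum]
  refine sum_le_sum fun q hq => ?_
  have h1 : 0 ≤ 2 * c * (2 / (q : ℝ)) := by positivity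
  have h2 := mul_le_mul_of_nonneg_left (h q hq) h1
  linarith

end Pin

open Pin

theorem pinTwo : PinTwoStmt := by
  intro A a δ p hA hp hpA ha hT
  have hδ : 0 ≤ δ := (rc_nonneg _).trans (hT 1 0 hp.not_dvd_one)
  rw [Zm, ← Ex_mul]
  refine le_trans (Ex_mono fun T _ => ?_) (rem hA (G := fun T q => (1 + a) ^ T.card *
    (2 * ∑ E ∈ T.powerset, ∑ F ∈ T.powerset, t2 a p T q E F)) (fun T q => ?_) fun T hTA => ?_)
  · rw [← mul_sum]
    exact mul_le_mul_of_nonneg_left (two_le ha T) (by positivity)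
  · exact mul_nonneg (by positivity) (mul_nonneg zero_le_two
      (sum_nonneg fun _ _ => sum_nonneg fun _ _ => t2_nonneg ha _ _ _ _))
  · have h0 : 0 ≤ (1 + a) ^ T.card := by positivity
    have h1 := scale h0 (fun q hq => t2_ins (p := p) ha (mem_sdiff.1 hq).2)
      (pin_sum fun E hE => pin_sum fun F _ => pin1 hT T
        (not_dvd hA hp hpA ((mem_powerset.1 hE).trans hTA)) (pd F)
        (mul_nonneg (w_nonneg ha T E) (w_nonneg ha T F)))
    simp only [← mul_sum, sum_w ha, mul_one] at h1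
    refine le_trans (le_of_eq (sum_congr rfl fun q hq => ?_)) (h1.trans (by nlinarith))
    rw [card_insert_of_notMem (mem_sdiff.1 hq).2, pow_succ]

theorem pinThree : PinThreeStmt := by
  intro A a δ p hA hp hpA ha hT
  have hδ : 0 ≤ δ := (rc_nonneg _).trans (hT 1 0 hp.not_dvd_one)
  rw [← Ex_mul]
  refine le_trans (Ex_mono fun T _ => ?_) (rem hA (G := fun T q => (1 + a) ^ T.card *
    (2 * (s3 T (ta a p T q) + s3 T (tb a p T q)))) (fun T q => ?_) fun T hTA => ?_)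
  · rw [← mul_sum]
    exact mul_le_mul_of_nonneg_left (three_le ha T) (by positivity)
  · exact mul_nonneg (by positivity) (mul_nonneg zero_le_two
      (add_nonneg (s3_nonneg (ta_nonneg ha _ _)) (s3_nonneg (tb_nonneg ha _ _))))
  · have h0 : 0 ≤ (1 + a) ^ T.card := by positivity
    have hw : ∀ E F G, 0 ≤ w a T E * tw a p T F G := fun E F G =>
      mul_nonneg (w_nonneg ha T E) (tw_nonneg ha T F G)
    have h1 := scale h0 (fun q hq => ta_ins (p := p) ha (mem_sdiff.1 hq).2)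
      ((pin_sum fun E hE => pin_sum fun F _ => pin_sum fun G _ => pin1 hT T
        (not_dvd hA hp hpA ((mem_powerset.1 hE).trans hTA)) (pd F) (hw E F G)).trans_eq
        (s3_tw ha _ T))
    have h2 := scale h0 (fun q hq => tb_ins (p := p) ha (mem_sdiff.1 hq).2
        ((Nat.coprime_primes hp (hA q (mem_sdiff.1 hq).1)).2 fun e => hpA (e ▸ (mem_sdiff.1 hq).1)))
      ((pin_sum fun E _ => pin_sum fun F hF => pin_sum fun G _ => pin1 hT T
        (not_dvd hA hp hpA ((mem_powerset.1 hF).trans hTA)) (pd E) (hw E F G)).trans_eq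
        (s3_tw ha _ T))
    have h3 : 0 ≤ two a p T :=
      sum_nonneg fun F _ => sum_nonneg fun G _ => tw_nonneg ha T F G
    have h4 : 0 ≤ δ * ((1 + a) ^ T.card * two a p T) := by positivity
    refine le_trans (le_of_eq ?_) ((add_le_add h1 h2).trans (by linarith))
    rw [← sum_add_distrib]
    refine sum_congr rfl fun q hq => ?_
    rw [card_insert_of_notMem (mem_sdiff.1 hq).2, pow_succ]
    ring

end Pool.Agent.MP_ca0a54_nt.SC.CT
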