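import Pool.Agent.MP_ca0a54_nt.SC.Glue
import Pool.Agent.MP_ca0a54_nt.SC.TPow
import Pool.Agent.MP_ca0a54_nt.SC.TInd
import Pool.Agent.MP_ca0a54_nt.SC.TTr
import Pool.Agent.MP_ca0a54_nt.SC.TKer
import Pool.Agent.MP_ca0a54_nt.SC.TSld
import Pool.Agent.MP_ca0a54_nt.SC.TRem
import Pool.Agent.MP_ca0a54_nt.SC.TCol
import Pool.Agent.MP_ca0a54_nt.SC.TPin
import Pool.Agent.MP_ca0a54_nt.SC.TLoc
import Pool.Agent.MP_ca0a54_nt.SC.TTri
import Pool.Agent.MP_ca0a54_nt.SC.TExp
import Pool.Agent.MP_ca0a54_nt.SC.TNice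
import Pool.Agent.MP_ca0a54_nt.SC.TLow
import Pool.Agent.MP_ca0a54_nt.SC.TGood
import Pool.Agent.MP_ca0a54_nt.SC.THyp
import Pool.Agent.MP_ca0a54_nt.SC.TBest
import Pool.Agent.MP_ca0a54_nt.SC.TCore

/-! The last assembly. -/

namespace Pool.Agent.MP_ca0a54_nt.SC

open CT

theorem core : CoreStmt :=
  coreOf (est (sld (ker (tr pow ind)) (modl ind) per) (rem ind (modl ind) per) (hyp cond bm)
    (best (bad cond col) pinTwo pinThree del (sec (expd cond) (tri loc)) nice (hyp cond bm)))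
    (massl (low wn) nice bm) (good wn) (hyp cond bm)

/-- The two point bound for the Liouville function at every scale. -/
theorem twoPoint : ChStmt := chowla core

theorem every : FinalStmt := final core

end Pool.Agent.MP_ca0a54_nt.SC
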