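import Pool.Agent.MP_ca0a54_nt.SC.Spec
import Pool.Agent.MP_ca0a54_nt.H78M.Spec

/-! Short sums with a rational twist, at every scale. -/

open Complex Filter Finset

namespace Pool.Agent.MP_ca0a54_nt.SC.RAT

open Pool.Agent.MP_ca0a54_nt.BH

theorem win {F : ℕ → ℝ} {c b : ℝ} {a : ℕ} (ha : 2 ≤ a) (hc : 0 ≤ c) (hF : ∀ n, 0 ≤ F n)
    (hb : ∀ n, F n ≤ b) (h : ∀ X, a ≤ X → ∑ n ∈ Ioc X (2 * X), F n ≤ c * X) (N : ℕ) :
    LS N F ≤ 2 * c * N + b * (2 * a) := by
  have b0 : 0 ≤ b := (hF 0).trans (hb 0)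
  induction N using Nat.strong_induction_on with
  | _ N ih =>
    by_cases hN : N ≤ 2 * a
    · have h1 : LS N F ≤ N * b := by
        simpa [LS] using sum_le_card_nsmul (Ioc 0 N) F b fun n _ => hb n
      have h2 : (N : ℝ) ≤ 2 * a := by exact_mod_cast hN
      have h3 : 0 ≤ 2 * c * N := by positivity
      nlinarith
    · have h1 := ih ((N + 1) / 2) (by omega)
      have h2 := h ((N + 1) / 2) (by omega)
      have h3 : LS N F ≤ LS ((N + 1) / 2) F + ∑ n ∈ Ioc ((N + 1) / 2) (2 * ((N + 1) / 2)), F n := by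
        rw [LS, LS, sum_Ioc_consecutive _ (Nat.zero_le _) (by omega)]
        exact sum_le_sum_of_subset_of_nonneg (Ioc_subset_Ioc_right (by omega)) fun n _ _ => hF n
      have h4 : 3 * (((N + 1) / 2 : ℕ) : ℝ) ≤ 2 * N := by
        exact_mod_cast (by omega : 3 * ((N + 1) / 2) ≤ 2 * N)
      nlinarith

theorem rat (fin : H78M.FinStmt) (α : ℚ) : Short (tw α) := by
  intro ε hε
  obtain ⟨H₁, hH⟩ := fin α.den (ε / 4) α.den_pos (by positivity)
  filter_upwards [eventually_ge_atTop H₁, eventually_ge_atTop 1] with K hK K1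
  obtain ⟨X₀, hX⟩ := eventually_atTop.1 (hH K hK)
  filter_upwards [tendsto_lg.eventually_ge_atTop ((6 + 4 * (X₀ + 2 : ℕ)) / ε)] with N h3
  have K0 : (0 : ℝ) < K := by exact_mod_cast K1
  set F : ℕ → ℝ := fun n => ‖∑ j ∈ range K, tw α (n + j)‖ ^ 2 with hF
  have hb : ∀ n, |F n| ≤ (K : ℝ) ^ 2 := fun n => by
    rw [abs_of_nonneg (by positivity)]
    refine pow_le_pow_left₀ (norm_nonneg _) ((norm_sum_le _ _).trans
      ((sum_le_card_nsmul _ _ 1 fun j _ => ?_).trans_eq (by simp))) 2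
    rw [tw, norm_mul, norm_ei, mul_one, norm_real]
    exact abs_lam_le _
  have h4 := (abs_le.1 (LS_shift hb N 1)).1
  have h5 := win (F := fun n => F (n + 1)) (c := ε / 4 * K ^ 2) (a := X₀ + 2) (N := N) (by omega)
    (by positivity) (fun n => by positivity) (fun n => (le_abs_self _).trans (hb _)) fun X hX' => by
      have a1 := hX X (by omega) (fun n => ei (2 * Real.pi * α * n))
        (fun n => (norm_ei _).le) fun n => by
          rw [Nat.cast_add, mul_add, ei_add, mul_assoc _ (α : ℝ) (α.den : ℝ),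
            show (α : ℝ) * α.den = α.num by exact_mod_cast α.mul_den_eq_num]
          have : ei (2 * Real.pi * α.num) = 1 := by
            rw [ei, exp_eq_one_iff]
            exact ⟨α.num, by push_cast; ring⟩
          rw [this, mul_one]
      rw [mul_right_comm]
      refine le_of_eq_of_le ?_ (mul_le_mul_of_nonneg_right a1 (sq_nonneg (K : ℝ)))
      rw [H78M.sh, sum_mul]
      refine sum_congr rfl fun x _ => ?_
      rw [norm_mul, norm_inv, norm_natCast, mul_pow, hF, ← Ico_add_one_right_eq_Icc,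
        sum_Ico_eq_sum_range, Nat.add_sub_cancel]
      field_simp
      congr 2
      refine sum_congr rfl fun j _ => ?_
      rw [add_assoc, tw, lam, H78M.lam, ofReal_intCast]
  rw [div_le_iff₀ hε] at h3
  have h6 := mul_le_mul_of_nonneg_left h3 (sq_nonneg (K : ℝ))
  unfold lg at h6 ⊢
  push_cast at h4 h5 h6
  nlinarith

theorem short (fin : H78M.FinStmt) (irr : ∀ α : ℝ, Irrational α → Short (tw α)) (α : ℝ) :
    Short (tw α) := by
  by_cases h : Irrational α
  · exact irr α h
  · obtain ⟨q, rfl⟩ := not_not.1 h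
    exact rat fin q

end Pool.Agent.MP_ca0a54_nt.SC.RAT
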