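import Pool.Agent.MP_ca0a54_nt.SC.Spec
import Pool.Agent.MP_ca0a54_nt.BH.ZFIN

/-! From the local inequality and the two point bound at every scale to the final statement. -/

open Complex Filter Finset

namespace Pool.Agent.MP_ca0a54_nt.SC.ZF

open Pool.Agent.MP_ca0a54_nt.BH (lam Gap Z1Stmt ZdStmt Zo1Stmt Zo2Stmt)

theorem abel {u : ℝ → ℂ} {Λ ε : ℝ} {g : ℕ → ℝ} {a : ℕ} (ha : 1 ≤ a) (hΛ : 0 ≤ Λ) (hε : 0 ≤ ε)
    (bd : ∀ v, ‖u v‖ ≤ 2) (lip : ∀ v w, ‖u v - u w‖ ≤ Λ * |v - w|)
    (hz : ∀ m : ℕ, 1 ≤ m → m ≤ a → u (Real.log m) = 0) (hg : ∀ X, a ≤ X → |LS X g| ≤ ε * X)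
    {M : ℕ} (hM : a ≤ M) :
    ‖BH.LC M (fun m => u (Real.log m) * (g m : ℝ)) - u (Real.log M) / M * (LS M g : ℝ)‖ ≤
      ε * (Λ + 2) * (Real.log M - Real.log a) := by
  induction M, hM using Nat.le_induction with
  | base =>
    rw [hz a ha le_rfl, BH.LC, sum_eq_zero fun m hm => by
      rw [hz m (mem_Icc.1 hm).1 (mem_Icc.1 hm).2, zero_mul, zero_div]]
    simp
  | succ M hM ih =>
    have M0 : (0 : ℝ) < M := by exact_mod_cast ha.trans hM
    have M1 : (M : ℂ) ≠ 0 := by exact_mod_cast M0.ne'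
    have M2 : (M : ℂ) + 1 ≠ 0 := by exact_mod_cast (by positivity : (M : ℝ) + 1 ≠ 0)
    have e : BH.LC (M + 1) (fun m => u (Real.log m) * (g m : ℝ)) -
        u (Real.log (M + 1 : ℕ)) / (M + 1 : ℕ) * (LS (M + 1) g : ℝ) =
        (BH.LC M (fun m => u (Real.log m) * (g m : ℝ)) - u (Real.log M) / M * (LS M g : ℝ)) +
        (u (Real.log M) + M * (u (Real.log M) - u (Real.log (M + 1 : ℕ)))) *
          ((LS M g / (M * (M + 1)) : ℝ) : ℂ) := by
      rw [BH.LC, BH.LC, sum_Icc_succ_top (Nat.succ_pos M), LS, LS, sum_Ioc_succ_top (Nat.zero_le M)]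
      push_cast
      field_simp
      ring
    have l1 : Real.log (M + 1 : ℕ) - Real.log M ≤ 1 / M := by
      rw [← Real.log_div (by positivity) M0.ne']
      refine (Real.log_le_sub_one_of_pos (by positivity)).trans_eq ?_
      push_cast
      field_simp
      ring
    have l2 : 1 / ((M : ℝ) + 1) ≤ Real.log (M + 1 : ℕ) - Real.log M := by
      have := Real.log_le_sub_one_of_pos (show 0 < (M : ℝ) / (M + 1 : ℕ) by positivity)
      rw [Real.log_div M0.ne' (by positivity)] at this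
      have e2 : (M : ℝ) / (M + 1 : ℕ) - 1 = -(1 / ((M : ℝ) + 1)) := by
        push_cast
        field_simp
        ring
      linarith
    have l3 : 0 < 1 / ((M : ℝ) + 1) := by positivity
    have n1 : ‖u (Real.log M) + M * (u (Real.log M) - u (Real.log (M + 1 : ℕ)))‖ ≤ Λ + 2 := by
      refine (norm_add_le _ _).trans ?_
      have h1 := lip (Real.log M) (Real.log (M + 1 : ℕ))
      rw [abs_sub_comm, abs_of_nonneg (by linarith)] at h1
      have h2 := mul_le_mul_of_nonneg_left (h1.trans (mul_le_mul_of_nonneg_left l1 hΛ)) M0.le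
      rw [show (M : ℝ) * (Λ * (1 / M)) = Λ by field_simp] at h2
      rw [norm_mul, norm_natCast]
      linarith [bd (Real.log M)]
    have n2 : ‖((LS M g / (M * (M + 1)) : ℝ) : ℂ)‖ ≤ ε * (1 / ((M : ℝ) + 1)) := by
      rw [norm_real, Real.norm_eq_abs, abs_div, abs_of_pos (by positivity : (0 : ℝ) < M * (M + 1)),
        div_le_iff₀ (by positivity)]
      refine (hg M hM).trans_eq ?_
      field_simp
    rw [e]
    refine (norm_add_le _ _).trans ?_
    rw [norm_mul]
    have n3 := mul_le_mul n1 (n2.trans (mul_le_mul_of_nonneg_left l2 hε)) (norm_nonneg _)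
      (by positivity)
    linarith

theorem zf (hc : ChStmt) (h1 : Z1Stmt) (hd : ZdStmt) (ho : Zo1Stmt) (hw : Zo2Stmt) :
    FinalStmt := by
  intro C
  obtain ⟨K, Λ, H, hΛ, hH, hloc⟩ := BH.ZFIN.loc h1 hd ho hw C
  set G : ℝ := 8 * H * Real.exp Λ with hG
  have eΛ : 1 ≤ Real.exp Λ := Real.one_le_exp (by linarith)
  have G1 : 1 ≤ G := by nlinarith
  have G2 := Real.log_nonneg G1
  set R : ℝ := (Λ + 2) * Real.log G + 2 with hR
  have R0 : 0 < R := by positivity
  set ε : ℝ := 1 / ((K + 1) * R) with hε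
  have ε0 : 0 < ε := by positivity
  obtain ⟨X₀, hX⟩ := eventually_atTop.1 ((eventually_all_finset (Icc 1 K)).2 fun h hh =>
    hc h ε (mem_Icc.1 hh).1 ε0)
  refine eventually_atTop.1 ?_
  filter_upwards [hloc, eventually_ge_atTop (2 * Real.exp Λ * (X₀ + 1))] with T hT T1
  by_contra hn
  obtain ⟨u, u1, u2⟩ := hT hn
  have X0 : (0 : ℝ) ≤ X₀ := Nat.cast_nonneg _
  have T2 : (X₀ : ℝ) + 1 ≤ T / (2 * Real.exp Λ) := by
    rw [le_div_iff₀ (by positivity)]
    linarith
  have T0 : 1 ≤ T := by nlinarith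
  set a := ⌊T / (2 * Real.exp Λ)⌋₊ with ha
  set M := ⌈H * T⌉₊ with hM
  have a1 : X₀ + 1 ≤ a := Nat.le_floor (by exact_mod_cast T2)
  have a2 : (a : ℝ) ≤ T / (2 * Real.exp Λ) := Nat.floor_le (by positivity)
  have a3 : T / (2 * Real.exp Λ) < a + 1 := Nat.lt_floor_add_one _
  have a4 : (1 : ℝ) ≤ a := by exact_mod_cast (by omega : 1 ≤ a)
  have a5 : (a : ℝ) * (2 * Real.exp Λ) ≤ T := (le_div_iff₀ (by positivity)).1 a2
  have m1 : H * T ≤ M := Nat.le_ceil _
  have m2 : (M : ℝ) < H * T + 1 := Nat.ceil_lt_add_one (by positivity)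
  have m3 : a ≤ M := by exact_mod_cast (show (a : ℝ) ≤ M by nlinarith)
  have m4 : Real.log M - Real.log a ≤ Real.log G := by
    rw [sub_le_iff_le_add, ← Real.log_mul (by positivity) (by positivity)]
    refine Real.log_le_log (by nlinarith) ?_
    rw [div_lt_iff₀ (by positivity)] at a3
    have b1 : T ≤ 4 * Real.exp Λ * a := by nlinarith
    have b2 := mul_le_mul_of_nonneg_left b1 (show 0 ≤ H by positivity)
    nlinarith
  have key : ∀ h ∈ Icc 1 K,
      ‖BH.LC M fun m => u h (Real.log m) * (lam m * lam (m + h) : ℝ)‖ ≤ ε * R := fun h hh => by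
    have k1 := abel (g := fun m => lam m * lam (m + h)) (by omega : 1 ≤ a) (by linarith) ε0.le
      (u1 h hh).bd (u1 h hh).lip (fun m h1 h2 => (u1 h hh).supp _ (lt_abs.2 (Or.inr ?_)))
      (fun X h1 => hX X (by omega) h hh) m3
    · have k2 : ‖u h (Real.log M) / M * (LS M fun m => lam m * lam (m + h) : ℝ)‖ ≤ 2 * ε := by
        have M0 : (0 : ℝ) < M := by nlinarith
        rw [norm_mul, norm_div, norm_natCast, norm_real, Real.norm_eq_abs, div_mul_eq_mul_div,
          div_le_iff₀ M0, mul_assoc]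
        exact mul_le_mul ((u1 h hh).bd _) (hX M (by omega) h hh) (abs_nonneg _) zero_le_two
      have k3 := mul_le_mul_of_nonneg_left m4 (show 0 ≤ ε * (Λ + 2) by positivity)
      refine (norm_le_insert' _ _).trans ((add_le_add k2 k1).trans ?_)
      rw [hR]
      linarith
    · have m0 : (0 : ℝ) < m := by exact_mod_cast h1
      have k4 : (m : ℝ) * Real.exp Λ < T := by
        have : (m : ℝ) ≤ a := by exact_mod_cast h2
        nlinarith
      have k5 := Real.log_lt_log (by positivity) k4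
      rw [Real.log_mul m0.ne' (by positivity), Real.log_exp] at k5
      linarith
  have c1 := (u2 M le_rfl).trans ((neg_le_abs _).trans ((abs_im_le_norm _).trans
    ((norm_sum_le _ _).trans (sum_le_card_nsmul _ _ _ key))))
  rw [nsmul_eq_mul, Nat.card_Icc, Nat.add_sub_cancel, show ε * R = 1 / (K + 1) by
    rw [hε]; field_simp, mul_one_div, le_div_iff₀ (by positivity)] at c1
  linarith

end Pool.Agent.MP_ca0a54_nt.SC.ZF
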