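import Pool.Agent.MP_ca0a54_nt.SC.AVG
import Pool.Agent.MP_ca0a54_nt.SC.CH
import Pool.Agent.MP_ca0a54_nt.SC.IRR
import Pool.Agent.MP_ca0a54_nt.SC.RAT
import Pool.Agent.MP_ca0a54_nt.SC.WIEN
import Pool.Agent.MP_ca0a54_nt.SC.ZF
import Pool.Agent.MP_ca0a54_nt.H78M.Fin
import Pool.Agent.MP_ca0a54_nt.BH.GAL
import Pool.Agent.MP_ca0a54_nt.BH.MV
import Pool.Agent.MP_ca0a54_nt.BH.SEL
import Pool.Agent.MP_ca0a54_nt.BH.SLOW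
import Pool.Agent.MP_ca0a54_nt.BH.TWIN
import Pool.Agent.MP_ca0a54_nt.BH.ZA
import Pool.Agent.MP_ca0a54_nt.BH.ZE
import Pool.Agent.MP_ca0a54_nt.BH.ZM
import Pool.Agent.MP_ca0a54_nt.BH.ZO1
import Pool.Agent.MP_ca0a54_nt.BH.ZO2
import Pool.Agent.MP_ca0a54_nt.BH.ZQ
import Pool.Agent.MP_ca0a54_nt.H51.LF
import Pool.Agent.MP_ca0a54_nt.H88.AR1
import Pool.Agent.MP_ca0a54_nt.H91.SC

/-! The assembly, from the expansion estimate. -/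

namespace Pool.Agent.MP_ca0a54_nt.SC

open Pool.Agent.MP_ca0a54_nt

theorem avg : AvgStmt :=
  AVG.avg (WIEN.wien (RAT.short H78M.fin fun _ h => IRR.irr h))
    (BH.TWIN.twin' BH.SEL.sel BH.SLOW.slow BH.SEL.phi)

theorem chowla (h : CoreStmt) : ChStmt := CH.ch h avg

theorem z1 : BH.Z1Stmt :=
  BH.ZM.z1 H91.shift BH.GAL.fej (BH.ZQ.zq H91.shift H91.pole H51.lf H23.pf H88.ar1)
    (BH.ZE.ze (BH.MV.mv (BH.GAL.gal BH.GAL.fej)) H88.ar1)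

theorem final (h : CoreStmt) : FinalStmt :=
  ZF.zf (chowla h) z1 (BH.ZA.zd BH.ZA.za) (BH.ZO1.zo1 BH.ZA.za H88.ar1) BH.ZO2.zo2

end Pool.Agent.MP_ca0a54_nt.SC
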