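import Pool.Agent.MP_ca0a54_nt.BH.Basic

/-! Two point correlations at every scale: definitions, statements, elementary lemmas. -/

open Complex Filter Topology

namespace Pool.Agent.MP_ca0a54_nt.SC

open Pool.Agent.MP_ca0a54_nt.BH

/-- The total mass of a weighted family of shifts `e p`. -/
noncomputable def mass (E : Finset ℕ) (Pe : ℕ → Finset ℕ) (wt : ℕ → ℝ) : ℝ :=
  ∑ e ∈ E, ∑ p ∈ Pe e, wt e / ((e : ℝ) * p)

/-- The centred form. -/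
noncomputable def cen (r : ℕ) (E : Finset ℕ) (Pe : ℕ → Finset ℕ) (wt : ℕ → ℝ) (N : ℕ)
    (f : ℕ → ℝ) : ℝ :=
  ∑ e ∈ E, ∑ p ∈ Pe e, wt e * ∑ n ∈ Finset.range N,
    if e ∣ n then f n * f (n + r * e * p) * ((if p ∣ n then 1 else 0) - 1 / (p : ℝ)) else 0

/-- The shifts `e p` lie in `[Q, (1 + η) Q]`, and every set of primes is rich. -/
def Good (η c : ℝ) (z : ℕ) (E : Finset ℕ) (Pe : ℕ → Finset ℕ) (wt : ℕ → ℝ) (Q : ℝ) : Prop :=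
  ∀ e ∈ E, 0 ≤ wt e ∧ 1 ≤ e ∧
    (∃ x : ℕ, z ≤ x ∧ (∀ p ∈ Pe e, p.Prime ∧ x < p ∧ p ≤ 3 * x) ∧
      c * x / Real.log x ≤ (Pe e).card) ∧
    ∀ p ∈ Pe e, ¬ p ∣ e ∧ Q ≤ (e : ℝ) * p ∧ (e : ℝ) * p ≤ (1 + η) * Q

/-- The expansion estimate. -/
def CoreStmt : Prop := ∀ (r : ℕ) (η : ℝ), 1 ≤ r → 0 < η → η ≤ 1 → ∃ c : ℝ, 0 < c ∧
  ∀ (ε : ℝ) (z : ℕ), 0 < ε → ∃ (E : Finset ℕ) (Pe : ℕ → Finset ℕ) (wt : ℕ → ℝ) (Q : ℝ),
  1 ≤ Q ∧ Good η c z E Pe wt Q ∧ 0 < mass E Pe wt ∧ ∀ᶠ N : ℕ in atTop, ∀ f : ℕ → ℝ,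
  (∀ n, |f n| ≤ 1) → |cen r E Pe wt N f| ≤ ε * mass E Pe wt * N

/-- The length. -/
noncomputable def lg (N : ℕ) : ℝ := N

/-- The sum of `f n` over `1 ≤ n ≤ N`. -/
noncomputable def LS (N : ℕ) (f : ℕ → ℝ) : ℝ := ∑ n ∈ Finset.Ioc 0 N, f n

/-- The same with complex values. -/
noncomputable def LC (N : ℕ) (f : ℕ → ℂ) : ℂ := ∑ n ∈ Finset.Ioc 0 N, f n

def Short (g : ℕ → ℂ) : Prop := ∀ ε : ℝ, 0 < ε → ∀ᶠ K : ℕ in atTop, ∀ᶠ N : ℕ in atTop,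
  LS N (fun n => ‖∑ j ∈ Finset.range K, g (n + j)‖ ^ 2) ≤ ε * K ^ 2 * lg N

def WienStmt : Prop := ∀ δ : ℝ, 0 < δ → ∀ᶠ K : ℕ in atTop, ∀ᶠ N : ℕ in atTop,
  ∑ k ∈ Finset.Icc 1 K, LS N (fun n => lam n * lam (n + k)) ^ 2 ≤ δ * K * lg N ^ 2

def AvgStmt : Prop := ∀ (h : ℕ) (c ε : ℝ), 1 ≤ h → 0 < c → 0 < ε → ∀ᶠ x : ℕ in atTop,
  ∀ᶠ N : ℕ in atTop, ∀ P : Finset ℕ, (∀ p ∈ P, p.Prime ∧ x < p ∧ p ≤ 3 * x) →
  c * x / Real.log x ≤ P.card →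
  LS N (fun n => (∑ p ∈ P, lam (n + p * h)) ^ 2) ≤ ε * (P.card : ℝ) ^ 2 * lg N

/-- The two point bound at every scale. -/
def ChStmt : Prop := ∀ (r : ℕ) (ε : ℝ), 1 ≤ r → 0 < ε → ∀ᶠ X : ℕ in atTop,
  |LS X fun n => lam n * lam (n + r)| ≤ ε * X

def FinalStmt : Prop := ∀ C : ℝ, ∃ T₀ : ℝ, ∀ T : ℝ, T₀ ≤ T →
  Gap T ((1 / 2 - C / Real.log T) * (2 * Real.pi / Real.log T))

theorem tendsto_lg : Tendsto lg atTop atTop := tendsto_natCast_atTop_atTop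

theorem lg_nonneg (N : ℕ) : 0 ≤ lg N := Nat.cast_nonneg N

theorem LS_mono {N : ℕ} {f g : ℕ → ℝ} (h : ∀ n, 1 ≤ n → n ≤ N → f n ≤ g n) :
    LS N f ≤ LS N g :=
  Finset.sum_le_sum fun n hn => h n (Finset.mem_Ioc.1 hn).1 (Finset.mem_Ioc.1 hn).2

theorem LS_add (N : ℕ) (f g : ℕ → ℝ) : LS N (fun n => f n + g n) = LS N f + LS N g :=
  Finset.sum_add_distrib

theorem LS_mul (N : ℕ) (c : ℝ) (f : ℕ → ℝ) : LS N (fun n => c * f n) = c * LS N f :=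
  (Finset.mul_sum _ _ _).symm

theorem LS_sum {ι : Type*} (N : ℕ) (S : Finset ι) (f : ι → ℕ → ℝ) :
    LS N (fun n => ∑ i ∈ S, f i n) = ∑ i ∈ S, LS N (f i) := Finset.sum_comm

theorem LC_add (N : ℕ) (f g : ℕ → ℂ) : LC N (fun n => f n + g n) = LC N f + LC N g :=
  Finset.sum_add_distrib

theorem LC_sub (N : ℕ) (f g : ℕ → ℂ) : LC N (fun n => f n - g n) = LC N f - LC N g :=
  Finset.sum_sub_distrib _ _

theorem LC_mul (N : ℕ) (c : ℂ) (f : ℕ → ℂ) : LC N (fun n => c * f n) = c * LC N f :=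
  (Finset.mul_sum _ _ _).symm

theorem LC_sum {ι : Type*} (N : ℕ) (S : Finset ι) (f : ι → ℕ → ℂ) :
    LC N (fun n => ∑ i ∈ S, f i n) = ∑ i ∈ S, LC N (f i) := Finset.sum_comm

theorem LC_ofReal (N : ℕ) (f : ℕ → ℝ) : LC N (fun n => (f n : ℂ)) = (LS N f : ℝ) := by
  simp [LC, LS]

theorem norm_LC_le (N : ℕ) (f : ℕ → ℂ) : ‖LC N f‖ ≤ LS N fun n => ‖f n‖ := norm_sum_le _ _

theorem LS_one (N : ℕ) : LS N (fun _ => 1) = lg N := by simp [LS, lg]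

theorem LS_one_le (N : ℕ) : LS N (fun _ => 1) ≤ 1 + lg N := by
  rw [LS_one]
  linarith

theorem LS_nonneg {N : ℕ} {f : ℕ → ℝ} (h : ∀ n, 1 ≤ n → n ≤ N → 0 ≤ f n) : 0 ≤ LS N f := by
  have := LS_mono (N := N) (f := fun _ => 0) (g := f) h
  simpa [LS] using this

theorem LS_le {N : ℕ} {f : ℕ → ℝ} {B : ℝ} (hB : 0 ≤ B)
    (h : ∀ n, 1 ≤ n → n ≤ N → f n ≤ B) : LS N f ≤ B * (1 + lg N) := by
  have h1 := LS_mono (N := N) (f := f) (g := fun _ => B * 1) (by simpa using h)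
  rw [LS_mul] at h1
  exact h1.trans (mul_le_mul_of_nonneg_left (LS_one_le N) hB)

theorem LS_sq_le (N : ℕ) (f : ℕ → ℝ) :
    LS N f ^ 2 ≤ (1 + lg N) * LS N fun n => f n ^ 2 := by
  refine (sq_sum_le_card_mul_sum_sq (s := Finset.Ioc 0 N) (f := f)).trans ?_
  refine mul_le_mul_of_nonneg_right ?_ (LS_nonneg fun n _ _ => sq_nonneg _)
  simp [lg]

theorem LC_shift_one {f : ℕ → ℂ} {B : ℝ} (hf : ∀ n, ‖f n‖ ≤ B) (N : ℕ) :
    ‖LC N (fun n => f (n + 1)) - LC N f‖ ≤ 3 * B := by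
  have hB : 0 ≤ B := (norm_nonneg _).trans (hf 0)
  have e : LC N (fun n => f (n + 1)) - LC N f = f (N + 1) - f 1 := by
    induction N with
    | zero => simp [LC]
    | succ N ih =>
      unfold LC at ih ⊢
      rw [Finset.sum_Ioc_succ_top (Nat.zero_le N), Finset.sum_Ioc_succ_top (Nat.zero_le N)]
      linear_combination ih
  rw [e]
  linarith [norm_sub_le (f (N + 1)) (f 1), hf (N + 1), hf 1]

theorem LC_shift {f : ℕ → ℂ} {B : ℝ} (hf : ∀ n, ‖f n‖ ≤ B) (N : ℕ) (j : ℕ) :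
    ‖LC N (fun n => f (n + j)) - LC N f‖ ≤ 3 * j * B := by
  induction j with
  | zero => simp
  | succ j ih =>
    have h1 := LC_shift_one (f := fun n => f (n + j)) (fun n => hf _) N
    have e : (fun n => f (n + 1 + j)) = fun n => f (n + (j + 1)) := by
      funext n
      congr 1
      ring
    rw [e] at h1
    have h2 := norm_add_le (LC N (fun n => f (n + (j + 1))) - LC N fun n => f (n + j))
      (LC N (fun n => f (n + j)) - LC N f)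
    rw [sub_add_sub_cancel] at h2
    push_cast
    linarith

theorem LS_shift {f : ℕ → ℝ} {B : ℝ} (hf : ∀ n, |f n| ≤ B) (N : ℕ) (j : ℕ) :
    |LS N (fun n => f (n + j)) - LS N f| ≤ 3 * j * B := by
  have h := LC_shift (f := fun n => (f n : ℂ)) (fun n => by simpa using hf n) N j
  rw [LC_ofReal N fun n => f (n + j), LC_ofReal, ← ofReal_sub, norm_real] at h
  exact h

theorem sum_dvd {M : Type*} [AddCommMonoid M] (f : ℕ → M) (N : ℕ) {d : ℕ} (hd : 1 ≤ d) :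
    ∑ n ∈ Finset.Ioc 0 N, (if d ∣ n then f n else 0) = ∑ m ∈ Finset.Ioc 0 (N / d), f (d * m) := by
  rw [← Finset.sum_filter]
  refine (Finset.sum_bij (fun m _ => d * m) (fun m hm => ?_) (fun a _ b _ h => ?_)
    (fun n hn => ?_) fun _ _ => rfl).symm
  · obtain ⟨h1, h2⟩ := Finset.mem_Ioc.1 hm
    rw [Nat.le_div_iff_mul_le hd, mul_comm] at h2
    exact Finset.mem_filter.2 ⟨Finset.mem_Ioc.2 ⟨Nat.mul_pos hd h1, h2⟩, dvd_mul_right _ _⟩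
  · exact Nat.eq_of_mul_eq_mul_left hd h
  · obtain ⟨h1, m, rfl⟩ := Finset.mem_filter.1 hn
    obtain ⟨h2, h3⟩ := Finset.mem_Ioc.1 h1
    refine ⟨m, Finset.mem_Ioc.2 ⟨Nat.pos_of_mul_pos_left h2, ?_⟩, rfl⟩
    rwa [Nat.le_div_iff_mul_le hd, mul_comm]

end Pool.Agent.MP_ca0a54_nt.SC
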