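import Pool.Agent.MP_ca0a54_nt.SC.Spec
import Pool.Agent.MP_ca0a54_nt.H78M.Spec

/-! The expansion estimate: definitions and the statements of the steps. -/

open Filter Finset

namespace Pool.Agent.MP_ca0a54_nt.SC.CT

/-- The elements of `A` which divide `x`. -/
def dv (A : Finset ℕ) (x : ℕ) : Finset ℕ := A.filter (· ∣ x)

/-- The product of a set. -/
def pd (E : Finset ℕ) : ℕ := ∏ q ∈ E, q

/-- The logarithm of the product of a set. -/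
noncomputable def ll (E : Finset ℕ) : ℝ := ∑ q ∈ E, Real.log q

/-- The sum of the reciprocals. -/
noncomputable def rc (A : Finset ℕ) : ℝ := ∑ q ∈ A, 1 / (q : ℝ)

/-- The probability of the subset `T` of `A`. -/
noncomputable def pb (A T : Finset ℕ) : ℝ :=
  (∏ q ∈ T, 1 / (q : ℝ)) * ∏ q ∈ A \ T, (1 - 1 / (q : ℝ))

/-- The mean over random subsets of `A`. -/
noncomputable def Ex (A : Finset ℕ) (G : Finset ℕ → ℝ) : ℝ := ∑ T ∈ A.powerset, pb A T * G T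

/-- The weight of the subset `E` of `T`. -/
noncomputable def w (a : ℝ) (T E : Finset ℕ) : ℝ := a ^ E.card / (1 + a) ^ T.card

/-- The mean of the bias. -/
noncomputable def Zm (A : Finset ℕ) (a : ℝ) : ℝ := Ex A fun T => (1 + a) ^ T.card

/-- The centred indicator of divisibility. -/
noncomputable def cp (p x : ℕ) : ℝ := (if p ∣ x then 1 else 0) - 1 / (p : ℝ)

/-- The data of the graph. -/
structure Dat where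
  A : Finset ℕ
  B : Finset ℕ
  a : ℝ
  Pe : Finset ℕ → Finset ℕ
  t0 : ℕ
  κ : ℝ
  κ' : ℝ

def Dat.Base (d : Dat) (r : ℕ) : Prop :=
  (∀ q ∈ d.A, q.Prime) ∧ (∀ p ∈ d.B, p.Prime ∧ r < p ∧ p ∉ d.A) ∧ 0 ≤ d.a ∧
    (∀ E, d.Pe E ⊆ d.B) ∧ 1 ≤ r ∧ 0 < d.κ ∧ 0 < d.κ'

noncomputable def R (d : Dat) (p : ℕ) (T : Finset ℕ) : ℝ :=
  ∑ E ∈ T.powerset, if p ∈ d.Pe E then w d.a T E else 0

noncomputable def Cl (d : Dat) (p : ℕ) (T E : Finset ℕ) : ℝ :=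
  ∑ F ∈ T.powerset, if d.t0 ≤ (T \ F).card ∧ pd F ≡ pd E [MOD p] then w d.a T F else 0

/-- The cutoff. -/
def ok (d : Dat) (T E : Finset ℕ) (p : ℕ) : Prop :=
  R d p T ≤ d.κ ∧ d.t0 ≤ (T \ E).card ∧ ∀ p' ∈ d.B, Cl d p' T E ≤ d.κ'

open Classical in
/-- The indicator of the cutoff. -/
noncomputable def oi (d : Dat) (T E : Finset ℕ) (p : ℕ) : ℝ := if ok d T E p then 1 else 0

noncomputable def massS (d : Dat) : ℝ :=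
  ∑ E ∈ d.A.powerset, ∑ p ∈ d.Pe E, d.a ^ E.card / ((pd E : ℝ) * p)

noncomputable def cenS (r : ℕ) (d : Dat) (N : ℕ) (f : ℕ → ℝ) : ℝ :=
  ∑ E ∈ d.A.powerset, ∑ p ∈ d.Pe E, d.a ^ E.card * ∑ n ∈ range N,
    if pd E ∣ n then f n * f (n + r * pd E * p) * cp p n else 0

/-- One edge which passes the cutoff at both ends. -/
noncomputable def Gk (r : ℕ) (d : Dat) (f : ℕ → ℝ) (E : Finset ℕ) (p x : ℕ) : ℝ :=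
  if pd E ∣ x then oi d (dv d.A x) E p * oi d (dv d.A (x + r * pd E * p)) E p *
    (d.a ^ E.card * (f x * f (x + r * pd E * p) * cp p x)) else 0

noncomputable def cenK (r : ℕ) (d : Dat) (N : ℕ) (f : ℕ → ℝ) : ℝ :=
  ∑ E ∈ d.A.powerset, ∑ p ∈ d.Pe E, ∑ n ∈ range N, Gk r d f E p n

/-- The removed mass. -/
noncomputable def Bad (d : Dat) : ℝ :=
  ∑ E ∈ d.A.powerset, ∑ p ∈ d.Pe E,
    d.a ^ E.card / p * Ex d.A fun T => if E ⊆ T then 1 - oi d T E p else 0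

noncomputable def two (a : ℝ) (p : ℕ) (T : Finset ℕ) : ℝ :=
  ∑ E ∈ T.powerset, ∑ F ∈ T.powerset,
    if E ≠ F ∧ pd E ≡ pd F [MOD p] then w a T E * w a T F else 0

noncomputable def three (a : ℝ) (p : ℕ) (T : Finset ℕ) : ℝ :=
  ∑ E ∈ T.powerset, ∑ F ∈ T.powerset, ∑ G ∈ T.powerset,
    if (E ≠ F ∧ E ≠ G ∧ F ≠ G) ∧ pd E ≡ pd F [MOD p] ∧ pd E ≡ pd G [MOD p] then
      w a T E * w a T F * w a T G else 0

/-- The weight of the subsets in a window. -/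
noncomputable def Rw (a y : ℝ) (T : Finset ℕ) : ℝ :=
  ∑ E ∈ T.powerset, if y ≤ ll E ∧ ll E ≤ y + 1 then w a T E else 0

noncomputable def Fw (A : Finset ℕ) (β y z : ℝ) : ℝ :=
  ∑ E ∈ A.powerset, if y ≤ ll E ∧ ll E ≤ z then β ^ E.card / pd E else 0

noncomputable def Tri (A : Finset ℕ) (α θ y : ℝ) : ℝ :=
  ∑ G ∈ A.powerset, ∑ X ∈ A.powerset, ∑ Y ∈ A.powerset,
    if (y ≤ ll G + ll X ∧ ll G + ll X ≤ y + 1) ∧ y ≤ ll G + ll Y ∧ ll G + ll Y ≤ y + 1 then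
      α ^ G.card / pd G * (θ ^ X.card / pd X) * (θ ^ Y.card / pd Y) else 0

/-- The first theorem of Mertens, upper bound, on the set `A`. -/
def Che (D : ℝ) (A : Finset ℕ) : Prop := ∀ u v : ℝ, u ≤ v →
  ∑ q ∈ A.filter (fun q : ℕ => u ≤ Real.log q ∧ Real.log q ≤ v), Real.log q / q ≤ v - u + D

def Nice (D t : ℝ) (A : Finset ℕ) : Prop :=
  (∀ q : ℕ, q ∈ A ↔ q.Prime ∧ t < Real.log q ∧ Real.log q ≤ t ^ 4 + 1) ∧ Che D A ∧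
    ∀ z : ℝ, t ≤ z →
      Real.exp (-rc (A.filter fun q : ℕ => z < Real.log q)) ≤ D * z / t ^ 4

/-- The primes in `(y, (1 + η) y]`. -/
noncomputable def win (η y : ℝ) : Finset ℕ :=
  (range (⌊(1 + η) * y⌋₊ + 1)).filter fun p => p.Prime ∧ y < p

theorem mem_win {η y : ℝ} {p : ℕ} : p ∈ win η y ↔ p.Prime ∧ y < p ∧ (p : ℝ) ≤ (1 + η) * y := by
  simp only [win, mem_filter, mem_range, Nat.lt_add_one_iff]
  constructor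
  · rintro ⟨h, h1, h2⟩
    exact ⟨h1, h2, (Nat.le_floor_iff' h1.ne_zero).1 h⟩
  · rintro ⟨h1, h2, h⟩
    exact ⟨Nat.le_floor h, h1, h2⟩

open Classical in
noncomputable def PeC (η Q P0 top : ℝ) (E : Finset ℕ) : Finset ℕ :=
  if P0 < Q / pd E ∧ 2 * (Q / pd E) ≤ top then win η (Q / pd E) else ∅

/-- The scale. -/
noncomputable def tk (k : ℕ) : ℝ := 2 ^ k

/-- The choice of the data. -/
noncomputable def dat (η C1 Λ : ℝ) (k : ℕ) : Dat where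
  A := H78M.pr (tk k) (tk k ^ 4 + 1)
  B := H78M.pr (40 * Real.log (tk k)) (Λ * (40 * Real.log (tk k)))
  a := 2 ^ 40 - 1
  Pe := PeC η (Real.exp (tk k ^ 4)) (Real.exp (40 * Real.log (tk k)))
    (Real.exp (Λ * (40 * Real.log (tk k))))
  t0 := k
  κ := C1 / tk k ^ 4
  κ' := C1 / (2 * tk k ^ 8)

/-- The size with which everything is compared. -/
noncomputable def ZV (k : ℕ) : ℝ :=
  Real.exp ((2 ^ 40 - 1) * rc (H78M.pr (tk k) (tk k ^ 4 + 1))) / tk k ^ 4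

def PowStmt : Prop := ∀ (ℓ s : ℕ) (M : Matrix (Fin ℓ) (Fin ℓ) ℝ) (f : Fin ℓ → ℝ) (ρ : ℝ),
  M.IsSymm → 0 < ρ → 1 ≤ s →
  |∑ i, ∑ j, f i * f j * M i j| ≤
    (∑ i, f i ^ 2) * (ρ + (M ^ 2 ^ s).trace / ρ ^ (2 ^ s - 1))

def IndStmt : Prop := ∀ (D p M j : ℕ) (h : ℕ → ℝ), Function.Periodic h D → p.Coprime D →
  0 < p → D * p ∣ M →
  ∑ n ∈ range M, h n * (if p ∣ n + j then 1 else 0) = 1 / (p : ℝ) * ∑ n ∈ range M, h n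

def ModStmt : Prop := ∀ (A : Finset ℕ) (G : Finset ℕ → ℝ) (M j : ℕ), (∀ q ∈ A, q.Prime) →
  pd A ∣ M → ∑ n ∈ range M, G (dv A (n + j)) = M * Ex A G

def CondStmt : Prop := ∀ (A U : Finset ℕ) (c : ℝ), U ⊆ A →
  Ex A (fun T => if U ⊆ T then c ^ T.card else 0) =
    (∏ q ∈ U, c / (q : ℝ)) * ∏ q ∈ A \ U, (1 - (1 - c) / (q : ℝ))

def PerStmt : Prop := ∀ (M : ℕ) (h : ℕ → ℝ), 0 < M → Function.Periodic h M →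
  (∀ n, 0 ≤ h n) → ∀ δ : ℝ, 0 < δ → ∀ᶠ N : ℕ in atTop,
  ∑ n ∈ range N, h n ≤ N * ((∑ n ∈ range M, h n) / M + δ)

def TrStmt : Prop := ∀ (ℓ s D : ℕ) (B : Finset ℕ) (K : ℕ → ℕ → Fin ℓ → Fin ℓ → ℝ)
  (φ : ℕ → Fin ℓ → ℝ) (κ κ' L : ℝ),
  (∀ p ∈ B, p.Prime ∧ p.Coprime D ∧ 2 ^ s ≤ p) → 1 ≤ s → ℓ ≤ 2 ^ 2 ^ s → 0 < κ → 0 ≤ κ' →
  2 ^ s * κ' ≤ κ → 1 ≤ L → rc B ≤ L → (∀ n i, 0 < φ n i) → Function.Periodic φ D →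
  Function.Periodic K D → (∀ n p i j, 0 ≤ K n p i j) → (∀ n p i j, K n p i j = K n p j i) →
  (∀ n p i j, K n p i j ≠ 0 → (p ∣ n + i ↔ p ∣ n + j)) →
  (∀ n, ∀ p ∈ B, ∀ i, ∑ j, K n p i j * φ n j ≤ κ * φ n i) →
  (∀ n, ∀ p ∈ B, ∀ p' ∈ B, p' ≠ p → ∀ i,
    ∑ j : Fin ℓ, (if p' ∣ n + j then K n p i j * φ n j else 0) ≤ κ' * φ n i) →
  ∃ Ψ : ℕ → ℝ, Function.Periodic Ψ (D * pd B) ∧
    ∑ n ∈ range (D * pd B), Ψ n ≤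
      32 * κ * √L * ∑ n ∈ range (D * pd B), ∑ i, φ n i ^ 2 ∧
    ∀ (n : ℕ) (f : Fin ℓ → ℝ), (∀ i, |f i| ≤ φ n i) →
      |∑ i, ∑ j, f i * f j * ∑ p ∈ B, K n p i j * cp p (n + i)| ≤ Ψ n

/-- The hypotheses on the length of the walks and of the blocks. -/
def Len (d : Dat) (ℓ s : ℕ) (L : ℝ) : Prop :=
  (∀ p ∈ d.B, 2 ^ s ≤ p) ∧ 1 ≤ s ∧ 0 < ℓ ∧ ℓ ≤ 2 ^ 2 ^ s ∧ 2 ^ s * d.κ' ≤ d.κ ∧ 1 ≤ L ∧
    rc d.B ≤ L

def KerStmt : Prop := ∀ (r : ℕ) (d : Dat) (ℓ s : ℕ) (L : ℝ), d.Base r → Len d ℓ s L →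
  ∃ Ψ : ℕ → ℝ, Function.Periodic Ψ (pd d.A * pd d.B) ∧
    ∑ n ∈ range (pd d.A * pd d.B), Ψ n ≤ 64 * d.κ * √L *
      ∑ n ∈ range (pd d.A * pd d.B), ∑ i ∈ range ℓ, (1 + d.a) ^ (dv d.A (n + i)).card ∧
    ∀ (n : ℕ) (f : ℕ → ℝ), (∀ x, |f x| ≤ 1) →
      |2 * ∑ E ∈ d.A.powerset, ∑ p ∈ d.Pe E, ∑ i ∈ range ℓ,
        if i + r * pd E * p < ℓ then Gk r d f E p (n + i) else 0| ≤ Ψ n

def SldStmt : Prop := ∀ (r : ℕ) (d : Dat) (ℓ s : ℕ) (L H : ℝ), d.Base r → Len d ℓ s L →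
  (∀ E ⊆ d.A, ∀ p ∈ d.Pe E, (r : ℝ) * pd E * p ≤ H) → 0 ≤ H → ∀ δ : ℝ, 0 < δ →
  ∀ᶠ N : ℕ in atTop, ∀ f : ℕ → ℝ, (∀ x, |f x| ≤ 1) →
    |cenK r d N f| ≤ N * (32 * d.κ * √L * Zm d.A d.a + 2 * H / ℓ * massS d + δ)

def RemStmt : Prop := ∀ (r : ℕ) (d : Dat), d.Base r → ∀ δ : ℝ, 0 < δ →
  ∀ᶠ N : ℕ in atTop, ∀ f : ℕ → ℝ, (∀ x, |f x| ≤ 1) →
    |cenS r d N f - cenK r d N f| ≤ N * (4 * Bad d + δ)

open Classical in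
def ColStmt : Prop := ∀ (d : Dat) (T : Finset ℕ), 0 ≤ d.a → 0 < d.κ' →
  2 ≤ d.κ' * (1 + d.a) ^ d.t0 →
  ∑ E ∈ T.powerset, (if d.t0 ≤ (T \ E).card ∧ ∃ p ∈ d.B, d.κ' < Cl d p T E then w d.a T E
    else 0) ≤ 4 / d.κ' ^ 2 * ∑ p ∈ d.B, (two d.a p T / (1 + d.a) ^ d.t0 + three d.a p T)

def BadStmt : Prop := ∀ (r : ℕ) (d : Dat), d.Base r → 2 ≤ d.κ' * (1 + d.a) ^ d.t0 →
  (∀ E ⊆ d.A, ∀ p ∈ d.Pe E, rc E ≤ 1) →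
  Bad d ≤ (∑ p ∈ d.B, 1 / (p : ℝ) * Ex d.A fun T => (1 + d.a) ^ T.card * R d p T ^ 2) / d.κ +
    2 ^ d.t0 * Real.exp (-(rc d.A - 1) / 2) * massS d +
    rc d.B * (4 / d.κ' ^ 2) * ∑ p ∈ d.B,
      ((Ex d.A fun T => (1 + d.a) ^ T.card * two d.a p T) / (1 + d.a) ^ d.t0 +
        Ex d.A fun T => (1 + d.a) ^ T.card * three d.a p T)

/-- Few elements of `A` lie in a residue class. -/
def Thin (A : Finset ℕ) (p : ℕ) (δ : ℝ) : Prop := ∀ u v : ℕ, ¬ p ∣ u →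
  rc (A.filter fun q => u * q ≡ v [MOD p]) ≤ δ

def PinTwoStmt : Prop := ∀ (A : Finset ℕ) (a δ : ℝ) (p : ℕ), (∀ q ∈ A, q.Prime) → p.Prime →
  p ∉ A → 0 ≤ a → Thin A p δ →
  (Ex A fun T => (1 + a) ^ T.card * two a p T) ≤ 8 * δ * Zm A a

def PinThreeStmt : Prop := ∀ (A : Finset ℕ) (a δ : ℝ) (p : ℕ), (∀ q ∈ A, q.Prime) → p.Prime →
  p ∉ A → 0 ≤ a → Thin A p δ →
  (Ex A fun T => (1 + a) ^ T.card * three a p T) ≤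
    24 * δ * Ex A fun T => (1 + a) ^ T.card * two a p T

def DelStmt : Prop := ∀ (A : Finset ℕ) (p : ℕ) (z : ℝ), p.Prime → 0 ≤ z →
  (∀ q ∈ A, p ≤ q ∧ Real.log q ≤ z) → Thin A p ((1 + z) / p)

def LocStmt : Prop := ∀ (A : Finset ℕ) (β D y z : ℝ), (∀ q ∈ A, 1 ≤ q) → 0 ≤ β → y ≤ z →
  Che D A → y * Fw A β y z ≤
    β * (z - y + D) * Real.exp (β * rc (A.filter fun q : ℕ => Real.log q ≤ z))

def TriStmt : Prop := ∀ α D : ℝ, 2 ≤ α → ∃ C : ℝ, 0 ≤ C ∧ ∀ᶠ t : ℝ in atTop,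
  ∀ (A : Finset ℕ) (θ y : ℝ), Nice D t A → 3 / 4 ≤ θ → θ ≤ 1 → y ≤ t ^ 4 →
  Tri A α θ y ≤ C * Real.exp ((α + 2 * θ) * rc A) / t ^ 8

def ExpStmt : Prop := ∀ (A : Finset ℕ) (a y : ℝ), (∀ q ∈ A, q.Prime) → 0 ≤ a →
  (∀ U ⊆ A, ll U ≤ 2 * (y + 1) → rc U ≤ 1) →
  (Ex A fun T => (1 + a) ^ T.card * Rw a y T ^ 2) ≤
    Real.exp (1 - a / (1 + a) * rc A) * Tri A (a ^ 2 / (1 + a)) (a / (1 + a)) y

def SecStmt : Prop := ∀ a D : ℝ, 3 ≤ a → ∃ C : ℝ, 0 ≤ C ∧ ∀ᶠ t : ℝ in atTop,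
  ∀ (A : Finset ℕ) (y : ℝ), Nice D t A → y ≤ t ^ 4 →
  (Ex A fun T => (1 + a) ^ T.card * Rw a y T ^ 2) ≤ C * Real.exp (a * rc A) / t ^ 8

def NiceStmt : Prop := ∃ D : ℝ, 1 ≤ D ∧ ∀ᶠ t : ℝ in atTop, Nice D t (H78M.pr t (t ^ 4 + 1))

def BmStmt : Prop := ∀ Λ : ℝ, 2 ≤ Λ → ∀ᶠ u : ℝ in atTop,
  rc (H78M.pr u (Λ * u)) ≤ Real.log Λ + 1 ∧
    Real.log Λ - 1 ≤ rc (H78M.pr (u + 1) (Λ * u - 1))

def WinStmt : Prop := ∀ η : ℝ, 0 < η → η ≤ 1 → ∀ᶠ y : ℝ in atTop,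
  η * y / (2 * Real.log (2 * y)) ≤ (win η y).card

def LowStmt : Prop := ∀ a η D : ℝ, 1 ≤ a → 0 < η → η ≤ 1 → ∃ c : ℝ, 0 < c ∧
  ∀ᶠ t : ℝ in atTop, ∀ (A : Finset ℕ) (Y : ℝ), Nice D t A → Real.exp (t ^ 4 / 2) ≤ Y →
  Y ≤ Real.exp (t ^ 4) → c * Real.exp (a * rc A) / t ^ 4 ≤
    ∑ E ∈ A.powerset, if Y < pd E ∧ (pd E : ℝ) ≤ (1 + η) * Y then a ^ E.card / pd E else 0

def GoodStmt : Prop := ∀ η : ℝ, 0 < η → η ≤ 1 → ∃ c : ℝ, 0 < c ∧ ∀ z : ℕ, ∃ y0 : ℝ,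
  ∀ (d : Dat) (Q P0 top : ℝ), d.Pe = PeC η Q P0 top → y0 ≤ P0 → 0 ≤ d.a →
  (∀ q ∈ d.A, q.Prime ∧ top < q) →
  ∃ (E : Finset ℕ) (Pe : ℕ → Finset ℕ) (wt : ℕ → ℝ), Good η c z E Pe wt Q ∧
    mass E Pe wt = massS d ∧ ∀ r N f, cen r E Pe wt N f = cenS r d N f

def MassStmt : Prop := ∀ η : ℝ, 0 < η → η ≤ 1 → ∃ c : ℝ, 0 < c ∧ ∀ C1 Λ : ℝ, 2 ≤ Λ →
  ∀ᶠ k : ℕ in atTop, c * (Real.log Λ - 1) * ZV k ≤ massS (dat η C1 Λ k)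

def HypStmt : Prop := ∀ (r : ℕ) (η C1 Λ : ℝ), 1 ≤ r → 0 < η → η ≤ 1 → 1 ≤ C1 → 2 ≤ Λ →
  ∀ᶠ k : ℕ in atTop, (dat η C1 Λ k).Base r ∧
    Len (dat η C1 Λ k) (2 ^ 2 ^ (4 * k + 1)) (4 * k + 1) (Real.log Λ + 1) ∧
    (∀ p ∈ (dat η C1 Λ k).B, tk k ^ 40 < p ∧ ∀ q ∈ (dat η C1 Λ k).A, p ≤ q) ∧
    (∀ q ∈ (dat η C1 Λ k).A, Real.exp (Λ * (40 * Real.log (tk k))) < q) ∧
    (∀ E ⊆ (dat η C1 Λ k).A, ∀ p ∈ (dat η C1 Λ k).Pe E, Real.exp (tk k ^ 4) ≤ (pd E : ℝ) * p ∧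
      (pd E : ℝ) * p ≤ 2 * Real.exp (tk k ^ 4) ∧ rc E ≤ 1) ∧
    Zm (dat η C1 Λ k).A (dat η C1 Λ k).a ≤ tk k ^ 4 * ZV k

def BadEstStmt : Prop := ∃ C : ℝ, 0 ≤ C ∧ ∀ η C1 Λ δ : ℝ, 0 < η → η ≤ 1 → 1 ≤ C1 → 2 ≤ Λ →
  0 < δ → ∀ᶠ k : ℕ in atTop, Bad (dat η C1 Λ k) ≤
    (C * (Real.log Λ + 1) / C1 + δ) * ZV k + δ * massS (dat η C1 Λ k)

def EstStmt : Prop := ∃ C : ℝ, 0 ≤ C ∧ ∀ (r : ℕ) (η C1 Λ δ : ℝ), 1 ≤ r → 0 < η → η ≤ 1 →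
  1 ≤ C1 → 2 ≤ Λ → 0 < δ → ∀ᶠ k : ℕ in atTop, ∀ᶠ N : ℕ in atTop, ∀ f : ℕ → ℝ,
  (∀ x, |f x| ≤ 1) → |cenS r (dat η C1 Λ k) N f| ≤
    N * ((32 * C1 * √(Real.log Λ + 1) + C * (Real.log Λ + 1) / C1 + δ) * ZV k +
      δ * massS (dat η C1 Λ k))

theorem mem_dv {A : Finset ℕ} {x q : ℕ} : q ∈ dv A x ↔ q ∈ A ∧ q ∣ x := mem_filter

theorem dv_subset (A : Finset ℕ) (x : ℕ) : dv A x ⊆ A := filter_subset _ _

theorem pd_dvd_iff {A E : Finset ℕ} (hA : ∀ q ∈ A, q.Prime) (hE : E ⊆ A) (x : ℕ) :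
    pd E ∣ x ↔ E ⊆ dv A x := by
  constructor
  · exact fun h q hq => mem_dv.2 ⟨hE hq, (dvd_prod_of_mem _ hq).trans h⟩
  · exact fun h => Finset.prod_primes_dvd x (fun q hq => (hA q (hE hq)).prime)
      fun q hq => (mem_dv.1 (h hq)).2

theorem dv_add_pd (A : Finset ℕ) (x : ℕ) : dv A (x + pd A) = dv A x := by
  ext q
  simp only [mem_dv]
  exact and_congr_right fun hq => (Nat.dvd_add_left (dvd_prod_of_mem _ hq) : _)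

theorem pd_pos {E : Finset ℕ} (h : ∀ q ∈ E, 1 ≤ q) : 0 < pd E := prod_pos h

theorem log_pd {E : Finset ℕ} (h : ∀ q ∈ E, 1 ≤ q) : Real.log (pd E) = ll E := by
  rw [pd, Nat.cast_prod, Real.log_prod]
  · rfl
  · intro q hq
    have := h q hq
    positivity

theorem ll_nonneg (E : Finset ℕ) : 0 ≤ ll E :=
  sum_nonneg fun q _ => Real.log_natCast_nonneg q

theorem rc_nonneg (A : Finset ℕ) : 0 ≤ rc A := sum_nonneg fun _ _ => by positivity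

theorem pb_nonneg (A T : Finset ℕ) : 0 ≤ pb A T := by
  refine mul_nonneg (prod_nonneg fun _ _ => by positivity) (prod_nonneg fun q _ => ?_)
  rw [one_div, sub_nonneg]
  exact Nat.cast_inv_le_one q

theorem Ex_mono {A : Finset ℕ} {G H : Finset ℕ → ℝ} (h : ∀ T ⊆ A, G T ≤ H T) :
    Ex A G ≤ Ex A H :=
  sum_le_sum fun T hT => mul_le_mul_of_nonneg_left (h T (mem_powerset.1 hT)) (pb_nonneg A T)

theorem Ex_add (A : Finset ℕ) (G H : Finset ℕ → ℝ) :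
    Ex A (fun T => G T + H T) = Ex A G + Ex A H := by
  simp only [Ex, mul_add, sum_add_distrib]

theorem Ex_mul (A : Finset ℕ) (c : ℝ) (G : Finset ℕ → ℝ) :
    Ex A (fun T => c * G T) = c * Ex A G := by
  simp only [Ex, mul_sum, mul_left_comm]

theorem Ex_sum {ι : Type*} (A : Finset ℕ) (S : Finset ι) (G : ι → Finset ℕ → ℝ) :
    Ex A (fun T => ∑ i ∈ S, G i T) = ∑ i ∈ S, Ex A (G i) := by
  simp only [Ex, mul_sum]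
  exact sum_comm

theorem Ex_nonneg {A : Finset ℕ} {G : Finset ℕ → ℝ} (h : ∀ T ⊆ A, 0 ≤ G T) : 0 ≤ Ex A G :=
  sum_nonneg fun T hT => mul_nonneg (pb_nonneg A T) (h T (mem_powerset.1 hT))

theorem w_nonneg {a : ℝ} (ha : 0 ≤ a) (T E : Finset ℕ) : 0 ≤ w a T E := by
  unfold w
  positivity

theorem sum_w {a : ℝ} (ha : 0 ≤ a) (T : Finset ℕ) : ∑ E ∈ T.powerset, w a T E = 1 := by
  have h := Finset.prod_one_add (s := T) (f := fun _ => a)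
  simp only [prod_const] at h
  simp only [w, ← sum_div, ← h]
  exact div_self (by positivity)

theorem oi_nonneg (d : Dat) (T E : Finset ℕ) (p : ℕ) : 0 ≤ oi d T E p := by
  unfold oi
  split_ifs <;> norm_num

theorem oi_le_one (d : Dat) (T E : Finset ℕ) (p : ℕ) : oi d T E p ≤ 1 := by
  unfold oi
  split_ifs <;> norm_num

theorem abs_cp_le (p x : ℕ) : |cp p x| ≤ (if p ∣ x then 1 else 0) + 1 / (p : ℝ) := by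
  have h : (0 : ℝ) ≤ 1 / (p : ℝ) := by positivity
  unfold cp
  split_ifs <;> rw [abs_le] <;> constructor <;> linarith

end Pool.Agent.MP_ca0a54_nt.SC.CT
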